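import Pool.Agent.Helper2.EX.Defs

/-!
# Basic facts about extenders
-/

open Set Cardinal Filter

namespace Helper2.EX

variable {β γ δ : Type*} {κ μ μ' ξ i j : Ord} {E : Set (Set Asg)}

theorem FD.const (μ : Ord) (c : β) : FD μ (fun _ : Asg => c) :=
  ⟨∅, by simp, fun _ _ _ => rfl⟩

theorem FD.coord (hi : i < μ) : FD μ (fun s : Asg => s i) :=
  ⟨{i}, by simpa using hi, fun s t h => h i (by simp)⟩

theorem FD.mono {f : Asg → β} (h : μ ≤ μ') (hf : FD μ f) : FD μ' f := by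
  obtain ⟨a, h1, h2⟩ := hf
  exact ⟨a, fun i hi => (h1 i hi).trans_le h, h2⟩

theorem FD.map {f : Asg → β} (F : β → γ) (hf : FD μ f) : FD μ (fun s => F (f s)) := by
  obtain ⟨a, h1, h2⟩ := hf
  exact ⟨a, h1, fun s t h => congrArg F (h2 s t h)⟩

theorem FD.map₂ {f : Asg → β} {g : Asg → γ} (F : β → γ → δ) (hf : FD μ f) (hg : FD μ g) :
    FD μ (fun s => F (f s) (g s)) := by
  obtain ⟨a, h1, h2⟩ := hf
  obtain ⟨b, h3, h4⟩ := hg
  refine ⟨a ∪ b, fun i hi => ?_, fun s t h => ?_⟩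
  · rcases Finset.mem_union.1 hi with hi | hi
    exacts [h1 i hi, h3 i hi]
  · dsimp only
    rw [h2 s t fun i hi => h i (Finset.mem_union_left _ hi),
      h4 s t fun i hi => h i (Finset.mem_union_right _ hi)]

theorem FD.map₃ {ε : Type*} {f : Asg → β} {g : Asg → γ} {k : Asg → δ} (F : β → γ → δ → ε)
    (hf : FD μ f) (hg : FD μ g) (hk : FD μ k) : FD μ (fun s => F (f s) (g s) (k s)) :=
  FD.map₂ (fun p c => F p.1 p.2 c) (FD.map₂ Prod.mk hf hg) hk

theorem FD.congr {f g : Asg → β} (hf : FD μ f) (h : ∀ s, f s = g s) : FD μ g := by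
  have : f = g := funext h
  rwa [← this]

theorem FD.tr {X : Set Asg} (hκ : κ < μ) (hX : FD μ (fun s => s ∈ X)) :
    FD μ (fun s => tr κ s X) := by
  obtain ⟨a, h1, h2⟩ := hX
  refine ⟨insert κ a, fun i hi => ?_, fun s t h => ?_⟩
  · rcases Finset.mem_insert.1 hi with rfl | hi
    exacts [hκ, h1 i hi]
  · ext u
    have e1 : s κ = t κ := h κ (Finset.mem_insert_self _ _)
    have e2 := h2 (fun i => u (s i)) (fun i => u (t i)) fun i hi => by
      rw [h i (Finset.mem_insert_of_mem hi)]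
    simp only [EX.tr, mem_ofPred_eq, e1]
    exact and_congr_right fun _ => iff_of_eq e2

/-- a function chosen from data with finite support has finite support -/
theorem FD.choose [Nonempty β] {P : Asg → β → Prop} (hP : FD μ P) :
    ∃ f : Asg → β, FD μ f ∧ ∀ s, (∃ y, P s y) → P s (f s) := by
  classical
  refine ⟨fun s => if h : ∃ y, P s y then h.choose else Classical.arbitrary β, ?_, fun s hs => ?_⟩
  · exact hP.map fun Q : β → Prop => if h : ∃ y, Q y then h.choose else Classical.arbitrary β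
  · simp only [hs, dite_true]
    exact hs.choose_spec

namespace IsExt

theorem mem_F (h : IsExt κ μ E) {X : Set Asg} (hX : X ∈ E) : X ∈ h.F :=
  ⟨fun _ => X, fun _ => hX, iInter_subset _ 0⟩

instance neBot (h : IsExt κ μ E) : h.F.NeBot := by
  refine ⟨fun hb => ?_⟩
  have : (∅ : Set Asg) ∈ h.F := by rw [hb]; trivial
  obtain ⟨X, hX, hs⟩ := this
  obtain ⟨s, hs'⟩ := h.cc X hX
  exact hs hs'

theorem inter_mem (h : IsExt κ μ E) {X Y : Set Asg} (hX : X ∈ E) (hY : Y ∈ h.F) :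
    (X ∩ Y).Nonempty := by
  have := h.F.inter_sets (h.mem_F hX) hY
  exact (h.neBot.nonempty_of_mem this)

theorem mem_F_iff (h : IsExt κ μ E) {X : Set Asg} (hX : FD μ (fun s => s ∈ X)) :
    X ∈ h.F ↔ X ∈ E := by
  refine ⟨fun h1 => ?_, h.mem_F⟩
  rw [h.ultra X hX]
  intro h2
  obtain ⟨s, hs1, hs2⟩ := h.inter_mem h2 h1
  exact hs1 hs2

theorem ev_iff (h : IsExt κ μ E) {P : Asg → Prop} (hP : FD μ P) :
    (∀ᶠ s in h.F, P s) ↔ {s | P s} ∈ E := h.mem_F_iff hP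

instance countable (h : IsExt κ μ E) : CountableInterFilter h.F := by
  refine ⟨fun S hS hS' => ?_⟩
  rcases S.eq_empty_or_nonempty with rfl | hne
  · rw [sInter_empty]; exact h.F.univ_sets
  obtain ⟨f, rfl⟩ := hS.exists_eq_range hne
  choose X hX hX' using fun n => hS' (f n) (mem_range_self n)
  refine ⟨fun n => X n.unpair.1 n.unpair.2, fun n => hX _ _, fun s hs => ?_⟩
  rw [mem_sInter]
  rintro _ ⟨n, rfl⟩
  refine hX' n (mem_iInter.2 fun k => ?_)
  have := mem_iInter.1 hs (Nat.pair n k)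
  simpa using this

theorem em (h : IsExt κ μ E) {P : Asg → Prop} (hP : FD μ P) :
    (∀ᶠ s in h.F, P s) ∨ (∀ᶠ s in h.F, ¬ P s) := by
  by_cases h1 : {s | P s} ∈ E
  · exact Or.inl (h.mem_F h1)
  · right
    have h2 : FD μ (fun s => s ∈ {s | P s}ᶜ) := hP.map Not
    have := (h.ultra {s | P s}ᶜ h2).2 (by rwa [compl_compl])
    exact h.mem_F this

theorem ev_not (h : IsExt κ μ E) {P : Asg → Prop} (hP : FD μ P) :
    (∀ᶠ s in h.F, ¬ P s) ↔ ¬ ∀ᶠ s in h.F, P s := by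
  refine ⟨fun h1 h2 => ?_, fun h1 => (h.em hP).resolve_left h1⟩
  obtain ⟨s, hs1, hs2⟩ := (h1.and h2).exists
  exact hs1 hs2

theorem ev_lt (h : IsExt κ μ E) (hi : i < μ) : ∀ᶠ s in h.F, s i < κ := h.mem_F (h.lt i hi)

theorem ev_mono (h : IsExt κ μ E) (hij : i < j) (hj : j < μ) : ∀ᶠ s in h.F, s i < s j :=
  h.mem_F (h.mono i j hij hj)

theorem ev_mono' (h : IsExt κ μ E) (hij : i ≤ j) (hj : j < μ) : ∀ᶠ s in h.F, s i ≤ s j := by
  rcases hij.eq_or_lt with rfl | hij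
  · exact Eventually.of_forall fun s => le_rfl
  · exact (h.ev_mono hij hj).mono fun s hs => hs.le

/-- order of seeds -/
theorem lt_of_ev (h : IsExt κ μ E) (hi : i < μ) (hij : ∀ᶠ s in h.F, s i < s j) : i < j := by
  by_contra hc
  obtain ⟨s, h1, h2⟩ := ((h.ev_mono' (not_lt.1 hc) hi).and hij).exists
  exact absurd h2 (not_lt.2 h1)

theorem le_of_ev (h : IsExt κ μ E) (hi : i < μ) (hij : ∀ᶠ s in h.F, s i ≤ s j) : i ≤ j := by
  by_contra hc
  obtain ⟨s, h1, h2⟩ := ((h.ev_mono (not_le.1 hc) hi).and hij).exists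
  exact absurd h2 (not_le.2 h1)

theorem eq_of_ev (h : IsExt κ μ E) (hi : i < μ) (hj : j < μ) (hij : ∀ᶠ s in h.F, s i = s j) :
    i = j :=
  le_antisymm (h.le_of_ev hi (hij.mono fun _ hs => hs.le))
    (h.le_of_ev hj (hij.mono fun _ hs => hs.ge))

/-- normality -/
theorem ev_normal (h : IsExt κ μ E) {f : Asg → Ord} (hf : FD μ f) (hi : i < μ)
    (hfi : ∀ᶠ s in h.F, f s < s i) : ∃ j < i, ∀ᶠ s in h.F, f s = s j := by
  obtain ⟨j, hj, h1⟩ := h.normal f hf i hi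
    ((h.ev_iff (FD.map₂ (· < ·) hf (FD.coord hi))).1 hfi)
  exact ⟨j, hj, h.mem_F h1⟩

/-- `s i` represents `i` -/
theorem rep_coord (h : IsExt κ μ E) (hi : i < μ) : Rep h i (fun s => s i) :=
  ⟨FD.coord hi, hi.le, fun _ hj => h.ev_mono hj hi, fun _ hf hlt => h.ev_normal hf hi hlt⟩

/-- `κ`-completeness for a fixed finite set of indices -/
theorem ev_all (h : IsExt κ μ E) (a : Finset Ord) (ha : ∀ i ∈ a, i < μ) {δ : Ord} (hδ : δ < κ)
    (P : Ord → Asg → Prop) (hP : ∀ j < δ, ∀ s t : Asg, (∀ i ∈ a, s i = t i) → (P j s ↔ P j t))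
    (hev : ∀ j < δ, ∀ᶠ s in h.F, P j s) : ∀ᶠ s in h.F, ∀ j < δ, P j s := by
  refine h.mem_F (h.compl a ha δ hδ (fun j => {s | P j s}) fun j hj => ⟨?_, hP j hj⟩)
  exact (h.ev_iff ⟨a, ha, fun s t hst => propext (hP j hj s t hst)⟩).1 (hev j hj)

/-- the seeds below `κ` are the ordinals below `κ` -/
theorem ev_self (h : IsExt κ μ E) (hi : i < κ) : ∀ᶠ s in h.F, s i = i := by
  induction i using WellFoundedLT.induction with
  | ind i ih =>
    have hiμ : i < μ := hi.trans h.lt_len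
    have h1 : ∀ᶠ s in h.F, ∀ j < i, j < s i := by
      refine h.ev_all {i} (by simpa using hiμ) hi (fun j s => j < s i) ?_ fun j hj => ?_
      · intro j _ s t hst
        rw [hst i (by simp)]
      · filter_upwards [ih j hj (hj.trans hi), h.ev_mono hj hiμ] with s h2 h3
        rwa [h2] at h3
    have hfd : FD μ (fun s : Asg => s i = i) := (FD.coord hiμ).map (fun x => x = i)
    refine (h.em hfd).resolve_right fun h2 => ?_
    have h3 : ∀ᶠ s in h.F, i < s i := by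
      filter_upwards [h1, h2] with s h4 h5
      refine lt_of_le_of_ne (le_of_forall_lt h4) (Ne.symm h5)
    obtain ⟨j, hj, h4⟩ := h.ev_normal (FD.const μ i) hiμ h3
    obtain ⟨s, h5, h6⟩ := (h4.and (ih j hj (hj.trans hi))).exists
    exact hj.ne (h6 ▸ h5.symm ▸ h6 ▸ rfl)

theorem lt_kappa_of_lt (h : IsExt κ μ E) : ∀ i < κ, i < μ := fun _ hi => hi.trans h.lt_len

theorem ev_const (h : IsExt κ μ E) {f : Asg → Ord} (hf : FD μ f)
    (hlt : ∀ᶠ s in h.F, f s < s κ) : ∃ α < κ, ∀ᶠ s in h.F, f s = α := by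
  obtain ⟨j, hj, h1⟩ := h.ev_normal hf h.lt_len hlt
  exact ⟨j, hj, (h1.and (h.ev_self hj)).mono fun s hs => hs.1.trans hs.2⟩

theorem ev_lt_kappa (h : IsExt κ μ E) (hi : i < κ) : ∀ᶠ s in h.F, i < s κ :=
  ((h.ev_self hi).and (h.ev_mono hi h.lt_len)).mono fun s hs => by
    have := hs.2; rwa [hs.1] at this

theorem kappa_limit (h : IsExt κ μ E) (hi : i < κ) : i + 1 < κ := by
  by_contra hc
  obtain ⟨s, h1, h2⟩ := ((h.ev_lt h.lt_len).and (h.ev_lt_kappa hi)).exists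
  have h3 : s κ < i + 1 := h1.trans_le (not_lt.1 hc)
  exact absurd (Order.lt_add_one_iff.1 h3) (not_le.2 h2)

theorem omega_lt_kappa (h : IsExt κ μ E) : Ordinal.omega0 < κ := by
  have h0 : ∀ n : ℕ, (n : Ord) < κ := by
    intro n
    induction n with
    | zero =>
      obtain ⟨s, hs⟩ := (h.ev_lt h.lt_len).exists
      exact lt_of_le_of_lt (by simp) hs
    | succ n ih =>
      have := h.kappa_limit ih
      push_cast
      exact this
  have h1 : Ordinal.omega0 ≤ κ := Ordinal.omega0_le.2 fun n => (h0 n).le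
  rcases h1.eq_or_lt with h2 | h2
  · exfalso
    obtain ⟨s, h3, h4⟩ := ((h.ev_lt h.lt_len).and
      (eventually_countable_forall.2 fun n : ℕ => h.ev_lt_kappa (h0 n))).exists
    rw [← h2] at h3 h4
    obtain ⟨n, hn⟩ := Ordinal.lt_omega0.1 h3
    exact absurd (h4 n) (by rw [hn]; exact lt_irrefl _)
  · exact h2

theorem ev_add_one (h : IsExt κ μ E) (hi : i + 1 < μ) : ∀ᶠ s in h.F, s (i + 1) = s i + 1 := by
  have hi' : i < μ := (Order.lt_add_one_iff.2 le_rfl).trans hi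
  have hfd : FD μ (fun s : Asg => s (i + 1) = s i + 1) :=
    FD.map₂ (fun x y => x = y + 1) (FD.coord hi) (FD.coord hi')
  refine (h.em hfd).resolve_right fun h2 => ?_
  have h3 : ∀ᶠ s in h.F, s i + 1 < s (i + 1) := by
    filter_upwards [h2, h.ev_mono (Order.lt_add_one_iff.2 le_rfl) hi] with s h4 h5
    exact lt_of_le_of_ne (Order.add_one_le_iff.2 h5) (Ne.symm h4)
  obtain ⟨j, hj, h4⟩ := h.ev_normal ((FD.coord hi').map (fun x => x + 1)) hi h3
  obtain ⟨s, h5, h6⟩ := (h4.and (h.ev_mono' (Order.lt_add_one_iff.1 hj) hi')).exists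
  rw [← h5] at h6
  exact absurd h6 (not_le.2 (Order.lt_add_one_iff.2 le_rfl))

/-- well-foundedness: there is a function which represents `μ` -/
theorem exists_rep (h : IsExt κ μ E) (hμ : ∀ i < μ, i + 1 < μ) :
    ∃ m : Asg → Ord, Rep h μ m ∧ ∀ᶠ s in h.F, m s ≤ κ := by
  let r : (Asg → Ord) → (Asg → Ord) → Prop := fun f g => ∀ᶠ s in h.F, f s < g s
  have hirr : ∀ f, ¬ r f f := fun f hf => by
    obtain ⟨s, hs⟩ := hf.exists
    exact lt_irrefl _ hs
  have hwf : WellFounded r := by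
    have : IsStrictOrder _ r :=
      { irrefl := hirr
        trans := fun f g k h1 h2 => (h1.and h2).mono fun s hs => hs.1.trans hs.2 }
    rw [RelEmbedding.wellFounded_iff_isEmpty]
    refine ⟨fun u => ?_⟩
    have h1 : ∀ n, ∀ᶠ s in h.F, u (n + 1) s < u n s := fun n =>
      u.map_rel_iff.2 (Nat.lt_succ_self n)
    obtain ⟨s, hs⟩ := (eventually_countable_forall.2 h1).exists
    exact (RelEmbedding.natGT (fun n => u n s) hs).not_wellFounded
      (wellFounded_lt (α := Ord))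
  let S : Set (Asg → Ord) := {f | FD μ f ∧ ∀ i < μ, ∀ᶠ s in h.F, s i < f s}
  have hS : (fun _ => κ) ∈ S := ⟨FD.const μ κ, fun i hi => h.ev_lt hi⟩
  obtain ⟨m, ⟨hm1, hm2⟩, hm3⟩ := hwf.has_min S ⟨_, hS⟩
  refine ⟨m, ⟨hm1, le_rfl, hm2, fun f hf hlt => ?_⟩, ?_⟩
  · have h1 : f ∉ S := fun hf' => hm3 f hf' hlt
    have h2 : ∃ i < μ, ¬ ∀ᶠ s in h.F, s i < f s := by
      by_contra hc
      push Not at hc
      exact h1 ⟨hf, hc⟩
    obtain ⟨i, hi, h3⟩ := h2
    rw [← h.ev_not (FD.map₂ (· < ·) (FD.coord hi) hf)] at h3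
    obtain ⟨j, hj, h4⟩ := h.ev_normal hf (hμ i hi) (by
      filter_upwards [h3, h.ev_mono (Order.lt_add_one_iff.2 le_rfl) (hμ i hi)] with s h5 h6
      exact (not_lt.1 h5).trans_lt h6)
    exact ⟨j, hj.trans (hμ i hi), h4⟩
  · refine (h.em (hm1.map (fun x => x ≤ κ))).resolve_right fun h1 => ?_
    exact hm3 _ hS (h1.mono fun s hs => not_le.1 hs)

theorem ev_choose (h : IsExt κ μ E) [Nonempty β] {P : Asg → β → Prop} (hP : FD μ P)
    (hex : ∀ᶠ s in h.F, ∃ y, P s y) : ∃ f : Asg → β, FD μ f ∧ ∀ᶠ s in h.F, P s (f s) := by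
  obtain ⟨f, h1, h2⟩ := hP.choose
  exact ⟨f, h1, hex.mono fun s hs => h2 s hs⟩

/-- transfer of a bounded existential statement -/
theorem ev_exists_lt (h : IsExt κ μ E) {m : Asg → Ord} (hm : Rep h μ' m)
    {P : Asg → Ord → Prop} (hP : FD μ P) (hex : ∀ᶠ s in h.F, ∃ x < m s, P s x) :
    ∃ i < μ', ∀ᶠ s in h.F, P s (s i) := by
  obtain ⟨f, h1, h2⟩ := h.ev_choose (P := fun s x => x < m s ∧ P s x)
    (FD.map₂ (fun (b : Ord) (Q : Ord → Prop) x => x < b ∧ Q x) hm.fd hP) hex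
  obtain ⟨i, hi, h3⟩ := hm.seed f h1 (h2.mono fun s hs => hs.1)
  exact ⟨i, hi, (h2.and h3).mono fun s hs => by rw [← hs.2]; exact hs.1.2⟩

/-- transfer of a bounded universal statement -/
theorem ev_forall_lt (h : IsExt κ μ E) {m : Asg → Ord} (hm : Rep h μ' m)
    {P : Asg → Ord → Prop} (hP : FD μ P) (hall : ∀ i < μ', ∀ᶠ s in h.F, P s (s i)) :
    ∀ᶠ s in h.F, ∀ x < m s, P s x := by
  by_contra hc
  rw [← h.ev_not (FD.map₂ (fun (b : Ord) (Q : Ord → Prop) => ∀ x < b, Q x) hm.fd hP)] at hc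
  obtain ⟨i, hi, h1⟩ := h.ev_exists_lt hm (P := fun s x => ¬ P s x)
    (hP.map fun (Q : Ord → Prop) x => ¬ Q x) (hc.mono fun s hs => by push Not at hs; exact hs)
  obtain ⟨s, h2, h3⟩ := (h1.and (hall i hi)).exists
  exact h2 h3

end IsExt

end Helper2.EX
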