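import Pool.Agent.Helper2.EX.Power

open Set Cardinal Filter

namespace Helper2.EX

variable {κ μ : Ord} {E : Set (Set Asg)}

/-- a subset of `θ'` is coded by an ordinal below `θ` -/
private theorem exists_code (h : IsWitness κ μ E) {θ θ' : Ord} (hθ : θ < μ) (hθ' : θ' < θ)
    (hev : ∀ᶠ s in h.1.F, ((2 : Cardinal) ^ (s θ').card).ord ≤ s θ) {y : Set Ord}
    (hy : y ⊆ Iio θ') :
    ∃ ζ < θ, ∀ b < θ', (b ∈ y ↔ ∀ᶠ s in h.1.F, s b ∈ en (s θ') (s ζ)) := by
  have hθμ : θ' < μ := hθ'.trans hθ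
  obtain ⟨g, hg, hg'⟩ := h.2 θ' hθμ y hy
  have hP : FD μ (fun s : Asg => fun z : Ord =>
      z < ((2 : Cardinal) ^ (s θ').card).ord ∧ en (s θ') z = g s ∩ Iio (s θ')) :=
    FD.map₂ (fun (a : Ord) (G : Set Ord) (z : Ord) =>
      z < ((2 : Cardinal) ^ a.card).ord ∧ en a z = G ∩ Iio a) (FD.coord hθμ) hg
  obtain ⟨f, hf, hf'⟩ := hP.choose
  have hf1 : ∀ s, f s < ((2 : Cardinal) ^ (s θ').card).ord ∧ en (s θ') (f s) = g s ∩ Iio (s θ') := by
    intro s
    obtain ⟨z, hz1, hz2⟩ := en_surj (α := s θ') (y := g s ∩ Iio (s θ')) inter_subset_right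
    exact hf' s ⟨z, hz1, hz2⟩
  obtain ⟨ζ, hζ, hζ'⟩ := h.1.ev_normal hf hθ (hev.mono fun s hs => (hf1 s).1.trans_le hs)
  refine ⟨ζ, hζ, fun b hb => ?_⟩
  have hbμ : b < μ := hb.trans hθμ
  have hfd : FD μ (fun s : Asg => s b ∈ g s) :=
    FD.map₂ (fun (x : Ord) (G : Set Ord) => x ∈ G) (FD.coord hbμ) hg
  rw [hg' b hbμ, ← h.1.ev_iff hfd]
  have key : ∀ᶠ s in h.1.F, (s b ∈ g s ↔ s b ∈ en (s θ') (s ζ)) := by
    filter_upwards [hζ', h.1.ev_mono hb hθμ] with s h1 h2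
    rw [← h1, (hf1 s).2]
    exact ⟨fun h3 => ⟨h3, h2⟩, fun h3 => h3.1⟩
  constructor
  · intro h1
    filter_upwards [h1, key] with s h2 h3
    exact h3.1 h2
  · intro h1
    filter_upwards [h1, key] with s h2 h3
    exact h3.2 h2

private theorem two_power_le (h : IsWitness κ μ E) {θ θ' : Ord} (hθ : θ < μ) (hθ' : θ' < θ)
    (hev : ∀ᶠ s in h.1.F, ((2 : Cardinal) ^ (s θ').card).ord ≤ s θ) :
    (2 : Cardinal) ^ θ'.card ≤ θ.card := by
  have hc : ∀ y : Set (Iio θ'), ∃ ζ < θ, ∀ b < θ',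
      (b ∈ (Subtype.val '' y : Set Ord) ↔ ∀ᶠ s in h.1.F, s b ∈ en (s θ') (s ζ)) := fun y =>
    exists_code h hθ hθ' hev (by rintro _ ⟨b, -, rfl⟩; exact b.2)
  choose ζ hζ hζ' using hc
  have hinj : Function.Injective (fun y : Set (Iio θ') => (⟨ζ y, hζ y⟩ : Iio θ)) := by
    intro y y' hyy
    have e : ζ y = ζ y' := congrArg Subtype.val hyy
    have h1 : ∀ b < θ', (b ∈ (Subtype.val '' y : Set Ord) ↔ b ∈ (Subtype.val '' y' : Set Ord)) := by
      intro b hb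
      rw [hζ' y b hb, hζ' y' b hb, e]
    ext ⟨b, hb⟩
    have h2 := h1 b hb
    constructor
    · intro h3
      obtain ⟨c, hc, hc'⟩ := h2.1 ⟨⟨b, hb⟩, h3, rfl⟩
      have : c = ⟨b, hb⟩ := Subtype.ext hc'
      rwa [← this]
    · intro h3
      obtain ⟨c, hc, hc'⟩ := h2.2 ⟨⟨b, hb⟩, h3, rfl⟩
      have : c = ⟨b, hb⟩ := Subtype.ext hc'
      rwa [← this]
  have h1 := Cardinal.mk_le_of_injective hinj
  rw [Cardinal.mk_set, Cardinal.mk_Iio_ordinal, Cardinal.mk_Iio_ordinal] at h1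
  have h2 : lift ((2 : Cardinal) ^ θ'.card) ≤ lift θ.card := by
    rw [Cardinal.lift_power]
    simpa using h1
  exact Cardinal.lift_le.1 h2

/-- `|V_η|` is not larger in `V` than in the ultrapower -/
theorem preBeth_le_of_ev (h : IsWitness κ μ E) : ∀ η < μ, ∀ θ < μ,
    (∀ᶠ s in h.1.F, (preBeth (s η)).ord ≤ s θ) → preBeth η ≤ θ.card := by
  intro η
  induction η using WellFoundedLT.induction with
  | ind η ih =>
    intro hη θ hθ hev
    rw [preBeth]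
    refine ciSup_le' fun ⟨η', hη'⟩ => ?_
    have hη' : η' < η := hη'
    show (2 : Cardinal) ^ preBeth η' ≤ θ.card
    have h1 : ∀ᶠ s in h.1.F, ((2 : Cardinal) ^ preBeth (s η')).ord ≤ s θ := by
      filter_upwards [hev, h.1.ev_mono hη' hη] with s h2 h3
      refine le_trans (Cardinal.ord_le_ord.2 ?_) h2
      rw [← preBeth_add_one]
      exact preBeth_mono (Order.add_one_le_iff.2 h3)
    have hfd : FD μ (fun s : Asg => (preBeth (s η')).ord) :=
      (FD.coord (hη'.trans hη)).map (fun x : Ord => (preBeth x).ord)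
    obtain ⟨θ', hθ', h2⟩ := h.1.ev_normal hfd hθ (h1.mono fun s hs =>
      (Cardinal.ord_lt_ord.2 (Cardinal.cantor _)).trans_le hs)
    have h3 : preBeth η' ≤ θ'.card := ih η' hη' (hη'.trans hη) θ' (hθ'.trans hθ)
      (h2.mono fun s hs => hs.le)
    refine (Cardinal.power_le_power_left two_ne_zero h3).trans (two_power_le h hθ hθ' ?_)
    filter_upwards [h1, h2] with s h4 h5
    rwa [← h5, Cardinal.card_ord]

end Helper2.EX
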