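import Pool.Agent.Helper2.EX.Defs

open Set Cardinal Filter

namespace Helper2.EX

noncomputable def step (Φ : Ord → Ord) (x : Ord) : Ord := max (Φ x) (max (preBeth x).ord x) + 1

noncomputable def iter (Φ : Ord → Ord) (x : Ord) (n : ℕ) : Ord := (step Φ)^[n] x

theorem iter_zero (Φ : Ord → Ord) (x : Ord) : iter Φ x 0 = x := rfl

theorem iter_succ (Φ : Ord → Ord) (x : Ord) (n : ℕ) :
    iter Φ x (n + 1) = step Φ (iter Φ x n) := Function.iterate_succ_apply' _ _ _

private theorem RSL.add_one_lt_aux {m : Ord} (hm : RSL m) {x : Ord} (hx : x < m) :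
    x + 1 < m := by
  obtain ⟨η, hη, h⟩ := hm.reg 1 (Ordinal.one_lt_omega0.trans hm.omega) (fun _ => x)
  exact (Order.add_one_le_of_lt (h 0 zero_lt_one hx)).trans_lt hη

theorem RSL.preBeth_lt {m : Ord} (hm : RSL m) : ∀ η < m, (preBeth η).ord < m := by
  intro η
  induction η using WellFoundedLT.induction with
  | ind η IH =>
    intro hη
    obtain ⟨b, hb, hb'⟩ := hm.reg η hη (fun a => ((2 : Cardinal) ^ preBeth a).ord)
    have h1 : ∀ a < η, (2 : Cardinal) ^ preBeth a ≤ b.card := by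
      intro a ha
      have h2 := hm.pow _ (IH a ha (ha.trans hη))
      rw [card_ord] at h2
      exact ord_le.1 (hb' a ha h2).le
    have h3 : preBeth η ≤ b.card := by
      rw [preBeth]
      exact ciSup_le' fun a => h1 a.1 a.2
    exact ((ord_le_ord.2 h3).trans (Cardinal.ord_card_le b)).trans_lt hb

theorem RSL.iter_lt {m : Ord} (hm : RSL m) {Φ : Ord → Ord} (hΦ : ∀ x < m, Φ x < m) {x : Ord}
    (hx : x < m) (n : ℕ) : iter Φ x n < m := by
  induction n with
  | zero => exact hx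
  | succ n ih =>
    rw [iter_succ, step]
    exact hm.add_one_lt_aux (max_lt (hΦ _ ih) (max_lt (hm.preBeth_lt _ ih) ih))

theorem RSL.iSup_iter_lt {m : Ord} (hm : RSL m) {Φ : Ord → Ord} (hΦ : ∀ x < m, Φ x < m) {x : Ord}
    (hx : x < m) : (⨆ n, iter Φ x n) < m := by
  obtain ⟨η, hη, h⟩ := hm.reg Ordinal.omega0 hm.omega
    (fun γ => iter Φ x (Cardinal.toNat γ.card))
  refine lt_of_le_of_lt (ciSup_le' fun n => ?_) hη
  have h1 := h (n : Ord) (Ordinal.natCast_lt_omega0 n)
  simp only [Ordinal.card_nat, Cardinal.toNat_natCast] at h1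
  exact (h1 (hm.iter_lt hΦ hx n)).le

theorem lt_iSup_iter {Φ : Ord → Ord} {x y : Ord} : y < (⨆ n, iter Φ x n) ↔ ∃ n, y < iter Φ x n := by
  exact Ordinal.lt_iSup_iff

theorem rsl_of_inaccessible {m : Ord} (hm : m.card.ord = m) (h : m.card.IsInaccessible) :
    RSL m := by
  refine ⟨?_, fun δ hδ f => ?_, fun η hη => ?_⟩
  · rw [← hm, ← ord_aleph0]
    exact ord_lt_ord.2 h.aleph0_lt
  · set g : Iio δ → Ord := fun γ => if f γ.1 < m then f γ.1 else 0 with hg
    have hm0 : 0 < m := by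
      rw [← hm]
      exact ord_pos.2 h.pos
    have hg1 : ∀ γ, g γ < m := by
      intro γ
      simp only [hg]
      split_ifs with h1
      exacts [h1, hm0]
    have hlt : (⨆ γ, g γ + 1) < m := by
      refine Ordinal.lift_iSup_add_one_lt_of_lt_cof ?_ hg1
      rw [mk_Iio_ordinal, ← Ordinal.lift_cof]
      have h2 : δ.card < m.cof := by
        have h3 : m.card ≤ m.cof := by
          have h4 := h.le_cof_ord
          rwa [hm] at h4
        exact lt_of_lt_of_le (lt_ord.1 (by rwa [hm])) h3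
      rw [Cardinal.lift_id']
      exact Cardinal.lift_lt.2 h2
    refine ⟨_, hlt, fun γ hγ hfγ => ?_⟩
    have h5 : g ⟨γ, hγ⟩ < ⨆ γ, g γ + 1 := Ordinal.lt_iSup_add_one g ⟨γ, hγ⟩
    simpa only [hg, hfγ, if_true] using h5
  · have h1 : η.card < m.card := lt_ord.1 (by rwa [hm])
    have h2 := h.isStrongPrelimit h1
    calc ((2 : Cardinal) ^ η.card).ord < m.card.ord := ord_lt_ord.2 h2
      _ = m := hm

/-- limits of `ω`-sequences with `|V_{x n}| ≤ x (n+1)` -/
theorem isSingFix_of_seq {κ ξ : Ord} (x : ℕ → Ord) (h0 : κ < x 0) (hω : Ordinal.omega0 ≤ κ)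
    (hx : ∀ n, x n < x (n + 1)) (hb : ∀ n, (preBeth (x n)).ord ≤ x (n + 1))
    (hξ : ∀ y, y < ξ ↔ ∃ n, y < x n) :
    IsSingFix κ ξ ∧ (∀ i < ξ, i + 1 < ξ) ∧ ∀ η < ξ, (2 : Cardinal) ^ η.card < ξ.card := by
  have hxm : StrictMono x := strictMono_nat_of_lt_succ hx
  have hlim : ∀ i < ξ, i + 1 < ξ := by
    intro i hi
    obtain ⟨n, hn⟩ := (hξ i).1 hi
    exact (hξ _).2 ⟨n + 1, (Order.add_one_le_of_lt hn).trans_lt (hx n)⟩
  have hxξ : ∀ n, x n < ξ := fun n => (hξ _).2 ⟨n + 1, hx n⟩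
  have hfix : (preBeth ξ).ord = ξ := by
    apply le_antisymm
    · have h1 : preBeth ξ ≤ ξ.card := by
        rw [preBeth]
        refine ciSup_le' fun a => ?_
        obtain ⟨n, hn⟩ := (hξ a.1).1 a.2
        rw [← preBeth_add_one]
        calc preBeth (a.1 + 1) ≤ preBeth (x n) := preBeth_mono (Order.add_one_le_of_lt hn)
          _ ≤ (x (n + 1)).card := ord_le.1 (hb n)
          _ ≤ ξ.card := Ordinal.card_le_card (hxξ _).le
      exact (ord_le_ord.2 h1).trans (Cardinal.ord_card_le ξ)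
    · exact (ord_strictMono.comp preBeth_strictMono).le_apply
  refine ⟨⟨(hξ _).2 ⟨0, h0⟩, ?_, hfix⟩, hlim, fun η hη => ?_⟩
  · have e : ξ = ⨆ n, (x n + 1) := by
      apply le_antisymm
      · refine le_of_forall_lt fun y hy => ?_
        obtain ⟨n, hn⟩ := (hξ y).1 hy
        exact Ordinal.lt_iSup_iff.2 ⟨n, hn.trans (Order.lt_add_one_iff.2 le_rfl)⟩
      · exact ciSup_le' fun n => (hlim _ (hxξ n)).le
    have hc : ξ.cof ≤ ℵ₀ := by
      rw [e]
      exact (Ordinal.cof_iSup_add_one_le x).trans (by simp)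
    calc ξ.cof.ord ≤ (ℵ₀ : Cardinal).ord := ord_le_ord.2 hc
      _ = Ordinal.omega0 := ord_aleph0
      _ ≤ κ := hω
      _ < ξ := (hξ _).2 ⟨0, h0⟩
  · have h1 : (2 : Cardinal) ^ η.card ≤ preBeth (η + 1) := by
      rw [preBeth_add_one]
      exact power_le_power_left two_ne_zero (Ordinal.card_le_preBeth η)
    have h2 : preBeth ξ = ξ.card := by
      rw [← card_ord (preBeth ξ), hfix]
    rw [← h2]
    exact h1.trans_lt (preBeth_strictMono (hlim η hη))

/-- the properties of fixed points -/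
theorem fix_props {μ : Ord} (hω : Ordinal.omega0 < μ) (hμ : (preBeth μ).ord = μ) :
    μ.card.ord = μ ∧ (∀ i < μ, i + 1 < μ) ∧ ∀ η < μ, (2 : Cardinal) ^ η.card < μ.card := by
  have h2 : preBeth μ = μ.card := by
    rw [← card_ord (preBeth μ), hμ]
  have hinf : ℵ₀ ≤ preBeth μ := by
    rw [← preBeth_omega]
    exact preBeth_mono hω.le
  have hlim : ∀ i < μ, i + 1 < μ := by
    intro i hi
    have h3 := isSuccLimit_ord hinf
    rw [hμ] at h3
    exact h3.add_one_lt hi
  refine ⟨by rw [← h2, hμ], hlim, fun η hη => ?_⟩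
  have h1 : (2 : Cardinal) ^ η.card ≤ preBeth (η + 1) := by
    rw [preBeth_add_one]
    exact power_le_power_left two_ne_zero (Ordinal.card_le_preBeth η)
  rw [← h2]
  exact h1.trans_lt (preBeth_strictMono (hlim η hη))

end Helper2.EX
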