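import Pool.Agent.Helper2.EX.Power
import Pool.Agent.Helper2.EX.Iter

open Set Cardinal Filter

namespace Helper2.EX

variable {κ μ ρ : Ord} {F : Set (Set Asg)} {m : Asg → Ord}

/-- for limit `x`, `(preBeth x).ord ≤ y` can be checked below `x` -/
private theorem preBeth_ord_le_of_forall {x y : Ord} (hx : ∀ a < x, a + 1 < x)
    (hy : ∀ a < x, (preBeth a).ord ≤ y) : (preBeth x).ord ≤ y := by
  have h1 : preBeth x ≤ y.card := by
    rw [preBeth]
    refine ciSup_le' fun a => ?_
    rw [← preBeth_add_one]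
    exact ord_le.1 (hy _ (hx a.1 a.2))
  exact (ord_le_ord.2 h1).trans (Cardinal.ord_card_le y)

/-- if `μ'` is a limit, then the function representing it takes limit values -/
private theorem ev_limit (h : IsExt κ ρ F) {μ' : Ord} (hm : Rep h μ' m)
    (hlim : ∀ i < μ', i + 1 < μ') : ∀ᶠ s in h.F, ∀ x < m s, x + 1 < m s := by
  refine h.ev_forall_lt hm (P := fun s x => x + 1 < m s)
    (hm.fd.map fun b x => x + 1 < b) fun i hi => ?_
  filter_upwards [h.ev_add_one ((hlim i hi).trans_le hm.le), hm.lt _ (hlim i hi)] with s h1 h2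
  rwa [h1] at h2

/-- `|V_η|` is not larger in the ultrapower than in `V` -/
theorem exists_preBeth_bound (h : IsExt κ ρ F) (hκ : κ < μ) (hle : μ ≤ ρ)
    (hμ : (preBeth μ).ord = μ) :
    ∀ η < μ, ∃ θ < μ, θ.card ≤ preBeth η ∧ ∀ᶠ s in h.F, (preBeth (s η)).ord ≤ s θ := by
  have hω : Ordinal.omega0 < μ := h.omega_lt_kappa.trans hκ
  obtain ⟨hcard, hlim, hpow⟩ := fix_props hω hμ
  intro η
  induction η using WellFoundedLT.induction with
  | ind η IH =>
    intro hη
    rcases Ordinal.zero_or_succ_or_isSuccLimit η with h0 | ⟨a, ha⟩ | hl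
    · subst h0
      refine ⟨0, hη, by simp, ?_⟩
      have h0κ : (0 : Ord) < κ := Ordinal.omega0_pos.trans h.omega_lt_kappa
      filter_upwards [h.ev_self h0κ] with s hs
      rw [hs]
      simp
    · have ha' : η = a + 1 := by
        rw [← ha, Order.succ_eq_add_one]
      subst ha'
      have haη : a < a + 1 := Order.lt_add_one_iff.2 le_rfl
      obtain ⟨θ, hθ, hθc, hθs⟩ := IH a haη (haη.trans hη)
      obtain ⟨θ', hθ'0, hθc', hθs'⟩ := h.power (hθ.trans_le hle)
        ((hpow θ hθ).trans_le (Ordinal.card_le_card hle))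
      have hθ' : θ' < μ := by
        by_contra hc
        exact absurd (hθc'.trans_lt (hpow θ hθ)) (not_lt.2 (Ordinal.card_le_card (not_lt.1 hc)))
      refine ⟨θ', hθ', ?_, ?_⟩
      · rw [preBeth_add_one]
        exact hθc'.trans (power_le_power_left two_ne_zero hθc)
      · filter_upwards [hθs, hθs', h.ev_add_one (hη.trans_le hle)] with s h1 h2 h3
        rw [h3, preBeth_add_one]
        refine le_trans (ord_le_ord.2 ?_) h2
        exact power_le_power_left two_ne_zero (ord_le.1 h1)
    · have hlη : ∀ a < η, a + 1 < η := fun a ha => hl.add_one_lt ha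
      have hθ : (preBeth η).ord < μ := by
        conv_rhs => rw [← hμ]
        exact ord_lt_ord.2 (preBeth_strictMono hη)
      refine ⟨(preBeth η).ord, hθ, (card_ord _).le, ?_⟩
      have h1 : ∀ᶠ s in h.F, ∀ x < s η, (preBeth x).ord ≤ s (preBeth η).ord := by
        refine h.ev_forall_lt (h.rep_coord (hη.trans_le hle))
          (P := fun s x => (preBeth x).ord ≤ s (preBeth η).ord)
          ((FD.coord (hθ.trans_le hle)).map fun b x => (preBeth x).ord ≤ b) fun a ha => ?_
        obtain ⟨θ, hθ1, hθc, hθs⟩ := IH a ha (ha.trans hη)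
        have h2 : θ < (preBeth η).ord := lt_ord.2 (hθc.trans_lt (preBeth_strictMono ha))
        filter_upwards [hθs, h.ev_mono h2 (hθ.trans_le hle)] with s h3 h4
        exact h3.trans h4.le
      filter_upwards [h1, ev_limit h (h.rep_coord (hη.trans_le hle)) hlη] with s h2 h3
      exact preBeth_ord_le_of_forall h3 h2

theorem ev_preBeth_eq (h : IsExt κ ρ F) (hκ : κ < μ) (hμ : (preBeth μ).ord = μ)
    (hm : Rep h μ m) :
    ∀ᶠ s in h.F, (preBeth (m s)).ord = m s := by
  have hω : Ordinal.omega0 < μ := h.omega_lt_kappa.trans hκ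
  obtain ⟨hcard, hlim, hpow⟩ := fix_props hω hμ
  have h1 : ∀ᶠ s in h.F, ∀ x < m s, (preBeth x).ord ≤ m s := by
    refine h.ev_forall_lt hm (P := fun s x => (preBeth x).ord ≤ m s)
      (hm.fd.map fun b x => (preBeth x).ord ≤ b) fun i hi => ?_
    obtain ⟨θ, hθ, -, hθs⟩ := exists_preBeth_bound h hκ hm.le hμ i hi
    filter_upwards [hθs, hm.lt θ hθ] with s h2 h3
    exact h2.trans h3.le
  filter_upwards [h1, ev_limit h hm hlim] with s h2 h3
  exact le_antisymm (preBeth_ord_le_of_forall h3 h2)
    (ord_strictMono.comp preBeth_strictMono).le_apply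

end Helper2.EX
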