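import Pool.Agent.Helper2.EX.Basic

/-!
# Transfer: moving sets of assignments along `s`
-/

open Set Cardinal Filter

namespace Helper2.EX

variable {β : Type*} {κ μ ρ : Ord} {F G : Set (Set Asg)} {m : Asg → Ord}

/-- the set `X` seen through `s` -/
def push (s : Asg) (X : Set Asg) : Set Asg := {t | (fun i => t (s i)) ∈ X}

theorem mem_push {s t : Asg} {X : Set Asg} : t ∈ push s X ↔ (fun i => t (s i)) ∈ X := Iff.rfl

theorem tr_eq (κ : Ord) (s : Asg) (X : Set Asg) :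
    tr κ s X = {t | (∀ i, t i < s κ) ∧ t ∈ push s X} := rfl

theorem tr_push (κ : Ord) (s t : Asg) (X : Set Asg) :
    tr (s κ) t (push s X) = tr κ (fun i => t (s i)) X := rfl

theorem push_compl (s : Asg) (X : Set Asg) : push s Xᶜ = (push s X)ᶜ := rfl

theorem push_inter (s : Asg) (X Y : Set Asg) : push s (X ∩ Y) = push s X ∩ push s Y := rfl

/-- sets moved along `s`, as a function of `s` -/
theorem FD.comp_push {f : Asg → β} (hf : FD μ f) :
    FD μ (fun (s : Asg) (t : Asg) => f (fun i => t (s i))) := by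
  obtain ⟨a, h1, h2⟩ := hf
  refine ⟨a, h1, fun s s' h => funext fun t => h2 _ _ fun i hi => ?_⟩
  rw [h i hi]

theorem FD.push {X : Set Asg} (hX : FD μ (fun s => s ∈ X)) : FD μ (fun s => push s X) :=
  (FD.comp_push hX).map fun (Q : Asg → Prop) => ({t | Q t} : Set Asg)

/-- for almost all `s`, the moved function depends on finitely many indices below `m s` -/
theorem IsExt.ev_fd_comp (h : IsExt κ ρ F) (hm : Rep h μ m) {f : Asg → β} (hf : FD μ f) :
    ∀ᶠ s in h.F, FD (m s) (fun t : Asg => f (fun i => t (s i))) := by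
  obtain ⟨a, h1, h2⟩ := hf
  have h3 : ∀ᶠ s in h.F, ∀ i ∈ a, s i < m s :=
    (eventually_all_finset a).2 fun i hi => hm.lt i (h1 i hi)
  classical
  refine h3.mono fun s hs => ⟨a.image s, ?_, fun t t' ht => h2 _ _ fun i hi => ?_⟩
  · intro i hi
    obtain ⟨j, hj, rfl⟩ := Finset.mem_image.1 hi
    exact hs j hj
  · exact ht _ (Finset.mem_image_of_mem s hi)

theorem IsExt.ev_fd_push (h : IsExt κ ρ F) (hm : Rep h μ m) {X : Set Asg}
    (hX : FD μ (fun s => s ∈ X)) : ∀ᶠ s in h.F, FD (m s) (fun t => t ∈ EX.push s X) :=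
  h.ev_fd_comp hm hX

/-- only assignments with values below `κ` count -/
theorem IsExt.mem_iff_of_agree (h : IsExt κ μ G) {Y Y' : Set Asg} (hY : FD μ (fun s => s ∈ Y))
    (hY' : FD μ (fun s => s ∈ Y')) (hag : ∀ t : Asg, (∀ i, t i < κ) → (t ∈ Y ↔ t ∈ Y')) :
    Y ∈ G ↔ Y' ∈ G := by
  classical
  obtain ⟨a, ha, hYa⟩ := id hY
  obtain ⟨b, hb, hYb⟩ := id hY'
  have hκ0 : (0 : Ord) < κ := Ordinal.omega0_pos.trans h.omega_lt_kappa
  have h1 : ∀ᶠ t in h.F, ∀ i ∈ a ∪ b, t i < κ :=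
    (eventually_all_finset _).2 fun i hi => h.ev_lt ((Finset.mem_union.1 hi).elim (ha i) (hb i))
  have h2 : ∀ᶠ t in h.F, (t ∈ Y ↔ t ∈ Y') := by
    refine h1.mono fun t ht => ?_
    have ht' : ∀ i, (fun i => if i ∈ a ∪ b then t i else 0 : Asg) i < κ := by
      intro i
      by_cases hi : i ∈ a ∪ b
      · simpa [hi] using ht i hi
      · simpa [hi] using hκ0
    have e1 : (t ∈ Y) = ((fun i => if i ∈ a ∪ b then t i else 0 : Asg) ∈ Y) :=
      hYa _ _ fun i hi => by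
        have : i ∈ a ∪ b := Finset.mem_union_left _ hi
        simp only [this, if_true]
    have e2 : (t ∈ Y') = ((fun i => if i ∈ a ∪ b then t i else 0 : Asg) ∈ Y') :=
      hYb _ _ fun i hi => by
        have : i ∈ a ∪ b := Finset.mem_union_right _ hi
        simp only [this, if_true]
    rw [e1, e2]
    exact hag _ ht'
  rw [← h.mem_F_iff hY, ← h.mem_F_iff hY']
  constructor
  · intro hh
    have hh' : ∀ᶠ t in h.F, t ∈ Y := hh
    exact (hh'.and h2).mono fun t ht => ht.2.1 ht.1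
  · intro hh
    have hh' : ∀ᶠ t in h.F, t ∈ Y' := hh
    exact (hh'.and h2).mono fun t ht => ht.2.2 ht.1

/-- the extender represented by `Gs` -/
def upE {κ ρ : Ord} {F : Set (Set Asg)} (h : IsExt κ ρ F) (μ : Ord) (Gs : Asg → Set (Set Asg)) :
    Set (Set Asg) := {X | FD μ (fun s => s ∈ X) ∧ ∀ᶠ s in h.F, EX.push s X ∈ Gs s}

/-- `G` is represented by `Gs` -/
structure RepExt {κ ρ : Ord} {F : Set (Set Asg)} (h : IsExt κ ρ F) (μ : Ord)
    (G : Set (Set Asg)) (Gs : Asg → Set (Set Asg)) : Prop where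
  fd : FD ρ Gs
  fdG : ∀ X ∈ G, FD μ (fun s => s ∈ X)
  iff : ∀ X : Set Asg, FD μ (fun s => s ∈ X) → (X ∈ G ↔ ∀ᶠ s in h.F, EX.push s X ∈ Gs s)

/-- the family of sets with finite support below `M` whose restriction to assignments with values
below `K` belongs to `HH` -/
def cap (K M : Ord) (HH : Set (Set Asg)) : Set (Set Asg) :=
  {Y | FD M (fun t => t ∈ Y) ∧ {t | (∀ i, t i < K) ∧ t ∈ Y} ∈ HH}

theorem repExt_cap (h : IsExt κ ρ F) (hm : Rep h μ m) (hκ : κ < μ)
    (hG : ∀ X ∈ G, FD μ (fun s => s ∈ X)) {H : Asg → Set (Set Asg)} (hH : FD ρ H)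
    (hiff : ∀ X : Set Asg, FD μ (fun s => s ∈ X) → (X ∈ G ↔ ∀ᶠ s in h.F, tr κ s X ∈ H s)) :
    RepExt h μ G (fun s => cap (s κ) (m s) (H s)) := by
  refine ⟨FD.map₃ cap (FD.coord h.lt_len) hm.fd hH, hG, fun X hX => ?_⟩
  rw [hiff X hX]
  constructor
  · intro h1
    filter_upwards [h1, h.ev_fd_push hm hX] with s h2 h3
    exact ⟨h3, h2⟩
  · intro h1
    exact h1.mono fun s hs => hs.2

end Helper2.EX
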