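import Pool.Agent.Helper2.EX.Power
import Pool.Agent.Helper2.EX.Push

/-!
# Extenders of bounded length belong to the ultrapower
-/

open Set Cardinal Filter

namespace Helper2.EX

variable {κ μ ρ : Ord} {F G : Set (Set Asg)}

/-- the sets with finite support below `M`, restricted to assignments with values below `K` -/
def CC (K M : Ord) : Set (Set Asg) :=
  {Y | ∃ Z : Set Asg, FD M (fun t => t ∈ Z) ∧ Y = {t | (∀ i, t i < K) ∧ t ∈ Z}}

/-- the assignments with finite support below `M` and values below `K` -/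
private def DD (K M : Ord) : Set Asg :=
  {t | (∀ i, t i < K) ∧ ∃ a : Finset Ord, (∀ i ∈ a, i < M) ∧ ∀ i ∉ a, t i = 0}

private theorem CC_inj (K M : Ord) : InjOn (fun Y : Set Asg => {t : DD K M | t.1 ∈ Y})
    (CC K M) := by
  classical
  rintro Y ⟨Z, ⟨a, ha, hZ⟩, rfl⟩ Y' ⟨Z', ⟨a', ha', hZ'⟩, rfl⟩ h
  ext t
  simp only [mem_ofPred_eq]
  refine and_congr_right fun ht => ?_
  set t' : Asg := fun i => if i ∈ a ∪ a' then t i else 0 with ht'
  have hK : (0 : Ord) < K := (bot_le : (⊥ : Ord) ≤ t 0).trans_lt (ht 0)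
  have hlt : ∀ i, t' i < K := by
    intro i
    rw [ht']
    dsimp only
    split_ifs
    exacts [ht i, hK]
  have hD : t' ∈ DD K M := by
    refine ⟨hlt, a ∪ a', fun i hi => ?_, fun i hi => ?_⟩
    · rcases Finset.mem_union.1 hi with hi | hi
      exacts [ha i hi, ha' i hi]
    · rw [ht']; simp only [hi, if_false]
  have h1 := Set.ext_iff.1 h ⟨t', hD⟩
  simp only [mem_ofPred_eq, hlt, implies_true, true_and] at h1
  have e1 : (t ∈ Z) = (t' ∈ Z) := hZ t t' fun i hi => by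
    rw [ht']; simp only [Finset.mem_union, hi, true_or, if_true]
  have e2 : (t ∈ Z') = (t' ∈ Z') := hZ' t t' fun i hi => by
    rw [ht']; simp only [Finset.mem_union, hi, or_true, if_true]
  rw [e1, e2]
  exact h1

private theorem card_DD {K M : Ord} (hM : Ordinal.omega0 ≤ M) (hK : K ≤ M) :
    #(DD K M) ≤ lift.{1} M.card := by
  classical
  have hMi : ℵ₀ ≤ #(Iio M) := by
    rw [Cardinal.mk_Iio_ordinal, ← lift_aleph0.{1, 0}, Cardinal.lift_le]
    rw [← Ordinal.card_omega0]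
    exact Ordinal.card_le_card hM
  have : Infinite (Iio M) := Cardinal.infinite_iff.2 hMi
  have h1 : #(Finset (Iio M × Iio M)) = lift.{1} M.card := by
    rw [Cardinal.mk_finset_of_infinite, mk_prod, Cardinal.lift_id, Cardinal.mul_eq_self hMi,
      Cardinal.mk_Iio_ordinal]
  rw [← h1]
  let p : ∀ t : DD K M, {x // x ∈ t.2.2.choose} → Iio M × Iio M := fun t i =>
    ((⟨i.1, mem_Iio.2 (t.2.2.choose_spec.1 i.1 i.2)⟩ : Iio M),
      (⟨t.1 i.1, mem_Iio.2 ((t.2.1 i.1).trans_le hK)⟩ : Iio M))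
  let f : DD K M → Finset (Iio M × Iio M) := fun t => (t.2.2.choose.attach).image (p t)
  have key : ∀ t t' : DD K M, f t ⊆ f t' → ∀ i, t.1 i ≠ 0 → t.1 i = t'.1 i := by
    intro t t' hs i hi
    have hia : i ∈ t.2.2.choose := by
      by_contra hc
      exact hi (t.2.2.choose_spec.2 i hc)
    have hm : p t ⟨i, hia⟩ ∈ f t := Finset.mem_image.2 ⟨⟨i, hia⟩, Finset.mem_attach _ _, rfl⟩
    obtain ⟨j, _, hj⟩ := Finset.mem_image.1 (hs hm)
    have e1 : j.1 = i := congrArg (fun p : Iio M × Iio M => p.1.1) hj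
    have e2 : t'.1 j.1 = t.1 i := congrArg (fun p : Iio M × Iio M => p.2.1) hj
    rw [← e2, e1]
  refine mk_le_of_injective (f := f) fun t t' h => Subtype.ext (funext fun i => ?_)
  by_cases hi : t.1 i = 0
  · by_cases hi' : t'.1 i = 0
    · rw [hi, hi']
    · exact (key t' t h.ge i hi').symm
  · exact key t t' h.le i hi

theorem exists_cd (K M : Ord) : ∃ c : Set Asg → Ord, Ordinal.omega0 ≤ M → K ≤ M →
    (∀ Y ∈ CC K M, c Y < ((2 : Cardinal) ^ M.card).ord) ∧ InjOn c (CC K M) := by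
  classical
  by_cases hM : Ordinal.omega0 ≤ M
  swap
  · exact ⟨fun _ => 0, fun h => absurd h hM⟩
  by_cases hK : K ≤ M
  swap
  · exact ⟨fun _ => 0, fun _ h => absurd h hK⟩
  have h1 : #(CC K M) ≤ #(Iio ((2 : Cardinal) ^ M.card).ord) := by
    have h2 : #(CC K M) ≤ #(Set (DD K M)) :=
      mk_le_of_injective (f := fun Y : CC K M => {t : DD K M | t.1 ∈ Y.1})
        fun Y Y' h => Subtype.ext (CC_inj K M Y.2 Y'.2 h)
    refine h2.trans ?_
    rw [mk_set, Cardinal.mk_Iio_ordinal, card_ord, lift_power, lift_two]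
    exact Cardinal.power_le_power_left two_ne_zero (card_DD hM hK)
  obtain ⟨e⟩ := Cardinal.le_def _ _ |>.1 h1
  refine ⟨fun Y => if h : Y ∈ CC K M then (e ⟨Y, h⟩).1 else 0, fun _ _ => ⟨fun Y hY => ?_,
    fun Y hY Y' hY' h => ?_⟩⟩
  · simp only [hY, dif_pos]
    exact (e ⟨Y, hY⟩).2
  · simp only [dif_pos hY, dif_pos hY'] at h
    exact congrArg Subtype.val (e.injective (Subtype.ext h))

/-- the code of a set -/
noncomputable def cd (K M : Ord) : Set Asg → Ord := (exists_cd K M).choose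

theorem cd_lt {K M : Ord} (hM : Ordinal.omega0 ≤ M) (hK : K ≤ M) {Y : Set Asg}
    (hY : Y ∈ CC K M) : cd K M Y < ((2 : Cardinal) ^ M.card).ord :=
  ((exists_cd K M).choose_spec hM hK).1 Y hY

theorem cd_inj {K M : Ord} (hM : Ordinal.omega0 ≤ M) (hK : K ≤ M) : InjOn (cd K M) (CC K M) :=
  ((exists_cd K M).choose_spec hM hK).2

/-- if the sets seen through almost all `s` agree, then the sets agree on assignments with
values below `κ` -/
private theorem agree_of_tr (h : IsExt κ ρ F) (hμ : μ < ρ) {X X' : Set Asg}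
    (hX : FD μ (fun s => s ∈ X)) (hX' : FD μ (fun s => s ∈ X'))
    (hev : ∀ᶠ s in h.F, tr κ s X = tr κ s X') (u : Asg) (hu : ∀ i, u i < κ) :
    u ∈ X ↔ u ∈ X' := by
  classical
  obtain ⟨a, ha, hXa⟩ := hX
  obtain ⟨a', ha', hXa'⟩ := hX'
  set b : Finset Ord := a ∪ a' with hb
  have hbμ : ∀ i ∈ b, i < ρ := fun i hi => by
    rcases Finset.mem_union.1 hi with hi | hi
    exacts [(ha i hi).trans hμ, (ha' i hi).trans hμ]
  have h1 : ∀ᶠ s in h.F, ∀ i ∈ b, ∀ j ∈ b, i < j → s i < s j :=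
    (eventually_all_finset b).2 fun i _ => (eventually_all_finset b).2 fun j hj => by
      by_cases hij : i < j
      · exact (h.ev_mono hij (hbμ j hj)).mono fun s hs _ => hs
      · exact Eventually.of_forall fun s hs => absurd hs hij
  have h2 : ∀ᶠ s in h.F, ∀ i ∈ b, u i < s κ :=
    (eventually_all_finset b).2 fun i _ => h.ev_lt_kappa (hu i)
  have h3 : ∀ᶠ s in h.F, (0 : Ord) < s κ :=
    h.ev_lt_kappa ((bot_le : (⊥ : Ord) ≤ u 0).trans_lt (hu 0))
  obtain ⟨s, h4, h5, h6, h7⟩ := (hev.and (h1.and (h2.and h3))).exists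
  have hinj : ∀ i ∈ b, ∀ j ∈ b, s i = s j → i = j := by
    intro i hi j hj hij
    rcases lt_trichotomy i j with hlt | heq | hlt
    · exact absurd hij (h5 i hi j hj hlt).ne
    · exact heq
    · exact absurd hij.symm (h5 j hj i hi hlt).ne
  set t : Asg := fun j => if hj : ∃ i ∈ b, s i = j then u hj.choose else 0 with ht
  have ht1 : ∀ j, t j < s κ := by
    intro j
    rw [ht]
    dsimp only
    split_ifs with hj
    · exact h6 _ hj.choose_spec.1
    · exact h7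
  have ht2 : ∀ i ∈ b, t (s i) = u i := by
    intro i hi
    have hj : ∃ i' ∈ b, s i' = s i := ⟨i, hi, rfl⟩
    rw [ht]
    dsimp only
    rw [dif_pos hj, hinj _ hj.choose_spec.1 i hi hj.choose_spec.2]
  have e1 : ((fun i => t (s i)) ∈ X) = (u ∈ X) :=
    hXa _ _ fun i hi => ht2 i (Finset.mem_union_left _ hi)
  have e2 : ((fun i => t (s i)) ∈ X') = (u ∈ X') :=
    hXa' _ _ fun i hi => ht2 i (Finset.mem_union_right _ hi)
  have h8 : t ∈ tr κ s X ↔ t ∈ tr κ s X' := by rw [h4]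
  simp only [tr, mem_ofPred_eq, ht1, implies_true, true_and] at h8
  rw [e1, e2] at h8
  exact h8

/-- an extender of length `μ < ρ` belongs to `Ult(V, F)`, if `κ` is `ρ`-strong by `F` -/
theorem exists_repr (h : IsWitness κ ρ F) (hρ : (2 : Cardinal) ^ μ.card < ρ.card) (hμ : μ < ρ)
    (hκ : κ < μ) (hG : IsExt κ μ G) : ∃ H : Asg → Set (Set Asg), FD ρ H ∧
      ∀ X : Set Asg, FD μ (fun s => s ∈ X) → (X ∈ G ↔ ∀ᶠ s in h.1.F, tr κ s X ∈ H s) := by
  have h1 := h.1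
  obtain ⟨θ, hθ, -, hθ2⟩ := h1.power hμ hρ
  have hκρ : κ < ρ := hκ.trans hμ
  -- side conditions
  have hω : ∀ᶠ s in h.1.F, Ordinal.omega0 ≤ s μ := by
    filter_upwards [h1.ev_lt_kappa h1.omega_lt_kappa, h1.ev_mono hκ hμ] with s h2 h3
    exact (h2.trans h3).le
  have hκμ : ∀ᶠ s in h.1.F, s κ ≤ s μ := h1.ev_mono' hκ.le hμ
  have hCC : ∀ X : Set Asg, FD μ (fun s => s ∈ X) →
      ∀ᶠ s in h.1.F, tr κ s X ∈ CC (s κ) (s μ) := by
    intro X hX
    filter_upwards [h1.ev_fd_push (h1.rep_coord hμ) hX] with s hs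
    exact ⟨push s X, hs, tr_eq κ s X⟩
  have hfd : ∀ X : Set Asg, FD μ (fun s => s ∈ X) →
      FD ρ (fun s => cd (s κ) (s μ) (tr κ s X)) := fun X hX =>
    FD.map₃ (fun a b Y => cd a b Y) (FD.coord hκρ) (FD.coord hμ) (FD.tr hκρ (hX.mono hμ.le))
  have hseed : ∀ X : Set Asg, FD μ (fun s => s ∈ X) →
      ∃ j < θ, ∀ᶠ s in h.1.F, cd (s κ) (s μ) (tr κ s X) = s j := by
    intro X hX
    refine h1.ev_normal (hfd X hX) hθ ?_
    filter_upwards [hω, hκμ, hCC X hX, hθ2] with s h2 h3 h4 h5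
    exact (cd_lt h2 h3 h4).trans_le h5
  set x : Set Ord := {j | j < θ ∧ ∃ X ∈ G, ∀ᶠ s in h.1.F, cd (s κ) (s μ) (tr κ s X) = s j} with hx
  obtain ⟨g, hg, hgx⟩ := h.2 θ hθ x fun j hj => hj.1
  have hgx' : ∀ i < ρ, (i ∈ x ↔ ∀ᶠ s in h.1.F, s i ∈ g s) := fun i hi => by
    rw [hgx i hi]
    exact (h1.ev_iff (FD.map₂ (fun (a : Ord) (S : Set Ord) => a ∈ S) (FD.coord hi) hg)).symm
  refine ⟨fun s => {Y | Y ∈ CC (s κ) (s μ) ∧ cd (s κ) (s μ) Y ∈ g s},
    FD.map₃ (fun a b S => {Y | Y ∈ CC a b ∧ cd a b Y ∈ S}) (FD.coord hκρ) (FD.coord hμ) hg,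
    fun X hX => ⟨fun hXG => ?_, fun hev => ?_⟩⟩
  · obtain ⟨j, hj, h2⟩ := hseed X hX
    have h3 : j ∈ x := ⟨hj, X, hXG, h2⟩
    filter_upwards [h2, (hgx' j (hj.trans hθ)).1 h3, hCC X hX] with s h4 h5 h6
    exact ⟨h6, by rw [h4]; exact h5⟩
  · obtain ⟨j, hj, h2⟩ := hseed X hX
    have h3 : j ∈ x := by
      rw [hgx' j (hj.trans hθ)]
      filter_upwards [h2, hev] with s h4 h5
      rw [← h4]
      exact h5.2
    obtain ⟨-, X', hX'G, h4⟩ := h3
    have hX' : FD μ (fun s => s ∈ X') := hG.fd X' hX'G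
    have h5 : ∀ᶠ s in h1.F, tr κ s X = tr κ s X' := by
      filter_upwards [h2, h4, hCC X hX, hCC X' hX', hω, hκμ] with s h6 h7 h8 h9 h10 h11
      exact cd_inj h10 h11 h8 h9 (h6.trans h7.symm)
    exact (hG.mem_iff_of_agree hX hX' fun u hu => agree_of_tr h1 hμ hX hX' h5 u hu).2 hX'G

end Helper2.EX
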