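import Pool.Agent.Helper2.EX.Power

open Set Cardinal Filter

namespace Helper2.EX

variable {κ μ ξ : Ord} {E : Set (Set Asg)}

theorem IsExt.restr (h : IsExt κ μ E) (h1 : κ < ξ) (h2 : ξ ≤ μ) : IsExt κ ξ (restr ξ E) := by
  refine ⟨h1, fun X hX => hX.2, fun X hX => ?_, fun X Y hX hXY hY => ?_,
    fun a ha δ hδ X hX => ?_, fun i hi => ?_, fun i j hij hj => ?_, fun f hf i hi hfi => ?_,
    fun X hX => h.cc X fun n => (hX n).1⟩
  · have hX' : FD ξ (fun s => s ∈ Xᶜ) := hX.map Not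
    constructor
    · intro h3 h4
      exact (h.ultra X (hX.mono h2)).1 h3.1 h4.1
    · intro h3
      exact ⟨(h.ultra X (hX.mono h2)).2 fun h4 => h3 ⟨h4, hX'⟩, hX⟩
  · exact ⟨h.up X Y hX.1 hXY (hY.mono h2), hY⟩
  · refine ⟨h.compl a (fun i hi => (ha i hi).trans_le h2) δ hδ X
      (fun j hj => ⟨(hX j hj).1.1, (hX j hj).2⟩), a, ha, fun s t hst => ?_⟩
    refine propext ⟨fun h3 j hj => ?_, fun h3 j hj => ?_⟩
    · exact ((hX j hj).2 s t hst).1 (h3 j hj)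
    · exact ((hX j hj).2 s t hst).2 (h3 j hj)
  · exact ⟨h.lt i (hi.trans_le h2), (FD.coord hi).map (fun x => x < κ)⟩
  · exact ⟨h.mono i j hij (hj.trans_le h2),
      FD.map₂ (fun x y => x < y) (FD.coord (hij.trans hj)) (FD.coord hj)⟩
  · obtain ⟨j, hj, h3⟩ := h.normal f (hf.mono h2) i (hi.trans_le h2) hfi.1
    exact ⟨j, hj, h3, FD.map₂ (fun x y => x = y) hf (FD.coord (hj.trans hi))⟩

/-- the order of the ultrapower is well founded -/
private theorem wf_ev (h : IsExt κ μ E) :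
    WellFounded (fun f g : Asg → Ord => ∀ᶠ s in h.F, f s < g s) := by
  let r : (Asg → Ord) → (Asg → Ord) → Prop := fun f g => ∀ᶠ s in h.F, f s < g s
  have hirr : ∀ f, ¬ r f f := fun f hf => by
    obtain ⟨s, hs⟩ := hf.exists
    exact lt_irrefl _ hs
  have : IsStrictOrder _ r :=
    { irrefl := hirr
      trans := fun f g k h1 h2 => (h1.and h2).mono fun s hs => hs.1.trans hs.2 }
  show WellFounded r
  rw [RelEmbedding.wellFounded_iff_isEmpty]
  refine ⟨fun u => ?_⟩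
  have h1 : ∀ n, ∀ᶠ s in h.F, u (n + 1) s < u n s := fun n =>
    u.map_rel_iff.2 (Nat.lt_succ_self n)
  obtain ⟨s, hs⟩ := (eventually_countable_forall.2 h1).exists
  exact (RelEmbedding.natGT (fun n => u n s) hs).not_wellFounded
    (wellFounded_lt (α := Ord))

/-- a cofinal function with a side condition -/
private theorem key (h : IsExt κ μ E) (h2 : ξ < μ) (hc : HullClosed h ξ) {δ : Ord} (hδ : δ < ξ)
    {h0 : Asg → Ord → Ord} (hh : FD ξ h0) {C : Asg → Ord → Prop} (hC : FD ξ C)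
    (hcof : ∀ η < ξ, ∃ γ < δ, ∃ ζ, η ≤ ζ ∧ ζ < ξ ∧ ∀ᶠ s in h.F, h0 s (s γ) = s ζ)
    (hlow : ∀ γ < δ, ∀ᶠ s in h.F, C s (h0 s (s γ)) → h0 s (s γ) < s ξ)
    (hup : ∀ ζ < ξ, ∀ᶠ s in h.F, C s (s ζ)) : False := by
  have hδμ : δ < μ := hδ.trans h2
  have hall : ∀ᶠ s in h.F, ∀ x < s δ, C s (h0 s x) → h0 s x < s ξ := by
    refine h.ev_forall_lt (h.rep_coord hδμ) (P := fun s x => C s (h0 s x) → h0 s x < s ξ) ?_ hlow
    exact FD.map₃ (fun (D : Ord → Prop) (k : Ord → Ord) (b : Ord) (x : Ord) => D (k x) → k x < b)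
      (hC.mono h2.le) (hh.mono h2.le) (FD.coord h2)
  set f : Asg → Ord := fun s => sInf {y | ∀ x < s δ, C s (h0 s x) → h0 s x < y} with hf
  have hfd : FD ξ f := FD.map₃ (fun (D : Ord → Prop) (k : Ord → Ord) (b : Ord) =>
    sInf {y | ∀ x < b, D (k x) → k x < y}) hC hh (FD.coord hδ)
  have hle : ∀ᶠ s in h.F, f s ≤ s ξ := hall.mono fun s hs => csInf_le' hs
  have hmem : ∀ᶠ s in h.F, ∀ x < s δ, C s (h0 s x) → h0 s x < f s := by
    filter_upwards [hall] with s hs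
    exact csInf_mem (s := {y | ∀ x < s δ, C s (h0 s x) → h0 s x < y}) ⟨s ξ, hs⟩
  have hlt : ¬ ∀ᶠ s in h.F, f s < s ξ := by
    intro h3
    obtain ⟨ζ', hζ', h4⟩ := h.ev_normal (hfd.mono h2.le) h2 h3
    obtain ⟨γ, hγ, ζ, h5, h6, h7⟩ := hcof ζ' hζ'
    obtain ⟨s, h8, h9, h10, h11, h12, h13⟩ := (h4.and (h7.and (hmem.and ((hup ζ h6).and
      ((h.ev_mono hγ hδμ).and (h.ev_mono' h5 (h6.trans h2))))))).exists
    have h14 := h10 (s γ) h12 (by rw [h9]; exact h11)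
    rw [h9, h8] at h14
    exact absurd h14 (not_lt.2 h13)
  rw [← h.ev_not (FD.map₂ (fun x y => x < y) (hfd.mono h2.le) (FD.coord h2))] at hlt
  exact lt_irrefl _ (hc f hfd ξ h2 ((hle.and hlt).mono fun s hs =>
    le_antisymm hs.1 (not_lt.1 hs.2)))

/-- at a closure point the restriction is not good -/
theorem not_singIn_restr (h : IsExt κ μ E) (h1 : κ < ξ) (h2 : ξ + 1 < μ)
    (hl : ∀ i < ξ, i + 1 < ξ) (hc : HullClosed h ξ) : ¬ SingIn ξ (restr ξ E) := by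
  rintro ⟨δ, hδ, h0, hh, hcof'⟩
  have h2' : ξ < μ := (Order.lt_add_one_iff.2 le_rfl).trans h2
  have hcof : ∀ η < ξ, ∃ γ < δ, ∃ ζ, η ≤ ζ ∧ ζ < ξ ∧ ∀ᶠ s in h.F, h0 s (s γ) = s ζ := by
    intro η hη
    obtain ⟨γ, hγ, ζ, h3, h4, h5⟩ := hcof' η hη
    exact ⟨γ, hγ, ζ, h3, h4, h.mem_F h5.1⟩
  have hval : ∀ γ < δ, FD μ (fun s : Asg => h0 s (s γ)) := fun γ hγ =>
    FD.map₂ (fun (k : Ord → Ord) (x : Ord) => k x) (hh.mono h2'.le)
      (FD.coord ((hγ.trans hδ).trans h2'))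
  by_cases hA : ∀ γ < δ, ∀ᶠ s in h.F, h0 s (s γ) < s ξ
  · exact key h h2' hc hδ hh (C := fun _ _ => True) (FD.const ξ _) hcof
      (fun γ hγ => (hA γ hγ).mono fun s hs _ => hs)
      (fun ζ _ => Eventually.of_forall fun _ => trivial)
  · simp only [not_forall] at hA
    obtain ⟨γ0, hγ0, hγ0'⟩ := hA
    have hγ0'' : ∀ᶠ s in h.F, s ξ ≤ h0 s (s γ0) := by
      rw [← h.ev_not (FD.map₂ (fun x y => x < y) (hval γ0 hγ0) (FD.coord h2'))] at hγ0'
      exact hγ0'.mono fun s hs => not_lt.1 hs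
    obtain ⟨c, ⟨γ1, hγ1, rfl, hγ1'⟩, hmin⟩ := (wf_ev h).has_min
      {f : Asg → Ord | ∃ γ < δ, f = (fun s => h0 s (s γ)) ∧ ∀ᶠ s in h.F, s ξ ≤ f s}
      ⟨_, γ0, hγ0, rfl, hγ0''⟩
    refine key h h2' hc hδ hh (C := fun s y => y < h0 s (s γ1))
      (FD.map₂ (fun (k : Ord → Ord) (x y : Ord) => y < k x) hh (FD.coord (hγ1.trans hδ))) hcof
      (fun γ hγ => ?_) (fun ζ hζ => ?_)
    · rcases h.em (P := fun s => h0 s (s γ) < s ξ)
        (FD.map₂ (fun x y => x < y) (hval γ hγ) (FD.coord h2')) with h3 | h3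
      · exact h3.mono fun s hs _ => hs
      · have h4 : ∀ᶠ s in h.F, s ξ ≤ h0 s (s γ) := h3.mono fun s hs => not_lt.1 hs
        have h5 : ¬ ∀ᶠ s in h.F, h0 s (s γ) < h0 s (s γ1) := hmin _ ⟨γ, hγ, rfl, h4⟩
        rw [← h.ev_not (FD.map₂ (fun x y => x < y) (hval γ hγ) (hval γ1 hγ1))] at h5
        exact h5.mono fun s hs h6 => absurd h6 hs
    · filter_upwards [h.ev_mono hζ h2', hγ1'] with s h3 h4
      exact h3.trans_le h4

/-- the restriction of a witness to a strong limit is a witness -/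
theorem IsWitness.restr (h : IsWitness κ μ E) (h1 : κ < ξ) (h2 : ξ < μ)
    (hξ : ∀ η < ξ, (2 : Cardinal) ^ η.card < ξ.card) : IsWitness κ ξ (restr ξ E) := by
  have hE := h.1
  refine ⟨hE.restr h1 h2.le, fun η hη x hx => ?_⟩
  have hημ : η < μ := hη.trans h2
  obtain ⟨g, hg, hgx⟩ := h.2 η hημ x hx
  obtain ⟨z, hz, hz'⟩ := hE.ev_choose
    (P := fun s z => z < ((2 : Cardinal) ^ (s η).card).ord ∧ en (s η) z = g s ∩ Iio (s η))
    (FD.map₂ (fun (A : Set Ord) (b : Ord) (z : Ord) =>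
      z < ((2 : Cardinal) ^ b.card).ord ∧ en b z = A ∩ Iio b) hg (FD.coord hημ))
    (Eventually.of_forall fun s => en_surj inter_subset_right)
  obtain ⟨θ, hθ, hθc, hθ'⟩ := hE.power hημ ((hξ η hη).trans_le (Ordinal.card_le_card h2.le))
  have hθξ : θ < ξ := by
    by_contra hcon
    exact absurd ((Ordinal.card_le_card (not_lt.1 hcon)).trans hθc) (not_le.2 (hξ η hη))
  obtain ⟨ζ, hζ, hζ'⟩ := hE.ev_normal hz hθ (by
    filter_upwards [hz', hθ'] with s h3 h4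
    exact h3.1.trans_le h4)
  have hζξ : ζ < ξ := hζ.trans hθξ
  refine ⟨fun s => en (s η) (s ζ), FD.map₂ (fun a b => en a b) (FD.coord hη) (FD.coord hζξ),
    fun i hi => ?_⟩
  have hfd : FD ξ (fun s : Asg => s i ∈ en (s η) (s ζ)) :=
    FD.map₃ (fun (a b c : Ord) => c ∈ en a b) (FD.coord hη) (FD.coord hζξ) (FD.coord hi)
  have hiμ : i < μ := hi.trans h2
  have e1 : {s : Asg | s i ∈ en (s η) (s ζ)} ∈ EX.restr ξ E ↔
      ∀ᶠ s in hE.F, s i ∈ en (s η) (s ζ) := by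
    rw [hE.ev_iff (hfd.mono h2.le)]
    exact ⟨fun h3 => h3.1, fun h3 => ⟨h3, hfd⟩⟩
  rw [e1]
  by_cases hiη : i < η
  · rw [hgx i hiμ, ← hE.ev_iff (FD.map₂ (fun (a : Ord) (A : Set Ord) => a ∈ A)
      (FD.coord hiμ) hg)]
    constructor
    · intro h3
      filter_upwards [h3, hz', hζ', hE.ev_mono hiη hημ] with s h4 h5 h6 h7
      rw [← h6, h5.2]
      exact ⟨h4, h7⟩
    · intro h3
      filter_upwards [h3, hz', hζ'] with s h4 h5 h6
      rw [← h6, h5.2] at h4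
      exact h4.1
  · constructor
    · intro h3
      exact absurd (hx h3) hiη
    · intro h3
      obtain ⟨s, h4, h5⟩ := (h3.and (hE.ev_mono' (not_lt.1 hiη) hiμ)).exists
      exact absurd (en_sub _ _ h4) (not_lt.2 h5)

end Helper2.EX
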