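import Pool.Agent.Helper2.EX.Lift

open Set Cardinal Filter

namespace Helper2.EX

variable {κ μ ρ : Ord} {F G : Set (Set Asg)} {m : Asg → Ord}

theorem IsExt.up' (h : IsExt κ ρ F) (hm : Rep h μ m) (hκ : κ < μ) {Gs : Asg → Set (Set Asg)}
    (hfd : FD ρ Gs) (hGs : ∀ᶠ s in h.F, IsExt (s κ) (m s) (Gs s)) :
    IsExt κ μ (upE h μ Gs) := by
  classical
  have hmem : ∀ {X : Set Asg}, FD μ (fun s => s ∈ X) →
      FD ρ (fun s => push s X ∈ Gs s) := fun {X} hX =>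
    FD.map₂ (fun (A : Set Asg) (B : Set (Set Asg)) => A ∈ B) ((FD.push hX).mono hm.le) hfd
  refine
    { lt_len := hκ
      fd := fun X hX => hX.1
      ultra := ?_
      up := ?_
      compl := ?_
      lt := ?_
      mono := ?_
      normal := ?_
      cc := ?_ }
  · intro X hX
    have hXc : FD μ (fun s => s ∈ Xᶜ) := hX.map Not
    have e1 : X ∈ upE h μ Gs ↔ ∀ᶠ s in h.F, push s X ∈ Gs s :=
      ⟨fun h1 => h1.2, fun h1 => ⟨hX, h1⟩⟩
    have e2 : Xᶜ ∈ upE h μ Gs ↔ ∀ᶠ s in h.F, push s Xᶜ ∈ Gs s :=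
      ⟨fun h1 => h1.2, fun h1 => ⟨hXc, h1⟩⟩
    rw [e1, e2, ← h.ev_not (hmem hXc)]
    refine eventually_congr ?_
    filter_upwards [hGs, h.ev_fd_push hm hX] with s h1 h2
    rw [push_compl]
    exact h1.ultra _ h2
  · intro X Y hX hXY hY
    refine ⟨hY, ?_⟩
    filter_upwards [hGs, hX.2, h.ev_fd_push hm hY] with s h1 h2 h3
    exact h1.up _ _ h2 (fun t ht => hXY ht) h3
  · intro a ha δ hδ X hX
    refine ⟨⟨a, ha, fun s t hst => propext ?_⟩, ?_⟩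
    · exact forall₂_congr fun j hj => (hX j hj).2 s t hst
    · obtain ⟨c, hc1, hc2⟩ := hfd
      have h1 : ∀ᶠ s in h.F, ∀ j < δ, push s (X j) ∈ Gs s := by
        refine h.ev_all (a ∪ c) ?_ hδ (fun j s => push s (X j) ∈ Gs s) ?_
          fun j hj => (hX j hj).1.2
        · intro i hi
          rcases Finset.mem_union.1 hi with hi | hi
          exacts [(ha i hi).trans_le hm.le, hc1 i hi]
        · intro j hj s t hst
          have e1 : push s (X j) = push t (X j) := by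
            ext u
            refine (hX j hj).2 _ _ fun i hi => ?_
            rw [hst i (Finset.mem_union_left _ hi)]
          have e2 : Gs s = Gs t := hc2 s t fun i hi => hst i (Finset.mem_union_right _ hi)
          rw [e1, e2]
      have h2 : ∀ᶠ s in h.F, ∀ i ∈ a, s i < m s :=
        (eventually_all_finset a).2 fun i hi => hm.lt i (ha i hi)
      filter_upwards [hGs, h1, h2, h.ev_lt_kappa hδ] with s h3 h4 h5 h6
      refine h3.compl (a.image s) ?_ δ h6 (fun j => push s (X j)) fun j hj => ⟨h4 j hj, ?_⟩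
      · intro i hi
        obtain ⟨j, hj, rfl⟩ := Finset.mem_image.1 hi
        exact h5 j hj
      · intro t t' htt
        exact (hX j hj).2 _ _ fun i hi => htt _ (Finset.mem_image_of_mem s hi)
  · intro i hi
    refine ⟨(FD.coord hi).map (fun x => x < κ), ?_⟩
    filter_upwards [hGs, hm.lt i hi, h.ev_lt h.lt_len] with s h1 h2 h3
    exact h1.up _ _ (h1.lt (s i) h2) (fun t ht => lt_trans ht h3)
      ((FD.coord h2).map (fun x => x < κ))
  · intro i j hij hj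
    refine ⟨FD.map₂ (fun x y => x < y) (FD.coord (hij.trans hj)) (FD.coord hj), ?_⟩
    filter_upwards [hGs, hm.lt j hj, h.ev_mono hij (hj.trans_le hm.le)] with s h1 h2 h3
    exact h1.mono (s i) (s j) h3 h2
  · intro f hf i hi hfi
    have hir : i < ρ := hi.trans_le hm.le
    have hP : FD ρ (fun (s : Asg) (x : Ord) =>
        {t : Asg | f (fun k => t (s k)) = t x} ∈ Gs s) :=
      FD.map₂ (fun (g : Asg → Ord) (G : Set (Set Asg)) (x : Ord) => {t : Asg | g t = t x} ∈ G)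
        ((FD.comp_push hf).mono hm.le) hfd
    obtain ⟨j, hj, h1⟩ := h.ev_exists_lt (h.rep_coord hir) hP (by
      filter_upwards [hGs, h.ev_fd_comp hm hf, hfi.2, hm.lt i hi] with s h1 h2 h3 h4
      exact h1.normal _ h2 (s i) h4 h3)
    exact ⟨j, hj, FD.map₂ (fun x y => x = y) hf (FD.coord (hj.trans hi)), h1⟩
  · intro X hX
    have h1 : ∀ᶠ s in h.F, ∀ n, push s (X n) ∈ Gs s :=
      eventually_countable_forall.2 fun n => (hX n).2
    obtain ⟨s, h2, h3⟩ := (hGs.and h1).exists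
    obtain ⟨t, ht⟩ := h2.cc _ h3
    exact ⟨fun i => t (s i), mem_iInter.2 fun n => mem_iInter.1 ht n⟩

theorem repExt_up (h : IsExt κ ρ F) {Gs : Asg → Set (Set Asg)} (hfd : FD ρ Gs) :
    RepExt h μ (upE h μ Gs) Gs :=
  ⟨hfd, fun _ hX => hX.1, fun _ hX => ⟨fun h1 => h1.2, fun h1 => ⟨hX, h1⟩⟩⟩

/-- a represented witness is a witness -/
theorem IsWitness.up (h : IsWitness κ ρ F) (hm : Rep h.1 μ m) (hκ : κ < μ)
    {Gs : Asg → Set (Set Asg)} (hfd : FD ρ Gs)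
    (hGs : ∀ᶠ s in h.1.F, IsWitness (s κ) (m s) (Gs s)) : IsWitness κ μ (upE h.1 μ Gs) := by
  have hGs1 : ∀ᶠ s in h.1.F, IsExt (s κ) (m s) (Gs s) := hGs.mono fun s hs => hs.1
  refine ⟨h.1.up' hm hκ hfd hGs1, fun η hη x hx => ?_⟩
  have hηρ : η < ρ := hη.trans_le hm.le
  obtain ⟨g, hg1, hg2⟩ := h.2 η hηρ x hx
  have hP : FD ρ (fun (s : Asg) (y : Asg → Set Ord) => FD (m s) y ∧
      ∀ i < m s, (i ∈ g s ∩ Iio (s η) ↔ {t : Asg | t i ∈ y t} ∈ Gs s)) :=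
    FD.map₂ (fun (p : Ord × Ord) (q : Set Ord × Set (Set Asg)) (y : Asg → Set Ord) =>
      FD p.1 y ∧ ∀ i < p.1, (i ∈ q.1 ∩ Iio p.2 ↔ {t : Asg | t i ∈ y t} ∈ q.2))
      (FD.map₂ Prod.mk hm.fd (FD.coord hηρ)) (FD.map₂ Prod.mk hg1 hfd)
  obtain ⟨y, hy1, hy2⟩ := h.1.ev_choose hP (by
    filter_upwards [hGs, hm.lt η hη] with s h1 h2
    exact h1.2 (s η) h2 (g s ∩ Iio (s η)) inter_subset_right)
  obtain ⟨f, hf1, hf2⟩ := h.1.lift' hm (fun s t a _ => a ∈ y s t)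
    (hy1.map fun (G : Asg → Set Ord) (t : Asg) (a : Ord) (_ : Ord) => a ∈ G t)
    (hy2.mono fun s hs => FD.map (fun (A : Set Ord) (a : Ord) (_ : Ord) => a ∈ A) hs.1)
  have hgs : FD μ (fun u : Asg => {a | f u a 0}) := hf1.map fun Q => {a | Q a 0}
  refine ⟨fun u => {a | f u a 0}, hgs, fun i hi => ?_⟩
  have hir : i < ρ := hi.trans_le hm.le
  have hXfd : FD μ (fun u : Asg => u ∈ {u : Asg | u i ∈ {a | f u a 0}}) :=
    FD.map₂ (fun (a : Ord) (A : Set Ord) => a ∈ A) (FD.coord hi) hgs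
  have e1 : i ∈ x ↔ ∀ᶠ s in h.1.F, s i ∈ g s ∩ Iio (s η) := by
    have e2 : (∀ᶠ s in h.1.F, s i ∈ g s) ↔ {s : Asg | s i ∈ g s} ∈ F :=
      h.1.ev_iff (FD.map₂ (fun (a : Ord) (A : Set Ord) => a ∈ A) (FD.coord hir) hg1)
    constructor
    · intro h1
      filter_upwards [e2.2 ((hg2 i hir).1 h1), h.1.ev_mono (hx h1) hηρ] with s h2 h3
      exact ⟨h2, h3⟩
    · intro h1
      exact (hg2 i hir).2 (e2.1 (h1.mono fun s hs => hs.1))
  have e3 : {u : Asg | u i ∈ {a | f u a 0}} ∈ upE h.1 μ Gs ↔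
      ∀ᶠ s in h.1.F, push s {u : Asg | u i ∈ {a | f u a 0}} ∈ Gs s :=
    ⟨fun h1 => h1.2, fun h1 => ⟨hXfd, h1⟩⟩
  rw [e1, e3]
  refine eventually_congr ?_
  filter_upwards [hGs1, hy2, hf2, hm.lt i hi, h.1.ev_fd_push hm hXfd,
    h.1.ev_lt_kappa (Ordinal.omega0_pos.trans h.1.omega_lt_kappa)] with s h1 h2 h3 h4 h5 h6
  rw [h2.2 (s i) h4]
  refine h1.mem_iff_of_agree
    (FD.map₂ (fun (a : Ord) (A : Set Ord) => a ∈ A) (FD.coord h4) h2.1) h5 fun t ht => ?_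
  exact (h3 t ht (t (s i)) (ht _) 0 h6).symm

/-- it belongs to the ultrapower -/
theorem mit_up (h : IsExt κ μ F) (hm : Rep h μ m) {Gs : Asg → Set (Set Asg)}
    (hfd : FD μ Gs) (hGs : ∀ᶠ s in h.F, IsExt (s κ) (m s) (Gs s)) :
    Mit κ μ (upE h μ Gs) F := by
  have hH : FD μ (fun s : Asg => {Y : Set Asg | ∃ Z ∈ Gs s, Y = {t | (∀ i, t i < s κ) ∧ t ∈ Z}}) :=
    FD.map₂ (fun (k : Ord) (G : Set (Set Asg)) =>
      {Y : Set Asg | ∃ Z ∈ G, Y = {t | (∀ i, t i < k) ∧ t ∈ Z}}) (FD.coord h.lt_len) hfd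
  refine ⟨_, hH, fun X hX => ?_⟩
  have e1 : X ∈ upE h μ Gs ↔ ∀ᶠ s in h.F, push s X ∈ Gs s :=
    ⟨fun h1 => h1.2, fun h1 => ⟨hX, h1⟩⟩
  rw [e1, ← h.ev_iff (FD.map₂ (fun (A : Set Asg) (B : Set (Set Asg)) => A ∈ B)
    (FD.tr h.lt_len hX) hH)]
  refine eventually_congr ?_
  filter_upwards [hGs, h.ev_fd_push hm hX] with s h1 h2
  constructor
  · intro h3
    exact ⟨push s X, h3, tr_eq κ s X⟩
  · rintro ⟨Z, hZ, h3⟩
    refine (h1.mem_iff_of_agree h2 (h1.fd Z hZ) fun t ht => ?_).2 hZ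
    have h4 : t ∈ tr κ s X ↔ t ∈ {t : Asg | (∀ i, t i < s κ) ∧ t ∈ Z} := by rw [h3]
    constructor
    · intro h5
      exact (h4.1 ⟨ht, h5⟩).2
    · intro h5
      exact (h4.2 ⟨ht, h5⟩).2

end Helper2.EX
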