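import Pool.Agent.Helper2.EX.Wf
import Pool.Agent.Helper2.EX.Code
import Pool.Agent.Helper2.EX.Up
import Pool.Agent.Helper2.EX.Restr
import Pool.Agent.Helper2.EX.Beth
import Pool.Agent.Helper2.EX.Iter

open Set Cardinal Filter

namespace Helper2.EX

variable {κ μ ρ : Ord} {F : Set (Set Asg)}

theorem restr_ev_iff (h : IsExt κ ρ F) (hr : IsExt κ μ (restr μ F)) (hle : μ ≤ ρ)
    {P : Asg → Prop} (hP : FD μ P) : (∀ᶠ s in hr.F, P s) ↔ ∀ᶠ s in h.F, P s := by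
  rw [hr.ev_iff hP, h.ev_iff (hP.mono hle)]
  exact ⟨fun h1 => h1.1, fun h1 => ⟨h1, hP⟩⟩

/-- `G` is an (α, β)-witness which belongs to no ultrapower by an (α, β)-witness -/
def Uncap (α β : Ord) (G : Set (Set Asg)) : Prop :=
  IsSingFix α β ∧ IsWitness α β G ∧ ¬ ∃ F', IsWitness α β F' ∧ Mit α β G F'

/-- almost everywhere, every witness belongs to the ultrapower by another witness -/
theorem capture_ev (h : IsWitness κ ρ F) (hρ : ∀ η < ρ, (2 : Cardinal) ^ η.card < ρ.card)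
    (hlim : ∀ i < ρ, i + 1 < ρ) (hμ : μ < ρ) :
    ∀ᶠ s in h.1.F, ∀ β ≤ s μ, ∀ G, ¬ Uncap (s κ) β G := by
  classical
  have hfd : FD ρ (fun s : Asg => ∀ β ≤ s μ, ∀ G, ¬ Uncap (s κ) β G) :=
    FD.map₂ (fun (x y : Ord) => ∀ β ≤ x, ∀ G, ¬ Uncap y β G) (FD.coord hμ) (FD.coord h.1.lt_len)
  refine (h.1.em hfd).resolve_right fun hc => ?_
  -- the least `β` and a choice of `G`, as functions of `α`
  let B : Ord → Ord := fun α => sInf {β | ∃ G, Uncap α β G}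
  let G' : Ord → Set (Set Asg) := fun α =>
    if hx : ∃ G, Uncap α (B α) G then hx.choose else ∅
  have hB : ∀ᶠ s in h.1.F, Uncap (s κ) (B (s κ)) (G' (s κ)) ∧ B (s κ) ≤ s μ := by
    refine hc.mono fun s hs => ?_
    push Not at hs
    obtain ⟨β, hβ, G, hG⟩ := hs
    have hne : {β | ∃ G, Uncap (s κ) β G}.Nonempty := ⟨β, G, hG⟩
    have h1 : ∃ G, Uncap (s κ) (B (s κ)) G := csInf_mem hne
    have h2 : G' (s κ) = h1.choose := by simp only [G', h1, dite_true]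
    refine ⟨by rw [h2]; exact h1.choose_spec, ?_⟩
    exact (csInf_le' (show β ∈ {β | ∃ G, Uncap (s κ) β G} from ⟨G, hG⟩)).trans hβ
  obtain ⟨μ', hμ', hBμ⟩ := h.1.ev_normal (f := fun s => B (s κ)) (i := μ + 1)
    ((FD.coord h.1.lt_len).map B) (hlim μ hμ) (by
      filter_upwards [hB, h.1.ev_mono (Order.lt_add_one_iff.2 le_rfl) (hlim μ hμ)] with s h1 h2
      exact h1.2.trans_lt h2)
  have hμ'ρ : μ' < ρ := hμ'.trans (hlim μ hμ)
  have hκμ' : κ < μ' := h.1.lt_of_ev h.1.lt_len (by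
    filter_upwards [hB, hBμ] with s h1 h2
    rw [← h2]; exact h1.1.1.1)
  -- `μ'` is a strong limit
  have hpow' : ∀ η < μ', ∃ θ < μ', (2 : Cardinal) ^ η.card ≤ θ.card := by
    intro η hη
    have hη1 : η + 1 < ρ := (Order.add_one_le_iff.2 hη).trans_lt hμ'ρ
    have key : ∀ᶠ s in h.1.F, (preBeth (s (η + 1))).ord < s μ' := by
      filter_upwards [hB, hBμ, h.1.ev_add_one hη1, h.1.ev_mono hη hμ'ρ,
        h.1.ev_lt_kappa h.1.omega_lt_kappa] with s h1 h2 h3 h4 h5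
      have h6 := (fix_props (h5.trans h1.1.1.1) h1.1.1.2.2).2.1
      have h7 := h1.1.1.2.2
      rw [h2] at h6 h7
      rw [h3]
      calc (preBeth (s η + 1)).ord < (preBeth (s μ')).ord :=
            ord_lt_ord.2 (preBeth_lt_preBeth.2 (h6 _ h4))
        _ = s μ' := h7
    obtain ⟨θ, hθ, h1⟩ := h.1.ev_normal
      ((FD.coord hη1).map (fun x => (preBeth x).ord)) hμ'ρ key
    refine ⟨θ, hθ, ?_⟩
    have h2 := preBeth_le_of_ev h (η + 1) hη1 θ (hθ.trans hμ'ρ) (h1.mono fun s hs => hs.le)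
    rw [preBeth_add_one] at h2
    exact (power_le_power_left two_ne_zero (Ordinal.card_le_preBeth η)).trans h2
  have hpow : ∀ η < μ', (2 : Cardinal) ^ η.card < μ'.card := by
    intro η hη
    obtain ⟨θ, hθ, h1⟩ := hpow' η hη
    obtain ⟨θ', hθ', h2⟩ := hpow' θ hθ
    exact h1.trans_lt ((cantor _).trans_le (h2.trans (Ordinal.card_le_card hθ'.le)))
  -- the restriction of `F`
  have hF' : IsWitness κ μ' (restr μ' F) := h.restr hκμ' hμ'ρ hpow
  have hrep : Rep hF'.1 μ' (fun s => B (s κ)) := by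
    refine ⟨(FD.coord hκμ').map B, le_rfl, fun i hi => ?_, fun f hf hlt => ?_⟩
    · rw [restr_ev_iff h.1 hF'.1 hμ'ρ.le
        (FD.map₂ (· < ·) (FD.coord hi) ((FD.coord hκμ').map B))]
      filter_upwards [hBμ, h.1.ev_mono hi hμ'ρ] with s h1 h2
      rw [h1]; exact h2
    · rw [restr_ev_iff h.1 hF'.1 hμ'ρ.le (FD.map₂ (· < ·) hf ((FD.coord hκμ').map B))] at hlt
      obtain ⟨i, hi, h1⟩ := h.1.ev_normal (hf.mono hμ'ρ.le) hμ'ρ (by
        filter_upwards [hBμ, hlt] with s h1 h2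
        rwa [h1] at h2)
      refine ⟨i, hi, ?_⟩
      rwa [restr_ev_iff h.1 hF'.1 hμ'ρ.le (FD.map₂ (· = ·) hf (FD.coord hi))]
  have hGfd : FD μ' (fun s : Asg => G' (s κ)) := (FD.coord hκμ').map G'
  have hGw : ∀ᶠ s in hF'.1.F, IsWitness (s κ) (B (s κ)) (G' (s κ)) := by
    rw [restr_ev_iff h.1 hF'.1 hμ'ρ.le
      ((FD.coord hκμ').map (fun x => IsWitness x (B x) (G' x)))]
    exact hB.mono fun s hs => hs.1.2.1
  have hG : IsWitness κ μ' (upE hF'.1 μ' fun s => G' (s κ)) :=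
    IsWitness.up hF' hrep hκμ' hGfd hGw
  have hM : Mit κ μ' (upE hF'.1 μ' fun s => G' (s κ)) (restr μ' F) :=
    mit_up hF'.1 hrep hGfd (hGw.mono fun s hs => hs.1)
  -- transfer
  have hm : Rep h.1 μ' (fun s => s μ') := h.1.rep_coord hμ'ρ
  obtain ⟨H, hH, hHiff⟩ := exists_repr h (hρ _ hμ'ρ) hμ'ρ hκμ' hF'.1
  have rE := repExt_cap h.1 hm hκμ' hF'.1.fd hH hHiff
  have wE := IsWitness.down h.1 hm hκμ' hF' hH hHiff
  have rG : RepExt h.1 μ' (upE hF'.1 μ' fun s => G' (s κ)) (fun s => G' (s κ)) := by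
    refine ⟨hGfd.mono hμ'ρ.le, fun X hX => hX.1, fun X hX => ?_⟩
    have h1 : (∀ᶠ s in hF'.1.F, push s X ∈ G' (s κ)) ↔ ∀ᶠ s in h.1.F, push s X ∈ G' (s κ) :=
      restr_ev_iff h.1 hF'.1 hμ'ρ.le
        (FD.map₂ (fun (a : Set Asg) (b : Set (Set Asg)) => a ∈ b) (FD.push hX) hGfd)
    rw [← h1]
    exact ⟨fun h2 => h2.2, fun h2 => ⟨hX, h2⟩⟩
  have wG : ∀ᶠ s in h.1.F, IsWitness (s κ) (s μ') (G' (s κ)) := by
    filter_upwards [hB, hBμ] with s h1 h2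
    rw [← h2]; exact h1.1.2.1
  have hMs := Mit.down h.1 hm hκμ' rE rG (wE.mono fun s hs => hs.1) (wG.mono fun s hs => hs.1) hM
  obtain ⟨s, ⟨⟨h1, h2⟩, h3⟩, h4⟩ := (((hB.and hBμ).and wE).and hMs).exists
  refine h1.1.2.2 ?_
  rw [h2]
  exact ⟨_, h3, h4⟩

end Helper2.EX
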