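import Pool.Agent.Helper2.EX.Defs

open Set Cardinal Filter

namespace Helper2.EX

namespace CountAux

/-- the assignment coded by `x` -/
private noncomputable def asg {κ' η : Ord} (x : η.ToType → κ'.ToType) : Asg := by
  classical
  exact fun i => if h : i < η then
    ((Ordinal.ToType.mk.symm (x (Ordinal.ToType.mk ⟨i, Set.mem_Iio.2 h⟩)) : Set.Iio κ') : Ord) else 0

/-- the type of a function -/
private noncomputable def code (κ' η : Ord) (f : Asg → Ord) (x : η.ToType → κ'.ToType) :
    (Order.succ κ').ToType :=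
  Ordinal.ToType.mk ⟨min (f (asg x)) κ', Set.mem_Iio.2 (Order.lt_succ_of_le (min_le_right _ _))⟩

private theorem code_eq {κ' η : Ord} {f f' : Asg → Ord} (h : code κ' η f = code κ' η f')
    (x : η.ToType → κ'.ToType) : min (f (asg x)) κ' = min (f' (asg x)) κ' := by
  have h1 := congrFun h x
  unfold code at h1
  have h2 := Ordinal.ToType.mk.injective h1
  exact congrArg Subtype.val h2

private theorem asg_eq {κ' η : Ord} (t : Asg) (ht : ∀ i, t i < κ') :
    ∃ x : η.ToType → κ'.ToType, ∀ i < η, asg x i = t i := by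
  refine ⟨fun j => Ordinal.ToType.mk ⟨t (Ordinal.ToType.mk.symm j : Set.Iio η), Set.mem_Iio.2 (ht _)⟩,
    fun i hi => ?_⟩
  unfold asg
  rw [dif_pos hi]
  simp

private theorem exists_enum (Y : Type) (g : Y → Ord) :
    ∃ h : Ord → Ord, ∀ y, ∃ γ < (#Y).ord, h γ = g y := by
  classical
  obtain ⟨e⟩ := Cardinal.eq.1 (Cardinal.mk_ord_toType (#Y)).symm
  refine ⟨fun γ => if hγ : γ < (#Y).ord then g (e.symm (Ordinal.ToType.mk ⟨γ, Set.mem_Iio.2 hγ⟩)) else 0,
    fun y => ⟨(Ordinal.ToType.mk.symm (e y) : Set.Iio (#Y).ord),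
      Set.mem_Iio.1 (Ordinal.ToType.mk.symm (e y)).2, ?_⟩⟩
  have h1 : ((Ordinal.ToType.mk.symm (e y) : Set.Iio (#Y).ord) : Ord) < (#Y).ord :=
    Set.mem_Iio.1 (Ordinal.ToType.mk.symm (e y)).2
  simp only [dif_pos h1]
  simp

private theorem small_types {m : Ord} (hm : RSL m) {κ' η : Ord} (hκ : κ' < m) (hη : η < m) :
    (#((η.ToType → κ'.ToType) → (Order.succ κ').ToType)).ord < m := by
  obtain ⟨o, ho⟩ : ∃ o : Ord, o = max Ordinal.omega0 (max η κ') := ⟨_, rfl⟩
  have hom : o < m := by rw [ho]; exact max_lt hm.omega (max_lt hη hκ)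
  obtain ⟨c, hc⟩ : ∃ c : Cardinal.{0}, c = o.card := ⟨_, rfl⟩
  have hc0 : ℵ₀ ≤ c := by
    rw [hc, ← Ordinal.card_omega0]
    exact Ordinal.card_le_card (by rw [ho]; exact le_max_left _ _)
  have hcη : η.card ≤ c := by
    rw [hc]
    exact Ordinal.card_le_card (by rw [ho]; exact (le_max_left _ _).trans (le_max_right _ _))
  have hcκ : κ'.card ≤ c := by
    rw [hc]
    exact Ordinal.card_le_card (by rw [ho]; exact (le_max_right _ _).trans (le_max_right _ _))
  have h1 : ((2 : Cardinal) ^ c).ord < m := by rw [hc]; exact hm.pow o hom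
  have h2 : ((2 : Cardinal) ^ ((2 : Cardinal) ^ c)).ord < m := by
    have := hm.pow _ h1
    rwa [Cardinal.card_ord] at this
  have hcne : c ≠ 0 := (Cardinal.aleph0_pos.trans_le hc0).ne'
  have hX : #(η.ToType → κ'.ToType) ≤ 2 ^ c := by
    rw [← Cardinal.power_def, Cardinal.mk_toType, Cardinal.mk_toType, ← Cardinal.power_self_eq hc0]
    exact (Cardinal.power_le_power_right hcκ).trans (Cardinal.power_le_power_left hcne hcη)
  have hd0 : ℵ₀ ≤ (2 : Cardinal) ^ c := hc0.trans (Cardinal.cantor c).le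
  have hdne : (2 : Cardinal) ^ c ≠ 0 := (Cardinal.aleph0_pos.trans_le hd0).ne'
  have hY : #((η.ToType → κ'.ToType) → (Order.succ κ').ToType) ≤ 2 ^ ((2 : Cardinal) ^ c) := by
    rw [← Cardinal.power_def, Cardinal.mk_toType, ← Cardinal.power_self_eq hd0]
    have h3 : (Order.succ κ').card ≤ 2 ^ c := by
      rw [Order.succ_eq_add_one, Ordinal.card_add_one]
      calc κ'.card + 1 ≤ c + 1 := add_le_add_left hcκ 1
        _ = c := Cardinal.add_one_eq hc0
        _ ≤ 2 ^ c := (Cardinal.cantor c).le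
    exact (Cardinal.power_le_power_right h3).trans (Cardinal.power_le_power_left hdne hX)
  exact (Cardinal.ord_le_ord.2 hY).trans_lt h2

end CountAux

open CountAux in
/-- few functions depend on finitely many indices below `η`, when only arguments and values
below `κ'` count -/
theorem exists_bound {m : Ord} (hm : RSL m) {κ' η : Ord} (hκ : κ' < m) (hη : η < m)
    (G : (Asg → Ord) → Ord)
    (hG : ∀ f f' : Asg → Ord,
      (∀ t : Asg, (∀ i, t i < κ') → min (f t) κ' = min (f' t) κ') → G f = G f') :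
    ∃ b < m, ∀ f : Asg → Ord, FD η f → G f < m → G f < b := by
  classical
  -- the type determines the value of `G`
  have hdet : ∀ f f' : Asg → Ord, FD η f → FD η f' → code κ' η f = code κ' η f' → G f = G f' := by
    intro f f' hf hf' hc
    refine hG f f' fun t ht => ?_
    obtain ⟨a, ha, hfa⟩ := hf
    obtain ⟨a', ha', hfa'⟩ := hf'
    obtain ⟨x, hx⟩ := asg_eq (η := η) t ht
    have e1 : f t = f (asg x) := hfa _ _ fun i hi => (hx i (ha i hi)).symm
    have e2 : f' t = f' (asg x) := hfa' _ _ fun i hi => (hx i (ha' i hi)).symm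
    rw [e1, e2]
    exact code_eq hc x
  obtain ⟨h, hh⟩ := exists_enum ((η.ToType → κ'.ToType) → (Order.succ κ').ToType)
    (fun y => if hy : ∃ f : Asg → Ord, FD η f ∧ code κ' η f = y then G hy.choose else 0)
  obtain ⟨b, hb, hb'⟩ := hm.reg _ (small_types hm hκ hη) h
  refine ⟨b, hb, fun f hf hfm => ?_⟩
  obtain ⟨γ, hγ, hγ'⟩ := hh (code κ' η f)
  have hy : ∃ f' : Asg → Ord, FD η f' ∧ code κ' η f' = code κ' η f := ⟨f, hf, rfl⟩
  rw [dif_pos hy] at hγ'
  have e : G hy.choose = G f := hdet _ _ hy.choose_spec.1 hf hy.choose_spec.2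
  rw [e] at hγ'
  have := hb' γ hγ (by rw [hγ']; exact hfm)
  rwa [hγ'] at this

end Helper2.EX
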