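import Pool.Agent.Helper2.EX.Beth
import Pool.Agent.Helper2.EX.Count
import Pool.Agent.Helper2.EX.Iter

open Set Cardinal Filter

namespace Helper2.EX

variable {κ μ : Ord} {E F : Set (Set Asg)}

namespace CU

/-- all `z` such that `f t = t z` for `HH`-many `t` with values below `K` -/
def zset (K : Ord) (HH : Set (Set Asg)) (f : Asg → Ord) : Set Ord :=
  {z | {t : Asg | (∀ i, t i < K) ∧ f t = t z} ∈ HH}

/-- the least `z` such that `f t = t z` for `HH`-many `t` with values below `K` -/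
noncomputable def gfun (K m : Ord) (HH : Set (Set Asg)) (f : Asg → Ord) : Ord :=
  open Classical in if (zset K HH f).Nonempty then sInf (zset K HH f) else m

theorem gfun_mem {K m : Ord} {HH : Set (Set Asg)} {f : Asg → Ord} {z : Ord}
    (h : {t : Asg | (∀ i, t i < K) ∧ f t = t z} ∈ HH) :
    {t : Asg | (∀ i, t i < K) ∧ f t = t (gfun K m HH f)} ∈ HH := by
  have h1 : (zset K HH f).Nonempty := ⟨z, h⟩
  have h2 : gfun K m HH f = sInf (zset K HH f) := by
    unfold gfun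
    rw [if_pos h1]
  rw [h2]
  exact csInf_mem h1

theorem gfun_le {K m : Ord} {HH : Set (Set Asg)} {f : Asg → Ord} {z : Ord}
    (h : {t : Asg | (∀ i, t i < K) ∧ f t = t z} ∈ HH) : gfun K m HH f ≤ z := by
  have h1 : (zset K HH f).Nonempty := ⟨z, h⟩
  unfold gfun
  rw [if_pos h1]
  exact csInf_le' (show z ∈ zset K HH f from h)

theorem gfun_congr {K m : Ord} {HH : Set (Set Asg)} (f f' : Asg → Ord)
    (h : ∀ t : Asg, (∀ i, t i < K) → min (f t) K = min (f' t) K) :
    gfun K m HH f = gfun K m HH f' := by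
  have aux : ∀ t : Asg, (∀ i, t i < K) → ∀ (g : Ord) (z : Ord),
      (g = t z ↔ min g K = t z) := by
    intro t ht g z
    constructor
    · intro hg
      rw [hg]
      exact min_eq_left (ht z).le
    · intro hg
      rcases le_total g K with hgK | hgK
      · rwa [min_eq_left hgK] at hg
      · rw [min_eq_right hgK] at hg
        exact absurd (ht z) (by rw [← hg]; exact lt_irrefl _)
  have key : zset K HH f = zset K HH f' := by
    ext z
    have : {t : Asg | (∀ i, t i < K) ∧ f t = t z} =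
        {t : Asg | (∀ i, t i < K) ∧ f' t = t z} := by
      ext t
      simp only [mem_ofPred_eq]
      refine and_congr_right fun ht => ?_
      rw [aux t ht (f t) z, aux t ht (f' t) z, h t ht]
    unfold zset
    simp only [mem_ofPred_eq]
    rw [this]
  unfold gfun
  rw [key]

/-- bound for `gfun` on functions with support below `η` -/
noncomputable def phi (K m : Ord) (HH : Set (Set Asg)) (η : Ord) : Ord :=
  sInf {b | ∀ f : Asg → Ord, FD η f → gfun K m HH f < m → gfun K m HH f < b}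

theorem phi_spec {K m : Ord} (hm : RSL m) (hK : K < m) (HH : Set (Set Asg)) {η : Ord}
    (hη : η < m) : phi K m HH η < m ∧
      ∀ f : Asg → Ord, FD η f → gfun K m HH f < m → gfun K m HH f < phi K m HH η := by
  obtain ⟨b, hb, hb'⟩ := exists_bound hm hK hη (gfun K m HH) (fun f f' h => gfun_congr f f' h)
  refine ⟨lt_of_le_of_lt (csInf_le' hb') hb, ?_⟩
  exact csInf_mem (s := {b | ∀ f : Asg → Ord, FD η f → gfun K m HH f < m → gfun K m HH f < b})
    ⟨b, hb'⟩

theorem rsl_succ_lt {m : Ord} (hm : RSL m) {η : Ord} (hη : η < m) : η + 1 < m := by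
  have h1 : η < ((2 : Cardinal) ^ η.card).ord := Cardinal.lt_ord.2 (Cardinal.cantor _)
  exact lt_of_le_of_lt (Order.add_one_le_of_lt h1) (hm.pow η hη)

theorem lt_step (Φ : Ord → Ord) (x : Ord) : x < step Φ x := by
  unfold step
  exact Order.lt_add_one_iff.2 (le_max_of_le_right (le_max_right _ _))

theorem phi_lt_step (Φ : Ord → Ord) (x : Ord) : Φ x < step Φ x := by
  unfold step
  exact Order.lt_add_one_iff.2 (le_max_left _ _)

theorem preBeth_lt_step (Φ : Ord → Ord) (x : Ord) : (preBeth x).ord < step Φ x := by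
  unfold step
  exact Order.lt_add_one_iff.2 (le_max_of_le_right (le_max_left _ _))

end CU

open CU

/-- if `μ` is inaccessible in `Ult(V, F)` and `E` belongs to `Ult(V, F)`, there are closure points
of `E` below `μ` -/
theorem exists_closed_of_ult (hE : IsExt κ μ E) (hF : IsWitness κ μ F) {m : Asg → Ord}
    (hm : Rep hF.1 μ m) (hr : ∀ᶠ s in hF.1.F, RSL (m s)) (hmit : Mit κ μ E F) :
    ∃ ξ, κ < ξ ∧ ξ < μ ∧ IsSingFix κ ξ ∧ (∀ i < ξ, i + 1 < ξ) ∧
      (∀ η < ξ, (2 : Cardinal) ^ η.card < ξ.card) ∧ HullClosed hE ξ := by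
  obtain ⟨H, hH, hHE⟩ := hmit
  have hκμ : κ < μ := hE.lt_len
  have hκc : FD μ (fun s : Asg => s κ) := FD.coord hκμ
  -- the sequence in the `s`-world
  let x : Asg → ℕ → Ord := fun s n => iter (phi (s κ) (m s) (H s)) (s κ + 1) n
  have hxFD : ∀ n, FD μ (fun s => x s n) := fun n =>
    FD.map₃ (fun (K M : Ord) (HH : Set (Set Asg)) => iter (phi K M HH) (K + 1) n) hκc hm.fd hH
  have hsFD : FD μ (fun s => ⨆ n, x s n) :=
    FD.map₃ (fun (K M : Ord) (HH : Set (Set Asg)) => ⨆ n, iter (phi K M HH) (K + 1) n)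
      hκc hm.fd hH
  have hΦ : ∀ᶠ s in hF.1.F, ∀ y < m s, phi (s κ) (m s) (H s) y < m s := by
    filter_upwards [hr, hm.lt κ hκμ] with s h1 h2 y hy
    exact (phi_spec h1 h2 (H s) hy).1
  have hxlt : ∀ᶠ s in hF.1.F, ∀ n, x s n < m s := by
    filter_upwards [hr, hm.lt κ hκμ, hΦ] with s h1 h2 h3 n
    exact h1.iter_lt h3 (rsl_succ_lt h1 h2) n
  have hslt : ∀ᶠ s in hF.1.F, (⨆ n, x s n) < m s := by
    filter_upwards [hr, hm.lt κ hκμ, hΦ] with s h1 h2 h3
    exact h1.iSup_iter_lt h3 (rsl_succ_lt h1 h2)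
  -- seeds
  have hseed : ∀ n, ∃ i < μ, ∀ᶠ s in hF.1.F, x s n = s i := fun n =>
    hm.seed _ (hxFD n) (hxlt.mono fun s hs => hs n)
  choose ξn hξn hξn' using hseed
  obtain ⟨ξ, hξμ, hξ⟩ := hm.seed _ hsFD hslt
  have hall : ∀ᶠ s in hF.1.F, ∀ n, x s n = s (ξn n) := by
    have := hF.1.countable
    exact eventually_countable_forall.2 hξn'
  -- characterisation of `ξ`
  have hchar : ∀ y, y < ξ ↔ ∃ n, y < ξn n := by
    intro y
    constructor
    · intro hy
      by_contra hc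
      push Not at hc
      have h1 : ∀ᶠ s in hF.1.F, ∀ n, s (ξn n) ≤ s y := by
        have := hF.1.countable
        exact eventually_countable_forall.2 fun n => hF.1.ev_mono' (hc n) (hy.trans hξμ)
      obtain ⟨s, h2, h3, h4, h5⟩ := (h1.and (hξ.and (hall.and (hF.1.ev_mono hy hξμ)))).exists
      rw [← h3] at h5
      obtain ⟨n, hn⟩ := lt_iSup_iter.1 h5
      have h6 : s y < s (ξn n) := by rw [← h4 n]; exact hn
      exact absurd h6 (not_lt.2 (h2 n))
    · rintro ⟨n, hn⟩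
      refine hF.1.lt_of_ev (hn.trans (hξn n)) ?_
      filter_upwards [hξ, hall, hF.1.ev_mono hn (hξn n)] with s h3 h4 h5
      rw [← h3]
      refine lt_iSup_iter.2 ⟨n, ?_⟩
      rw [← h4 n] at h5
      exact h5
  have h0 : κ < ξn 0 := by
    refine hF.1.lt_of_ev hκμ ?_
    filter_upwards [hall] with s h4
    rw [← h4 0]
    exact Order.lt_add_one_iff.2 le_rfl
  have hstep : ∀ s n, x s (n + 1) = step (phi (s κ) (m s) (H s)) (x s n) := fun s n =>
    iter_succ _ _ _
  have hmono : ∀ n, ξn n < ξn (n + 1) := by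
    intro n
    refine hF.1.lt_of_ev (hξn n) ?_
    filter_upwards [hall] with s h4
    rw [← h4 n, ← h4 (n + 1), hstep]
    exact lt_step _ _
  have hbeth : ∀ n, (preBeth (ξn n)).ord ≤ ξn (n + 1) := by
    intro n
    refine Cardinal.ord_le.2 (preBeth_le_of_ev hF (ξn n) (hξn n) (ξn (n + 1)) (hξn (n + 1)) ?_)
    filter_upwards [hall] with s h4
    rw [← h4 n, ← h4 (n + 1), hstep]
    exact (preBeth_lt_step _ _).le
  obtain ⟨hA, hB, hC⟩ := isSingFix_of_seq ξn h0 hF.1.omega_lt_kappa.le hmono hbeth hchar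
  have hκξ : κ < ξ := (hchar κ).2 ⟨0, h0⟩
  refine ⟨ξ, hκξ, hξμ, hA, hB, hC, ?_⟩
  -- closure
  intro f hf γ hγ hfγ
  obtain ⟨a, ha, hfa⟩ := hf
  have hmono' : StrictMono ξn := strictMono_nat_of_lt_succ hmono
  obtain ⟨n, hn⟩ : ∃ n, ∀ i ∈ a, i < ξn n := by
    have hex : ∀ i ∈ a, ∃ n, i < ξn n := fun i hi => (hchar i).1 (ha i hi)
    choose! N hN using hex
    refine ⟨a.sup N, fun i hi => (hN i hi).trans_le (hmono'.monotone (Finset.le_sup hi))⟩
  have haμ : ∀ i ∈ a, i < μ := fun i hi => (ha i hi).trans hξμ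
  have hfμ : FD μ f := ⟨a, haμ, hfa⟩
  have hset : ∀ z < μ, FD μ (fun t : Asg => t ∈ {t : Asg | f t = t z}) := fun z hz =>
    FD.map₂ (fun p q : Ord => p = q) hfμ (FD.coord hz)
  have htr : ∀ (s : Asg) (z : Ord), tr κ s {t : Asg | f t = t z} =
      {t : Asg | (∀ i, t i < s κ) ∧ f (fun i => t (s i)) = t (s z)} := fun s z => rfl
  have hin : {t : Asg | f t = t γ} ∈ E :=
    (hE.ev_iff (P := fun t => f t = t γ) (hset γ hγ)).1 hfγ
  have hin' : ∀ᶠ s in hF.1.F, tr κ s {t : Asg | f t = t γ} ∈ H s :=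
    hF.1.mem_F ((hHE _ (hset γ hγ)).1 hin)
  -- the function `z`
  let fs : Asg → Asg → Ord := fun s t => f (fun i => t (s i))
  have hfsFD : FD μ fs := by
    refine ⟨a, haμ, fun s s' h => ?_⟩
    funext t
    exact hfa _ _ fun i hi => by rw [h i hi]
  let z : Asg → Ord := fun s => gfun (s κ) (m s) (H s) (fs s)
  have hzFD : FD μ z :=
    FD.map₂ (fun (p : Ord × Ord × Set (Set Asg)) (g : Asg → Ord) => gfun p.1 p.2.1 p.2.2 g)
      (FD.map₃ (fun (K M : Ord) (HH : Set (Set Asg)) => (K, M, HH)) hκc hm.fd hH) hfsFD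
  have hsupp : ∀ᶠ s in hF.1.F, ∀ i ∈ a, s i < s (ξn n) := by
    rw [Filter.eventually_all_finset]
    intro i hi
    exact hF.1.ev_mono (hn i hi) (hξn n)
  have hzlt : ∀ᶠ s in hF.1.F, z s < s (ξn (n + 1)) := by
    filter_upwards [hin', hm.lt γ hγ, hr, hm.lt κ hκμ, hxlt, hall, hsupp]
      with s h1 h2 h3 h4 h5 h6 h7
    rw [htr] at h1
    have h8 : z s ≤ s γ := gfun_le h1
    have h9 : FD (x s n) (fs s) := by
      refine ⟨a.image s, fun j hj => ?_, fun t t' h => ?_⟩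
      · obtain ⟨i, hi, rfl⟩ := Finset.mem_image.1 hj
        rw [h6 n]
        exact h7 i hi
      · exact hfa _ _ fun i hi => h _ (Finset.mem_image_of_mem _ hi)
    have h10 := (phi_spec h3 h4 (H s) (h5 n)).2 (fs s) h9 (lt_of_le_of_lt h8 h2)
    rw [← h6 (n + 1), hstep]
    exact h10.trans (phi_lt_step _ _)
  obtain ⟨ζ, hζ, hζ'⟩ := hF.1.ev_normal hzFD (hξn (n + 1)) hzlt
  have hζμ : ζ < μ := hζ.trans (hξn (n + 1))
  have hin2 : ∀ᶠ s in hF.1.F, tr κ s {t : Asg | f t = t ζ} ∈ H s := by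
    filter_upwards [hin', hζ'] with s h1 h2
    rw [htr] at h1 ⊢
    rw [← h2]
    exact gfun_mem h1
  have hin3 : {t : Asg | f t = t ζ} ∈ E := by
    rw [hHE _ (hset ζ hζμ)]
    refine (hF.1.ev_iff (P := fun s => tr κ s {t : Asg | f t = t ζ} ∈ H s) ?_).1 hin2
    exact FD.map₂ (fun (Y : Set Asg) (HH : Set (Set Asg)) => Y ∈ HH)
      (FD.tr hκμ (hset ζ hζμ)) hH
  have hfζ : ∀ᶠ t in hE.F, f t = t ζ := hE.mem_F hin3
  have hγζ : γ = ζ := hE.eq_of_ev hγ hζμ ((hfγ.and hfζ).mono fun t ht => ht.1.symm.trans ht.2)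
  rw [hγζ]
  exact (hchar ζ).2 ⟨n + 1, hζ⟩

end Helper2.EX
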