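import Pool.Agent.Helper2.EX.Basic
import Pool.Agent.Helper2.EX.Count
import Pool.Agent.Helper2.EX.Iter

open Set Cardinal Filter

namespace Helper2.EX

variable {κ ν : Ord} {E : Set (Set Asg)}

private theorem fd_trunc (h : IsExt κ ν E) {f : Asg → Ord} (hf : FD ν f) :
    ∀ᶠ s in h.F, f (fun i => if s i < κ then s i else 0) = f s := by
  obtain ⟨a, ha, hfa⟩ := hf
  have h1 : ∀ᶠ s in h.F, ∀ i ∈ a, s i < κ :=
    (Filter.eventually_all_finset a).2 fun i hi => h.ev_lt (ha i hi)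
  filter_upwards [h1] with s hs
  refine hfa _ _ fun i hi => ?_
  rw [if_pos (hs i hi)]

/-- closure points below an inaccessible -/
theorem exists_closed_of_rsl (h : IsExt κ ν E) (hν : RSL ν) :
    ∃ ξ, κ < ξ ∧ ξ < ν ∧ IsSingFix κ ξ ∧ (∀ i < ξ, i + 1 < ξ) ∧
      (∀ η < ξ, (2 : Cardinal) ^ η.card < ξ.card) ∧ HullClosed h ξ := by
  classical
  have hκν := h.lt_len
  have hω : Ordinal.omega0 < κ := h.omega_lt_kappa
  have h0κ : (0 : Ord) < κ := Ordinal.omega0_pos.trans hω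
  obtain ⟨G, hGdef⟩ : ∃ G : (Asg → Ord) → Ord, ∀ f, G f = sInf ({z | z < ν ∧
      ∀ᶠ t in h.F, min (f (fun i => if t i < κ then t i else 0)) κ = t z} ∪ {ν}) := ⟨_, fun _ => rfl⟩
  have hG : ∀ f f' : Asg → Ord,
      (∀ t : Asg, (∀ i, t i < κ) → min (f t) κ = min (f' t) κ) → G f = G f' := by
    intro f f' hff
    have h1 : ∀ t : Asg, min (f (fun i => if t i < κ then t i else 0)) κ =
        min (f' (fun i => if t i < κ then t i else 0)) κ := by
      intro t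
      refine hff _ fun i => ?_
      split_ifs with h2
      exacts [h2, h0κ]
    rw [hGdef, hGdef]
    simp only [h1]
  have hval : ∀ f : Asg → Ord, FD ν f → ∀ γ < ν, (∀ᶠ s in h.F, f s = s γ) → G f = γ := by
    intro f hf γ hγ hev
    have hmem : γ ∈ ({z | z < ν ∧
        ∀ᶠ t in h.F, min (f (fun i => if t i < κ then t i else 0)) κ = t z} ∪ {ν}) := by
      left
      refine ⟨hγ, ?_⟩
      filter_upwards [fd_trunc h hf, hev, h.ev_lt hγ] with s h1 h2 h3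
      rw [h1, h2, min_eq_left h3.le]
    have hle : G f ≤ γ := by
      rw [hGdef]
      exact csInf_le' hmem
    have hm : G f ∈ ({z | z < ν ∧
        ∀ᶠ t in h.F, min (f (fun i => if t i < κ then t i else 0)) κ = t z} ∪ {ν}) := by
      rw [hGdef]
      exact csInf_mem ⟨γ, hmem⟩
    rcases hm with ⟨h1, h2⟩ | h1
    · refine h.eq_of_ev h1 hγ ?_
      filter_upwards [h2, fd_trunc h hf, hev, h.ev_lt hγ] with s h3 h4 h5 h6
      rw [← h3, h4, h5, min_eq_left h6.le]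
    · exact absurd (h1 : G f = ν) (hle.trans_lt hγ).ne
  have hex : ∀ η : Ord, ∃ b : Ord, η < ν → b < ν ∧ ∀ f : Asg → Ord, FD η f → G f < ν → G f < b := by
    intro η
    by_cases hη : η < ν
    · obtain ⟨b, hb, hb'⟩ := exists_bound hν hκν hη G hG
      exact ⟨b, fun _ => ⟨hb, hb'⟩⟩
    · exact ⟨0, fun h1 => absurd h1 hη⟩
  choose Φ hΦ using hex
  have hΦν : ∀ x < ν, Φ x < ν := fun x hx => (hΦ x hx).1
  have hκ1 : κ + 1 < ν := by
    obtain ⟨η, hη, h1⟩ := hν.reg 1 (Ordinal.one_lt_omega0.trans hν.omega) (fun _ => κ)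
    exact (Order.add_one_le_of_lt (h1 0 zero_lt_one hκν)).trans_lt hη
  have hlt : ∀ n, iter Φ (κ + 1) n < iter Φ (κ + 1) (n + 1) := by
    intro n
    rw [iter_succ, step]
    exact Order.lt_add_one_iff.2 ((le_max_right _ _).trans (le_max_right _ _))
  have hmono : StrictMono (iter Φ (κ + 1)) := strictMono_nat_of_lt_succ hlt
  have hpb : ∀ n, (preBeth (iter Φ (κ + 1) n)).ord ≤ iter Φ (κ + 1) (n + 1) := by
    intro n
    rw [iter_succ Φ (κ + 1) n, step]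
    exact ((le_max_left _ _).trans (le_max_right _ _)).trans (Order.lt_add_one_iff.2 le_rfl).le
  have hξ : ∀ y, y < (⨆ n, iter Φ (κ + 1) n) ↔ ∃ n, y < iter Φ (κ + 1) n := fun y => lt_iSup_iter
  have h0 : κ < iter Φ (κ + 1) 0 := by
    rw [iter_zero]
    exact Order.lt_add_one_iff.2 le_rfl
  obtain ⟨hsf, hlim, hpow⟩ := isSingFix_of_seq (iter Φ (κ + 1)) h0 hω.le hlt hpb hξ
  refine ⟨⨆ n, iter Φ (κ + 1) n, (hξ κ).2 ⟨0, h0⟩, hν.iSup_iter_lt hΦν hκ1, hsf, hlim, hpow, ?_⟩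
  have hξν : (⨆ n, iter Φ (κ + 1) n) < ν := hν.iSup_iter_lt hΦν hκ1
  intro f hf γ hγ hev
  have hfν : FD ν f := hf.mono hξν.le
  obtain ⟨a, ha, hfa⟩ := hf
  have hN : ∃ N, ∀ i ∈ a, i < iter Φ (κ + 1) N := by
    have h1 : ∀ i ∈ a, ∃ n, i < iter Φ (κ + 1) n := fun i hi => (hξ i).1 (ha i hi)
    choose! nn hnn using h1
    refine ⟨a.sup nn, fun i hi => (hnn i hi).trans_le (hmono.monotone (Finset.le_sup hi))⟩
  obtain ⟨N, hN⟩ := hN
  have hGf := hval f hfν γ hγ hev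
  have hxN : iter Φ (κ + 1) N < ν := hν.iter_lt hΦν hκ1 N
  have h2 := (hΦ _ hxN).2 f ⟨a, hN, hfa⟩ (by rw [hGf]; exact hγ)
  rw [hGf] at h2
  refine (hξ γ).2 ⟨N + 1, h2.trans ?_⟩
  rw [iter_succ, step]
  exact Order.lt_add_one_iff.2 (le_max_left _ _)

end Helper2.EX
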