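import Mathlib

/-!
# Extenders as families of cylinder sets

`Asg` is the class of all assignments `s` of ordinals to (indices, which are) ordinals. A coherent
system of ultrafilters `E_a` on `[κ]^{|a|}`, `a` a finite subset of `μ`, is the same as the family
`E` of the cylinder sets `{s | s|a ∈ X}`, `X ∈ E_a`.
-/

open Set Cardinal

namespace Helper2.EX

abbrev Ord := Ordinal.{0}

/-- assignments `s`; `s i` is the value at the index `i` -/
abbrev Asg := Ord → Ord

/-- `f s` depends only on the values of `s` at finitely many indices below `μ` -/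
def FD {β : Type*} (μ : Ord) (f : Asg → β) : Prop :=
  ∃ a : Finset Ord, (∀ i ∈ a, i < μ) ∧ ∀ s t : Asg, (∀ i ∈ a, s i = t i) → f s = f t

/-- (κ, μ)-extender, as a family of sets of assignments which depend on finitely many indices
below `μ`: an ultrafilter (`fd`, `ultra`, `up`), `κ`-complete for every finite set `a` of indices
(`compl`), on increasing assignments with values below `κ` (`lt`, `mono`), normal, and with a
well-founded ultrapower (`cc`: countably many members have a common element) -/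
structure IsExt (κ μ : Ord) (E : Set (Set Asg)) : Prop where
  lt_len : κ < μ
  fd : ∀ X ∈ E, FD μ (fun s => s ∈ X)
  ultra : ∀ X : Set Asg, FD μ (fun s => s ∈ X) → (X ∈ E ↔ Xᶜ ∉ E)
  up : ∀ X Y : Set Asg, X ∈ E → X ⊆ Y → FD μ (fun s => s ∈ Y) → Y ∈ E
  compl : ∀ a : Finset Ord, (∀ i ∈ a, i < μ) → ∀ δ < κ, ∀ X : Ord → Set Asg,
    (∀ j < δ, X j ∈ E ∧ ∀ s t : Asg, (∀ i ∈ a, s i = t i) → (s ∈ X j ↔ t ∈ X j)) →
    {s | ∀ j < δ, s ∈ X j} ∈ E
  lt : ∀ i < μ, {s : Asg | s i < κ} ∈ E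
  mono : ∀ i j, i < j → j < μ → {s : Asg | s i < s j} ∈ E
  normal : ∀ f : Asg → Ord, FD μ f → ∀ i < μ, {s | f s < s i} ∈ E →
    ∃ j < i, {s | f s = s j} ∈ E
  cc : ∀ X : ℕ → Set Asg, (∀ n, X n ∈ E) → (⋂ n, X n).Nonempty

/-- the subset `x` of `μ` belongs to `Ult(V, E)` -/
def InUlt (μ : Ord) (E : Set (Set Asg)) (x : Set Ord) : Prop :=
  ∃ g : Asg → Set Ord, FD μ g ∧ ∀ i < μ, (i ∈ x ↔ {s | s i ∈ g s} ∈ E)

/-- `E` is a (κ, μ)-extender and witnesses that `κ` is `μ`-strong: every bounded subset of `μ`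
belongs to `Ult(V, E)` (used for `|V_μ| = μ` only) -/
def IsWitness (κ μ : Ord) (E : Set (Set Asg)) : Prop :=
  IsExt κ μ E ∧ ∀ η < μ, ∀ x ⊆ Iio η, InUlt μ E x

/-- `μ` is singular in `Ult(V, E)`: there a function `h` maps some `δ < μ` cofinally into `μ` -/
def SingIn (μ : Ord) (E : Set (Set Asg)) : Prop :=
  ∃ δ < μ, ∃ h : Asg → Ord → Ord, FD μ h ∧
    ∀ η < μ, ∃ γ < δ, ∃ ζ, η ≤ ζ ∧ ζ < μ ∧ {s | h s (s γ) = s ζ} ∈ E

/-- good witness -/
def IsGood (κ μ : Ord) (E : Set (Set Asg)) : Prop := IsWitness κ μ E ∧ SingIn μ E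

/-- bad witness -/
def IsBad (κ μ : Ord) (E : Set (Set Asg)) : Prop := IsWitness κ μ E ∧ ¬ SingIn μ E

/-- the restriction of `X` to `s κ` in place of `κ`, seen through the assignment `s` -/
def tr (κ : Ord) (s : Asg) (X : Set Asg) : Set Asg :=
  {t | (∀ i, t i < s κ) ∧ (fun i => t (s i)) ∈ X}

/-- the Mitchell order `E ∈ Ult(V, F)`: `E` is represented by the function `H` -/
def Mit (κ μ : Ord) (E F : Set (Set Asg)) : Prop :=
  ∃ H : Asg → Set (Set Asg), FD μ H ∧
    ∀ X : Set Asg, FD μ (fun s => s ∈ X) → (X ∈ E ↔ {s | tr κ s X ∈ H s} ∈ F)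

/-- `μ > κ` is singular and `|V_μ| = μ` (`preBeth μ` is the cardinality of `V_μ`) -/
def IsSingFix (κ μ : Ord) : Prop := κ < μ ∧ μ.cof.ord < μ ∧ (preBeth μ).ord = μ

/-- the restriction of `E` to the indices below `ξ` -/
def restr (ξ : Ord) (E : Set (Set Asg)) : Set (Set Asg) := {X ∈ E | FD ξ (fun s => s ∈ X)}

/-- the filter of all sets containing countably many members of `E` -/
def fil (E : Set (Set Asg)) (hne : E.Nonempty) : Filter Asg where
  sets := {Y | ∃ X : ℕ → Set Asg, (∀ n, X n ∈ E) ∧ (⋂ n, X n) ⊆ Y}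
  univ_sets := by
    obtain ⟨A, hA⟩ := hne
    exact ⟨fun _ => A, fun _ => hA, subset_univ _⟩
  sets_of_superset := by
    rintro Y Z ⟨X, hX, h⟩ hYZ
    exact ⟨X, hX, h.trans hYZ⟩
  inter_sets := by
    rintro Y Z ⟨X, hX, h⟩ ⟨X', hX', h'⟩
    refine ⟨fun n => if n % 2 = 0 then X (n / 2) else X' (n / 2), fun n => ?_, ?_⟩
    · dsimp only
      split_ifs
      · exact hX _
      · exact hX' _
    · intro s hs
      rw [mem_iInter] at hs
      refine ⟨h (mem_iInter.2 fun n => ?_), h' (mem_iInter.2 fun n => ?_)⟩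
      · have := hs (2 * n)
        simpa using this
      · have := hs (2 * n + 1)
        have e1 : (2 * n + 1) % 2 ≠ 0 := by omega
        have e2 : (2 * n + 1) / 2 = n := by omega
        simpa [e1, e2] using this

theorem IsExt.nonempty {κ μ : Ord} {E : Set (Set Asg)} (h : IsExt κ μ E) : E.Nonempty :=
  ⟨_, h.lt κ h.lt_len⟩

/-- the filter of an extender; it is countably complete, and the members of `E` are its members
with finite support -/
def IsExt.F {κ μ : Ord} {E : Set (Set Asg)} (h : IsExt κ μ E) : Filter Asg :=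
  fil E h.nonempty

/-- the function `m` represents the ordinal `μ'` -/
structure Rep {κ μ : Ord} {E : Set (Set Asg)} (h : IsExt κ μ E) (μ' : Ord) (m : Asg → Ord) :
    Prop where
  fd : FD μ m
  le : μ' ≤ μ
  lt : ∀ i < μ', ∀ᶠ s in h.F, s i < m s
  seed : ∀ f : Asg → Ord, FD μ f → (∀ᶠ s in h.F, f s < m s) → ∃ i < μ', ∀ᶠ s in h.F, f s = s i

/-- `ξ` is closed under the ordinals below `μ` of the hull of `ξ` in the ultrapower -/
def HullClosed {κ μ : Ord} {E : Set (Set Asg)} (h : IsExt κ μ E) (ξ : Ord) : Prop :=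
  ∀ f : Asg → Ord, FD ξ f → ∀ γ < μ, (∀ᶠ s in h.F, f s = s γ) → γ < ξ

/-- `m` is (uncountable and) inaccessible, in elementary terms -/
structure RSL (m : Ord) : Prop where
  omega : Ordinal.omega0 < m
  reg : ∀ δ < m, ∀ h : Ord → Ord, ∃ η < m, ∀ γ < δ, h γ < m → h γ < η
  pow : ∀ η < m, ((2 : Cardinal) ^ η.card).ord < m

end Helper2.EX
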