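import Pool.Agent.Helper2.EX.Lift

open Set Cardinal Filter

namespace Helper2.EX

variable {κ μ ρ : Ord} {F G : Set (Set Asg)} {m : Asg → Ord} {H : Asg → Set (Set Asg)}

/-- the field `compl` -/
theorem down_compl (h : IsExt κ ρ F) (hm : Rep h μ m) (hκ : κ < μ) (hG : IsExt κ μ G)
    (hH : FD ρ H)
    (hiff : ∀ X : Set Asg, FD μ (fun s => s ∈ X) → (X ∈ G ↔ ∀ᶠ s in h.F, tr κ s X ∈ H s)) :
    ∀ᶠ s in h.F, ∀ a : Finset Ord, (∀ i ∈ a, i < m s) → ∀ δ < s κ, ∀ X : Ord → Set Asg,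
      (∀ j < δ, X j ∈ cap (s κ) (m s) (H s) ∧
        ∀ t t' : Asg, (∀ i ∈ a, t i = t' i) → (t ∈ X j ↔ t' ∈ X j)) →
      {t | ∀ j < δ, t ∈ X j} ∈ cap (s κ) (m s) (H s) := by
  classical
  have hκρ : κ < ρ := hκ.trans_le hm.le
  have hκc : FD ρ (fun s : Asg => s κ) := FD.coord hκρ
  -- the negation, for a tuple
  let R : Ord → Ord → Set (Set Asg) → (Finset Ord × Ord × (Ord → Set Asg)) → Prop :=
    fun K M HH y => (∀ i ∈ y.1, i < M) ∧ y.2.1 < K ∧
      (∀ j < y.2.1, y.2.2 j ∈ cap K M HH ∧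
        ∀ t t' : Asg, (∀ i ∈ y.1, t i = t' i) → (t ∈ y.2.2 j ↔ t' ∈ y.2.2 j)) ∧
      {t | ∀ j < y.2.1, t ∈ y.2.2 j} ∉ cap K M HH
  have hR : FD ρ (fun s => R (s κ) (m s) (H s)) := FD.map₃ R hκc hm.fd hH
  have hEx : FD ρ (fun s => ∃ y, R (s κ) (m s) (H s) y) :=
    hR.map fun Q : (Finset Ord × Ord × (Ord → Set Asg)) → Prop => ∃ y, Q y
  rcases h.em hEx with hex | hnex
  swap
  · filter_upwards [hnex] with s hs a ha δ hδ X hX
    by_contra hc
    exact hs ⟨(a, δ, X), ha, hδ, hX, hc⟩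
  exfalso
  obtain ⟨y, hy, hyR⟩ := h.ev_choose (P := fun s => R (s κ) (m s) (H s)) hR hex
  -- the length is constant
  obtain ⟨δ, hδ, hδ'⟩ := h.ev_const (f := fun s => (y s).2.1) (hy.map fun p => p.2.1)
    (hyR.mono fun s hs => hs.2.1)
  -- the support
  obtain ⟨b, hb, hb'⟩ := h.ev_exists_finset hm (Q := fun s a => a = (y s).1)
    (hy.map fun p a => a = p.1)
    (hyR.mono fun s hs => ⟨(y s).1, hs.1, rfl⟩)
  have hbρ : ∀ i ∈ b, i < ρ := fun i hi => (hb i hi).trans_le hm.le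
  have hbs : ∀ᶠ s in h.F, ∀ x, x ∈ (y s).1 ↔ ∃ i ∈ b, x = s i := by
    filter_upwards [hb'] with s hs x
    have h1 : ∀ x, x ∈ b.image s ↔ ∃ i ∈ b, x = s i := by
      intro x
      rw [Finset.mem_image]
      exact ⟨fun ⟨i, hi, e⟩ => ⟨i, hi, e.symm⟩, fun ⟨i, hi, e⟩ => ⟨i, hi, e.symm⟩⟩
    rw [← hs _ h1, h1]
  -- lifting
  let Y : Asg → Asg → Ord → Ord → Prop := fun s t x _ => x < (y s).2.1 ∧ t ∈ (y s).2.2 x
  have hY : FD ρ Y := hy.map fun (p : Finset Ord × Ord × (Ord → Set Asg)) (t : Asg) (x : Ord)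
    (_ : Ord) => x < p.2.1 ∧ t ∈ p.2.2 x
  have hsupp : ∀ᶠ s in h.F, ∀ t t' : Asg, (∀ i ∈ b, t (s i) = t' (s i)) → Y s t = Y s t' := by
    filter_upwards [hyR, hbs] with s h1 h2 t t' htt
    funext x z
    refine propext (and_congr_right fun hx => ?_)
    refine (h1.2.2.1 x hx).2 t t' fun i hi => ?_
    obtain ⟨j, hj, rfl⟩ := (h2 i).1 hi
    exact htt j hj
  obtain ⟨f, hf, hfY⟩ := h.lift b hbρ Y hY hsupp
  let X' : Ord → Set Asg := fun j => {u | f u j 0}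
  have hX's : ∀ j, ∀ u u' : Asg, (∀ i ∈ b, u i = u' i) → (u ∈ X' j ↔ u' ∈ X' j) := by
    intro j u u' huu
    have := hf u u' huu
    exact iff_of_eq (congrFun (congrFun this j) 0)
  have hX'FD : ∀ j, FD μ (fun u => u ∈ X' j) := fun j =>
    ⟨b, hb, fun u u' huu => propext (hX's j u u' huu)⟩
  have h0κ : (0 : Ord) < κ := Ordinal.omega0_pos.trans h.omega_lt_kappa
  have hag : ∀ᶠ s in h.F, ∀ t : Asg, (∀ i, t i < s κ) → ∀ j < δ,
      ((fun i => t (s i)) ∈ X' j ↔ t ∈ (y s).2.2 j) := by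
    filter_upwards [hfY, hδ', h.ev_lt_kappa h0κ, h.ev_lt_kappa hδ] with s h1 h2 h3 h4 t ht j hj
    have h5 := h1 t ht j (hj.trans h4) 0 h3
    refine h5.trans ⟨fun h6 => h6.2, fun h6 => ⟨?_, h6⟩⟩
    exact lt_of_lt_of_eq hj h2.symm
  have hX'G : ∀ j < δ, X' j ∈ G := by
    intro j hj
    rw [hiff _ (hX'FD j)]
    filter_upwards [hag, hyR, hδ'] with s h1 h2 h3
    have h4 := (h2.2.2.1 j (lt_of_lt_of_eq hj h3.symm)).1.2
    have h5 : tr κ s (X' j) = {t | (∀ i, t i < s κ) ∧ t ∈ (y s).2.2 j} := by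
      ext t
      exact and_congr_right fun ht => h1 t ht j hj
    rw [h5]
    exact h4
  have hcap : {u | ∀ j < δ, u ∈ X' j} ∈ G :=
    hG.compl b hb δ hδ X' fun j hj => ⟨hX'G j hj, hX's j⟩
  have hcapFD : FD μ (fun u => u ∈ {u | ∀ j < δ, u ∈ X' j}) :=
    ⟨b, hb, fun u u' huu => propext (forall₂_congr fun j _ => hX's j u u' huu)⟩
  have hcap' := (hiff _ hcapFD).1 hcap
  obtain ⟨s, h1, h2, h3, h4⟩ := (hcap'.and (hyR.and (hδ'.and hag))).exists
  have h3' : (y s).2.1 = δ := h3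
  refine h2.2.2.2 ⟨⟨(y s).1, h2.1, fun t t' htt => propext (forall₂_congr fun j hj => ?_)⟩, ?_⟩
  · exact (h2.2.2.1 j hj).2 t t' htt
  · have h5 : {t | (∀ i, t i < s κ) ∧ t ∈ {t | ∀ j < (y s).2.1, t ∈ (y s).2.2 j}} =
        tr κ s {u | ∀ j < δ, u ∈ X' j} := by
      ext t
      refine and_congr_right fun ht => ?_
      simp only [mem_ofPred_eq, h3']
      exact forall₂_congr fun j hj => (h4 t ht j hj).symm
    rw [h5]
    exact h1

/-- the field `cc` -/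
theorem down_cc (h : IsExt κ ρ F) (hm : Rep h μ m) (hκ : κ < μ) (hG : IsExt κ μ G)
    (hH : FD ρ H)
    (hiff : ∀ X : Set Asg, FD μ (fun s => s ∈ X) → (X ∈ G ↔ ∀ᶠ s in h.F, tr κ s X ∈ H s)) :
    ∀ᶠ s in h.F, ∀ X : ℕ → Set Asg, (∀ n, X n ∈ cap (s κ) (m s) (H s)) →
      (⋂ n, X n).Nonempty := by
  classical
  have hκρ : κ < ρ := hκ.trans_le hm.le
  have hκc : FD ρ (fun s : Asg => s κ) := FD.coord hκρ
  let R : Ord → Ord → Set (Set Asg) → (ℕ → Set Asg) → Prop :=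
    fun K M HH X => (∀ n, X n ∈ cap K M HH) ∧ ¬ (⋂ n, X n).Nonempty
  have hR : FD ρ (fun s => R (s κ) (m s) (H s)) := FD.map₃ R hκc hm.fd hH
  have hEx : FD ρ (fun s => ∃ y, R (s κ) (m s) (H s) y) :=
    hR.map fun Q : (ℕ → Set Asg) → Prop => ∃ y, Q y
  rcases h.em hEx with hex | hnex
  swap
  · filter_upwards [hnex] with s hs X hX
    by_contra hc
    exact hs ⟨X, hX, hc⟩
  exfalso
  obtain ⟨X, hX, hXR⟩ := h.ev_choose (P := fun s => R (s κ) (m s) (H s)) hR hex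
  have hlift : ∀ n, ∃ X' : Set Asg, FD μ (fun s => s ∈ X') ∧
      ∀ᶠ s in h.F, ∀ t : Asg, (∀ i, t i < s κ) → (t ∈ EX.push s X' ↔ t ∈ X s n) := fun n =>
    h.lift_set hm (fun s => X s n) (hX.map fun p => p n) (hXR.mono fun s hs => (hs.1 n).1)
  choose X' hX'FD hX'ag using hlift
  have hX'G : ∀ n, X' n ∈ G := by
    intro n
    rw [hiff _ (hX'FD n)]
    filter_upwards [hX'ag n, hXR] with s h1 h2
    have h5 : tr κ s (X' n) = {t | (∀ i, t i < s κ) ∧ t ∈ X s n} := by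
      ext t
      exact and_congr_right fun ht => h1 t ht
    rw [h5]
    exact (h2.1 n).2
  choose b hb hbs using hX'FD
  have hcG := hG.countable
  have hcF := h.countable
  have hu : ∀ᶠ u in hG.F, (∀ n, u ∈ X' n) ∧ ∀ n, ∀ i ∈ b n, u i < κ := by
    refine (eventually_countable_forall.2 fun n => hG.mem_F (hX'G n)).and
      (eventually_countable_forall.2 fun n => ?_)
    exact (eventually_all_finset (b n)).2 fun i hi => hG.ev_lt (hb n i hi)
  obtain ⟨u, hu1, hu2⟩ := hu.exists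
  have h0κ : (0 : Ord) < κ := Ordinal.omega0_pos.trans h.omega_lt_kappa
  have hs1 : ∀ᶠ s in h.F, ∀ n, ∀ i ∈ b n, u i < s κ :=
    eventually_countable_forall.2 fun n =>
      (eventually_all_finset (b n)).2 fun i hi => h.ev_lt_kappa (hu2 n i hi)
  have hs2 : ∀ᶠ s in h.F, ∀ n k, ∀ i ∈ b n, ∀ j ∈ b k, i < j → s i < s j := by
    refine eventually_countable_forall.2 fun n => eventually_countable_forall.2 fun k => ?_
    refine (eventually_all_finset (b n)).2 fun i _ => (eventually_all_finset (b k)).2 fun j hj => ?_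
    by_cases hij : i < j
    · exact (h.ev_mono hij ((hb k j hj).trans_le hm.le)).mono fun s hs _ => hs
    · exact Eventually.of_forall fun s hs => absurd hs hij
  have hs3 : ∀ᶠ s in h.F, ∀ n, ∀ t : Asg, (∀ i, t i < s κ) →
      (t ∈ EX.push s (X' n) ↔ t ∈ X s n) := eventually_countable_forall.2 hX'ag
  obtain ⟨s, h1, h2, h3, h4, h5⟩ :=
    (hs1.and (hs2.and (hs3.and (hXR.and (h.ev_lt_kappa h0κ))))).exists
  let t : Asg := fun j => if hj : ∃ i, (∃ n, i ∈ b n) ∧ s i = j then u hj.choose else 0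
  have ht1 : ∀ n, ∀ i ∈ b n, t (s i) = u i := by
    intro n i hi
    have hj : ∃ i', (∃ n, i' ∈ b n) ∧ s i' = s i := ⟨i, ⟨n, hi⟩, rfl⟩
    have ht : t (s i) = u hj.choose := dif_pos hj
    rw [ht]
    obtain ⟨⟨k, hk⟩, he⟩ := hj.choose_spec
    rcases lt_trichotomy hj.choose i with h6 | h6 | h6
    · exact absurd he (h2 k n _ hk i hi h6).ne
    · rw [h6]
    · exact absurd he (h2 n k i hi _ hk h6).ne'
  have ht2 : ∀ j, t j < s κ := by
    intro j
    by_cases hj : ∃ i, (∃ n, i ∈ b n) ∧ s i = j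
    · have ht : t j = u hj.choose := dif_pos hj
      rw [ht]
      obtain ⟨⟨k, hk⟩, _⟩ := hj.choose_spec
      exact h1 k _ hk
    · have ht : t j = 0 := dif_neg hj
      rw [ht]
      exact h5
  refine h4.2 ⟨t, mem_iInter.2 fun n => (h3 n t ht2).1 ?_⟩
  have h6 := hbs n (fun i => t (s i)) u fun i hi => ht1 n i hi
  have h7 : (fun i => t (s i)) ∈ X' n := by
    have : ((fun i => t (s i)) ∈ X' n) = (u ∈ X' n) := h6
    rw [this]
    exact hu1 n
  exact h7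

end Helper2.EX
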