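import Pool.Agent.Helper2.EX.DownA
import Pool.Agent.Helper2.EX.DownB

open Set Cardinal Filter

namespace Helper2.EX

variable {κ μ ρ : Ord} {F G : Set (Set Asg)} {m : Asg → Ord} {H : Asg → Set (Set Asg)}

theorem IsExt.down (h : IsExt κ ρ F) (hm : Rep h μ m) (hκ : κ < μ) (hG : IsExt κ μ G)
    (hH : FD ρ H)
    (hiff : ∀ X : Set Asg, FD μ (fun s => s ∈ X) → (X ∈ G ↔ ∀ᶠ s in h.F, tr κ s X ∈ H s)) :
    ∀ᶠ s in h.F, IsExt (s κ) (m s) (cap (s κ) (m s) (H s)) := by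
  filter_upwards [down_ultra h hm hκ hG hH hiff, down_mono h hm hκ hG hH hiff,
    down_normal h hm hκ hG hH hiff, down_compl h hm hκ hG hH hiff, down_cc h hm hκ hG hH hiff,
    hm.lt κ hκ] with s h1 h2 h3 h4 h5 h6
  exact ⟨h6, fun X hX => hX.1, h1.1, h1.2, h4, h2.1, h2.2, h3, h5⟩

/-- the functions which represent a witness are witnesses -/
theorem IsWitness.down (h : IsExt κ ρ F) (hm : Rep h μ m) (hκ : κ < μ) (hG : IsWitness κ μ G)
    (hH : FD ρ H)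
    (hiff : ∀ X : Set Asg, FD μ (fun s => s ∈ X) → (X ∈ G ↔ ∀ᶠ s in h.F, tr κ s X ∈ H s)) :
    ∀ᶠ s in h.F, IsWitness (s κ) (m s) (cap (s κ) (m s) (H s)) := by
  have hE := h.down hm hκ hG.1 hH hiff
  have hR : RepExt h μ G (fun s => cap (s κ) (m s) (H s)) :=
    repExt_cap h hm hκ (fun X hX => hG.1.fd X hX) hH hiff
  set Gs : Asg → Set (Set Asg) := fun s => cap (s κ) (m s) (H s) with hGs
  have hP : FD ρ (fun s => ∀ η < m s, ∀ x ⊆ Iio η, InUlt (m s) (Gs s) x) :=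
    FD.map₂ (fun (M : Ord) (E : Set (Set Asg)) => ∀ η < M, ∀ x ⊆ Iio η, InUlt M E x) hm.fd hR.fd
  rcases h.em hP with h1 | h1
  · filter_upwards [hE, h1] with s h2 h3
    exact ⟨h2, h3⟩
  exfalso
  obtain ⟨η, hη, h2⟩ := h.ev_exists_lt hm
    (P := fun s y => ∃ x ⊆ Iio y, ¬ InUlt (m s) (Gs s) x)
    (FD.map₂ (fun (M : Ord) (E : Set (Set Asg)) (y : Ord) => ∃ x ⊆ Iio y, ¬ InUlt M E x)
      hm.fd hR.fd) (h1.mono fun s hs => by push Not at hs; exact hs)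
  have hηρ : η < ρ := hη.trans_le hm.le
  obtain ⟨xs, hxs, h3⟩ := h.ev_choose
    (P := fun s (x : Set Ord) => x ⊆ Iio (s η) ∧ ¬ InUlt (m s) (Gs s) x)
    (FD.map₃ (fun (y M : Ord) (E : Set (Set Asg)) (x : Set Ord) => x ⊆ Iio y ∧ ¬ InUlt M E x)
      (FD.coord hηρ) hm.fd hR.fd) (h2.mono fun s hs => by
        obtain ⟨x, hx1, hx2⟩ := hs
        exact ⟨x, hx1, hx2⟩)
  obtain ⟨g, hg1, hg2⟩ := hG.2 η hη {i | i < η ∧ ∀ᶠ s in h.F, s i ∈ xs s} fun i hi => hi.1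
  have hfd := h.ev_fd_comp hm hg1
  have hgs : FD ρ (fun (s : Asg) (t : Asg) => g (fun i => t (s i))) :=
    (FD.comp_push hg1).mono hm.le
  have hall : ∀ᶠ s in h.F, ∀ y < m s,
      (y ∈ xs s ↔ {t : Asg | t y ∈ g (fun i => t (s i))} ∈ Gs s) := by
    refine h.ev_forall_lt hm
      (P := fun s y => (y ∈ xs s ↔ {t : Asg | t y ∈ g (fun i => t (s i))} ∈ Gs s))
      (FD.map₃ (fun (a : Set Ord) (b : Asg → Set Ord) (c : Set (Set Asg)) (y : Ord) =>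
        (y ∈ a ↔ {t : Asg | t y ∈ b t} ∈ c)) hxs hgs hR.fd) fun i hi => ?_
    have hiρ : i < ρ := hi.trans_le hm.le
    have hX : FD μ (fun u => u ∈ {u : Asg | u i ∈ g u}) :=
      FD.map₂ (fun (a : Ord) (b : Set Ord) => a ∈ b) (FD.coord hi) hg1
    have hXiff := hR.iff _ hX
    have hfdX : FD ρ (fun s => EX.push s {u : Asg | u i ∈ g u} ∈ Gs s) :=
      FD.map₂ (fun (a : Set Asg) (b : Set (Set Asg)) => a ∈ b) (hX.push.mono hm.le) hR.fd
    have hfdx : FD ρ (fun s => s i ∈ xs s) :=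
      FD.map₂ (fun (a : Ord) (b : Set Ord) => a ∈ b) (FD.coord hiρ) hxs
    by_cases hix : i ∈ {i | i < η ∧ ∀ᶠ s in h.F, s i ∈ xs s}
    · have h5 := hXiff.1 ((hg2 i hi).1 hix)
      filter_upwards [hix.2, h5] with s h6 h7
      exact ⟨fun _ => h7, fun _ => h6⟩
    · have h5 : ∀ᶠ s in h.F, ¬ (EX.push s {u : Asg | u i ∈ g u} ∈ Gs s) := by
        rw [h.ev_not hfdX]
        intro h6
        exact hix ((hg2 i hi).2 (hXiff.2 h6))
      have h6 : ∀ᶠ s in h.F, ¬ (s i ∈ xs s) := by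
        by_cases hiη : i < η
        · rw [h.ev_not hfdx]
          intro h7
          exact hix ⟨hiη, h7⟩
        · filter_upwards [h3, h.ev_mono' (not_lt.1 hiη) hiρ] with s h7 h8 h9
          exact absurd (h7.1 h9) (not_lt.2 h8)
      filter_upwards [h5, h6] with s h7 h8
      exact ⟨fun h9 => absurd h9 h8, fun h9 => absurd h9 h7⟩
  obtain ⟨s, ⟨h4, h5⟩, h6⟩ := ((hfd.and hall).and h3).exists
  exact h6.2 ⟨fun t => g (fun i => t (s i)), h4, h5⟩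

end Helper2.EX
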