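import Pool.Agent.Helper2.EX.Lift

open Set Cardinal Filter

namespace Helper2.EX

variable {κ μ ρ : Ord} {F G : Set (Set Asg)} {m : Asg → Ord} {H : Asg → Set (Set Asg)}

namespace DownA

/-- the common part of the three proofs -/
private theorem ctx (h : IsExt κ ρ F) (hm : Rep h μ m) (hκ : κ < μ) (hG : IsExt κ μ G)
    (hH : FD ρ H)
    (hiff : ∀ X : Set Asg, FD μ (fun s => s ∈ X) → (X ∈ G ↔ ∀ᶠ s in h.F, tr κ s X ∈ H s)) :
    ∃ C : Asg → Set (Set Asg), (∀ s, C s = cap (s κ) (m s) (H s)) ∧ FD ρ C ∧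
      (∀ X : Set Asg, FD μ (fun s => s ∈ X) → (X ∈ G ↔ ∀ᶠ s in h.F, push s X ∈ C s)) ∧
      (∀ (s : Asg) (Y Y' : Set Asg), FD (m s) (fun t => t ∈ Y') →
        (∀ t : Asg, (∀ i, t i < s κ) → (t ∈ Y ↔ t ∈ Y')) → Y ∈ C s → Y' ∈ C s) ∧
      (∀ (s : Asg) (Y : Set Asg), Y ∈ C s → FD (m s) (fun t => t ∈ Y)) := by
  have hr := repExt_cap h hm hκ hG.fd hH hiff
  refine ⟨fun s => cap (s κ) (m s) (H s), fun s => rfl, hr.fd, hr.iff, ?_, ?_⟩
  · intro s Y Y' hY' hag hY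
    refine ⟨hY', ?_⟩
    have e : ({t : Asg | (∀ i, t i < s κ) ∧ t ∈ Y} : Set Asg) = {t | (∀ i, t i < s κ) ∧ t ∈ Y'} := by
      ext t
      exact and_congr_right (hag t)
    rw [← e]
    exact hY.2
  · intro s Y hY
    exact hY.1

private theorem inter_mem' (hG : IsExt κ μ G) {X Y : Set Asg} (hX : X ∈ G) (hY : Y ∈ G) :
    X ∩ Y ∈ G := by
  have hfd : FD μ (fun s => s ∈ X ∩ Y) := FD.map₂ And (hG.fd X hX) (hG.fd Y hY)
  exact (hG.mem_F_iff hfd).1 (hG.F.inter_sets (hG.mem_F hX) (hG.mem_F hY))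

private theorem empty_notMem (hG : IsExt κ μ G) : (∅ : Set Asg) ∉ G := by
  intro he
  obtain ⟨s, hs⟩ := hG.cc (fun _ => ∅) (fun _ => he)
  simp at hs

private theorem univ_mem' (hG : IsExt κ μ G) : (univ : Set Asg) ∈ G :=
  (hG.mem_F_iff (FD.const μ True)).1 hG.F.univ_sets

end DownA

open DownA in
/-- the fields `fd`, `ultra`, `up` -/
theorem down_ultra (h : IsExt κ ρ F) (hm : Rep h μ m) (hκ : κ < μ) (hG : IsExt κ μ G)
    (hH : FD ρ H)
    (hiff : ∀ X : Set Asg, FD μ (fun s => s ∈ X) → (X ∈ G ↔ ∀ᶠ s in h.F, tr κ s X ∈ H s)) :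
    ∀ᶠ s in h.F, (∀ X : Set Asg, FD (m s) (fun t => t ∈ X) →
        (X ∈ cap (s κ) (m s) (H s) ↔ Xᶜ ∉ cap (s κ) (m s) (H s))) ∧
      (∀ X Y : Set Asg, X ∈ cap (s κ) (m s) (H s) → X ⊆ Y → FD (m s) (fun t => t ∈ Y) →
        Y ∈ cap (s κ) (m s) (H s)) := by
  obtain ⟨C, hCs, hC, hrep, hcong, hfdC⟩ := ctx h hm hκ hG hH hiff
  have part1 : ∀ᶠ s in h.F, ∀ X : Set Asg, FD (m s) (fun t => t ∈ X) →
      (X ∈ C s ↔ Xᶜ ∉ C s) := by
    have hP : FD ρ (fun s => ∀ X : Set Asg, FD (m s) (fun t => t ∈ X) →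
        (X ∈ C s ↔ Xᶜ ∉ C s)) :=
      FD.map₂ (fun (M : Ord) (CC : Set (Set Asg)) => ∀ X : Set Asg, FD M (fun t => t ∈ X) →
        (X ∈ CC ↔ Xᶜ ∉ CC)) hm.fd hC
    refine (h.em hP).resolve_right fun hc => ?_
    have hPP : FD ρ (fun (s : Asg) (X : Set Asg) => FD (m s) (fun t => t ∈ X) ∧
        ¬ (X ∈ C s ↔ Xᶜ ∉ C s)) :=
      FD.map₂ (fun (M : Ord) (CC : Set (Set Asg)) (X : Set Asg) => FD M (fun t => t ∈ X) ∧
        ¬ (X ∈ CC ↔ Xᶜ ∉ CC)) hm.fd hC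
    obtain ⟨Y, hY, hY2⟩ := h.ev_choose hPP (hc.mono fun s hs => by
      by_contra hne
      apply hs
      intro X hX
      by_contra hX2
      exact hne ⟨X, hX, hX2⟩)
    obtain ⟨X, hX, hX2⟩ := h.lift_set hm Y hY (hY2.mono fun s hs => hs.1)
    have hXc : FD μ (fun s => s ∈ Xᶜ) := hX.map Not
    have em1 : (∀ᶠ s in h.F, push s X ∈ C s) ∨ (∀ᶠ s in h.F, ¬ push s X ∈ C s) :=
      h.em (FD.map₂ (fun (A : Set Asg) (CC : Set (Set Asg)) => A ∈ CC) (hX.push.mono hm.le) hC)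
    have em2 : (∀ᶠ s in h.F, push s Xᶜ ∈ C s) ∨ (∀ᶠ s in h.F, ¬ push s Xᶜ ∈ C s) :=
      h.em (FD.map₂ (fun (A : Set Asg) (CC : Set (Set Asg)) => A ∈ CC) (hXc.push.mono hm.le) hC)
    have agr : ∀ᶠ s in h.F, (Y s ∈ C s ↔ push s X ∈ C s) ∧ ((Y s)ᶜ ∈ C s ↔ push s Xᶜ ∈ C s) := by
      filter_upwards [hX2, hY2, h.ev_fd_push hm hX, h.ev_fd_push hm hXc] with s h1 h2 h3 h4
      have h5 : FD (m s) (fun t => t ∈ (Y s)ᶜ) := h2.1.map Not
      refine ⟨⟨hcong s _ _ h3 fun t ht => (h1 t ht).symm, hcong s _ _ h2.1 fun t ht => h1 t ht⟩,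
        ⟨hcong s _ _ h4 fun t ht => ?_, hcong s _ _ h5 fun t ht => ?_⟩⟩
      · exact not_congr (h1 t ht).symm
      · exact not_congr (h1 t ht)
    by_cases hXG : X ∈ G
    · have c1 := (hrep X hX).1 hXG
      have c2 : Xᶜ ∉ G := (hG.ultra X hX).1 hXG
      have c3 := em2.resolve_left (fun h' => c2 ((hrep Xᶜ hXc).2 h'))
      obtain ⟨s, d1, d3, d4, d5⟩ := (c1.and (c3.and (agr.and hY2))).exists
      exact d5.2 (iff_of_true (d4.1.2 d1) fun h' => d3 (d4.2.1 h'))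
    · have c2 : Xᶜ ∈ G := by
        by_contra hn
        exact hXG ((hG.ultra X hX).2 hn)
      have c1 := em1.resolve_left (fun h' => hXG ((hrep X hX).2 h'))
      have c3 := (hrep Xᶜ hXc).1 c2
      obtain ⟨s, d1, d3, d4, d5⟩ := (c1.and (c3.and (agr.and hY2))).exists
      exact d5.2 (iff_of_false (fun h' => d1 (d4.1.1 h')) (not_not.2 (d4.2.2 d3)))
  have part2 : ∀ᶠ s in h.F, ∀ X Y : Set Asg, X ∈ C s → X ⊆ Y → FD (m s) (fun t => t ∈ Y) →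
      Y ∈ C s := by
    have hP : FD ρ (fun s => ∀ X Y : Set Asg, X ∈ C s → X ⊆ Y → FD (m s) (fun t => t ∈ Y) →
        Y ∈ C s) :=
      FD.map₂ (fun (M : Ord) (CC : Set (Set Asg)) => ∀ X Y : Set Asg, X ∈ CC → X ⊆ Y →
        FD M (fun t => t ∈ Y) → Y ∈ CC) hm.fd hC
    refine (h.em hP).resolve_right fun hc => ?_
    have hPP : FD ρ (fun (s : Asg) (Z : Set Asg × Set Asg) => Z.1 ∈ C s ∧ Z.1 ⊆ Z.2 ∧
        FD (m s) (fun t => t ∈ Z.2) ∧ Z.2 ∉ C s) :=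
      FD.map₂ (fun (M : Ord) (CC : Set (Set Asg)) (Z : Set Asg × Set Asg) => Z.1 ∈ CC ∧
        Z.1 ⊆ Z.2 ∧ FD M (fun t => t ∈ Z.2) ∧ Z.2 ∉ CC) hm.fd hC
    obtain ⟨Z, hZ, hZ2⟩ := h.ev_choose hPP (hc.mono fun s hs => by
      by_contra hne
      apply hs
      intro X Y hX hXY hY
      by_contra hY2
      exact hne ⟨(X, Y), hX, hXY, hY, hY2⟩)
    obtain ⟨X, hX, hX2⟩ := h.lift_set hm (fun s => (Z s).1) (hZ.map Prod.fst)
      (hZ2.mono fun s hs => hfdC s _ hs.1)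
    obtain ⟨Y, hY, hY2⟩ := h.lift_set hm (fun s => (Z s).2) (hZ.map Prod.snd)
      (hZ2.mono fun s hs => hs.2.2.1)
    have hXG : X ∈ G := (hrep X hX).2 (by
      filter_upwards [hX2, hZ2, h.ev_fd_push hm hX] with s h1 h2 h3
      exact hcong s _ _ h3 (fun t ht => (h1 t ht).symm) h2.1)
    have hYG : Y ∉ G := fun hYG => by
      have h0 := (hrep Y hY).1 hYG
      obtain ⟨s, h1, h2, h3⟩ := (h0.and (hY2.and hZ2)).exists
      exact h3.2.2.2 (hcong s _ _ h3.2.2.1 (fun t ht => h2 t ht) h1)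
    have hYc : Yᶜ ∈ G := by
      by_contra hn
      exact hYG ((hG.ultra Y hY).2 hn)
    have hXY := inter_mem' hG hXG hYc
    have hev := (hrep _ (hG.fd _ hXY)).1 hXY
    refine absurd ((hrep ∅ (FD.const μ False)).2 ?_) (empty_notMem hG)
    filter_upwards [hev, hX2, hY2, hZ2] with s h1 h2 h3 h4
    refine hcong s _ _ (FD.const _ False) (fun t ht => ?_) h1
    refine iff_of_false (fun h5 => ?_) (fun h5 => h5)
    have h6 : t ∈ push s X := h5.1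
    have h7 : ¬ t ∈ push s Y := h5.2
    exact h7 ((h3 t ht).2 (h4.2.1 ((h2 t ht).1 h6)))
  filter_upwards [part1, part2] with s h1 h2
  rw [hCs s] at h1 h2
  exact ⟨h1, h2⟩

open DownA in
/-- the fields `lt`, `mono` -/
theorem down_mono (h : IsExt κ ρ F) (hm : Rep h μ m) (hκ : κ < μ) (hG : IsExt κ μ G)
    (hH : FD ρ H)
    (hiff : ∀ X : Set Asg, FD μ (fun s => s ∈ X) → (X ∈ G ↔ ∀ᶠ s in h.F, tr κ s X ∈ H s)) :
    ∀ᶠ s in h.F, (∀ i < m s, {t : Asg | t i < s κ} ∈ cap (s κ) (m s) (H s)) ∧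
      (∀ i j, i < j → j < m s → {t : Asg | t i < t j} ∈ cap (s κ) (m s) (H s)) := by
  obtain ⟨C, hCs, hC, hrep, hcong, hfdC⟩ := ctx h hm hκ hG hH hiff
  have hκρ : κ < ρ := hκ.trans_le hm.le
  have part1 : ∀ᶠ s in h.F, ∀ i < m s, {t : Asg | t i < s κ} ∈ C s := by
    refine h.ev_forall_lt hm (P := fun s i => {t : Asg | t i < s κ} ∈ C s)
      (FD.map₂ (fun (k : Ord) (CC : Set (Set Asg)) (i : Ord) => {t : Asg | t i < k} ∈ CC)
        (FD.coord hκρ) hC) fun i hi => ?_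
    filter_upwards [(hrep univ (FD.const μ True)).1 (univ_mem' hG), hm.lt i hi] with s h1 h2
    refine hcong s _ _ ?_ (fun t ht => ?_) h1
    · exact (FD.coord h2).map fun x => x < s κ
    · exact iff_of_true trivial (ht (s i))
  have part2 : ∀ᶠ s in h.F, ∀ j < m s, ∀ i < j, {t : Asg | t i < t j} ∈ C s := by
    refine h.ev_forall_lt hm (P := fun s j => ∀ i < j, {t : Asg | t i < t j} ∈ C s)
      (hC.map fun (CC : Set (Set Asg)) (j : Ord) => ∀ i < j, {t : Asg | t i < t j} ∈ CC)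
      fun j hj => ?_
    have hjρ : j < ρ := hj.trans_le hm.le
    refine h.ev_forall_lt (h.rep_coord hjρ) (P := fun s i => {t : Asg | t i < t (s j)} ∈ C s)
      (FD.map₂ (fun (k : Ord) (CC : Set (Set Asg)) (i : Ord) => {t : Asg | t i < t k} ∈ CC)
        (FD.coord hjρ) hC) fun i hi => ?_
    exact (hrep _ (hG.fd _ (hG.mono i j hi hj))).1 (hG.mono i j hi hj)
  filter_upwards [part1, part2] with s h1 h2
  rw [hCs s] at h1 h2
  exact ⟨h1, fun i j hij hj => h2 j hj i hij⟩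

open DownA in
/-- the field `normal` -/
theorem down_normal (h : IsExt κ ρ F) (hm : Rep h μ m) (hκ : κ < μ) (hG : IsExt κ μ G)
    (hH : FD ρ H)
    (hiff : ∀ X : Set Asg, FD μ (fun s => s ∈ X) → (X ∈ G ↔ ∀ᶠ s in h.F, tr κ s X ∈ H s)) :
    ∀ᶠ s in h.F, ∀ f : Asg → Ord, FD (m s) f → ∀ i < m s,
      {t | f t < t i} ∈ cap (s κ) (m s) (H s) →
      ∃ j < i, {t | f t = t j} ∈ cap (s κ) (m s) (H s) := by
  obtain ⟨C, hCs, hC, hrep, hcong, hfdC⟩ := ctx h hm hκ hG hH hiff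
  have part : ∀ᶠ s in h.F, ∀ f : Asg → Ord, FD (m s) f → ∀ i < m s,
      {t | f t < t i} ∈ C s → ∃ j < i, {t | f t = t j} ∈ C s := by
    have hP : FD ρ (fun s => ∀ f : Asg → Ord, FD (m s) f → ∀ i < m s,
        {t | f t < t i} ∈ C s → ∃ j < i, {t | f t = t j} ∈ C s) :=
      FD.map₂ (fun (M : Ord) (CC : Set (Set Asg)) => ∀ f : Asg → Ord, FD M f → ∀ i < M,
        {t | f t < t i} ∈ CC → ∃ j < i, {t | f t = t j} ∈ CC) hm.fd hC
    refine (h.em hP).resolve_right fun hc => ?_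
    have hPP : FD ρ (fun (s : Asg) (Z : (Asg → Ord) × Ord) => FD (m s) Z.1 ∧ Z.2 < m s ∧
        {t | Z.1 t < t Z.2} ∈ C s ∧ ∀ j < Z.2, {t | Z.1 t = t j} ∉ C s) :=
      FD.map₂ (fun (M : Ord) (CC : Set (Set Asg)) (Z : (Asg → Ord) × Ord) => FD M Z.1 ∧ Z.2 < M ∧
        {t | Z.1 t < t Z.2} ∈ CC ∧ ∀ j < Z.2, {t | Z.1 t = t j} ∉ CC) hm.fd hC
    obtain ⟨Z, hZ, hZ2⟩ := h.ev_choose hPP (hc.mono fun s hs => by
      by_contra hne
      apply hs
      intro f hf i hi hfi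
      by_contra hj
      exact hne ⟨(f, i), hf, hi, hfi, fun j hj1 hj2 => hj ⟨j, hj1, hj2⟩⟩)
    obtain ⟨i, hi, hiZ⟩ := hm.seed (fun s => (Z s).2) (hZ.map Prod.snd)
      (hZ2.mono fun s hs => hs.2.1)
    have hiρ : i < ρ := hi.trans_le hm.le
    obtain ⟨f', hf', hf2⟩ := h.lift' hm (fun s t x _ => (Z s).1 t = x)
      (hZ.map fun (z : (Asg → Ord) × Ord) (t : Asg) (x : Ord) (_ : Ord) => z.1 t = x)
      (hZ2.mono fun s hs => hs.1.map fun (v : Ord) (x : Ord) (_ : Ord) => v = x)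
    -- the real set where the value is below `u i`
    have fd1 : FD μ (fun u => u ∈ {u : Asg | ∃ x, f' u x 0 ∧ x < u i}) :=
      FD.map₂ (fun (g : Ord → Ord → Prop) (y : Ord) => ∃ x, g x 0 ∧ x < y) hf' (FD.coord hi)
    have m1 : {u : Asg | ∃ x, f' u x 0 ∧ x < u i} ∈ G := (hrep _ fd1).2 (by
      filter_upwards [hf2, hZ2, hiZ, h.ev_fd_push hm fd1,
        h.ev_lt_kappa (Ordinal.omega0_pos.trans h.omega_lt_kappa)] with s h1 h2 h3 h4 h5
      refine hcong s _ _ h4 (fun t ht => ?_) h2.2.2.1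
      constructor
      · intro h6
        have h7 : (Z s).1 t < t (s i) := by rw [← h3]; exact h6
        exact ⟨(Z s).1 t, (h1 t ht _ (h7.trans (ht _)) 0 h5).2 rfl, h7⟩
      · rintro ⟨x, h7, h8⟩
        have h9 : (Z s).1 t = x := (h1 t ht x (lt_trans h8 (ht _)) 0 h5).1 h7
        show (Z s).1 t < t (Z s).2
        rw [h9, h3]
        exact h8)
    have hg : FD μ (fun u : Asg => sInf {x | f' u x 0}) :=
      hf'.map fun (g : Ord → Ord → Prop) => sInf {x | g x 0}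
    have fd2 : FD μ (fun u => u ∈ {u : Asg | sInf {x | f' u x 0} < u i}) :=
      FD.map₂ (fun x y => x < y) hg (FD.coord hi)
    have m2 : {u : Asg | sInf {x | f' u x 0} < u i} ∈ G := by
      refine hG.up _ _ m1 ?_ fd2
      rintro u ⟨x, hx, hxi⟩
      have h1 : sInf {x | f' u x 0} ≤ x := csInf_le' hx
      exact lt_of_le_of_lt h1 hxi
    obtain ⟨j, hj, m3⟩ := hG.normal _ hg i hi m2
    have hjμ : j < μ := hj.trans hi
    have fd3 : FD μ (fun u => u ∈ {u : Asg | f' u (u j) 0}) :=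
      FD.map₂ (fun (g : Ord → Ord → Prop) (y : Ord) => g y 0) hf' (FD.coord hjμ)
    have m4 : {u : Asg | f' u (u j) 0} ∈ G := by
      refine hG.up _ _ (inter_mem' hG m3 m1) ?_ fd3
      rintro u ⟨h1, x, hx, hxi⟩
      have h2 : sInf {x | f' u x 0} ∈ {x | f' u x 0} := csInf_mem ⟨x, hx⟩
      have h3 : sInf {x | f' u x 0} = u j := h1
      rw [h3] at h2
      exact h2
    have m5 := (hrep _ fd3).1 m4
    obtain ⟨s, h1, h2, h3, h4, h5, h6, h7⟩ := (m5.and (hf2.and (hZ2.and (hiZ.and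
      ((h.ev_mono hj hiρ).and ((hm.lt j hjμ).and
      (h.ev_lt_kappa (Ordinal.omega0_pos.trans h.omega_lt_kappa)))))))).exists
    refine h3.2.2.2 (s j) (by rw [h4]; exact h5) (hcong s _ _ ?_ (fun t ht => ?_) h1)
    · exact FD.map₂ (fun x y => x = y) h3.1 (FD.coord h6)
    · exact h2 t ht (t (s j)) (ht _) 0 h7
  filter_upwards [part] with s h1
  rw [hCs s] at h1
  exact h1

end Helper2.EX
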