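import Pool.Agent.Helper2.EX.Lift

open Set Cardinal Filter

namespace Helper2.EX

variable {κ μ ρ : Ord} {F G : Set (Set Asg)} {m : Asg → Ord}

theorem SingIn.down (h : IsExt κ ρ F) (hm : Rep h μ m) {Gs : Asg → Set (Set Asg)}
    (hr : RepExt h μ G Gs) (hs : SingIn μ G) : ∀ᶠ s in h.F, SingIn (m s) (Gs s) := by
  obtain ⟨δ, hδ, h0, hh0, H⟩ := hs
  have hδρ : δ < ρ := hδ.trans_le hm.le
  have hP : FD ρ (fun (s : Asg) (x : Ord) => ∃ γ < s δ, ∃ ζ, x ≤ ζ ∧ ζ < m s ∧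
      {t : Asg | h0 (fun i => t (s i)) (t γ) = t ζ} ∈ Gs s) := by
    have h1 : FD ρ (fun (s : Asg) (t : Asg) => h0 (fun i => t (s i))) :=
      (FD.comp_push hh0).mono hm.le
    exact FD.map₃ (fun (p : Ord × Ord) (k : Asg → Ord → Ord) (C : Set (Set Asg)) (x : Ord) =>
      ∃ γ < p.1, ∃ ζ, x ≤ ζ ∧ ζ < p.2 ∧ {t : Asg | k t (t γ) = t ζ} ∈ C)
      (FD.map₂ Prod.mk (FD.coord hδρ) hm.fd) h1 hr.fd
  have hall := h.ev_forall_lt hm hP (fun η hη => by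
    obtain ⟨γ, hγ, ζ, hηζ, hζ, hX⟩ := H η hη
    have h1 := (hr.iff _ (hr.fdG _ hX)).1 hX
    filter_upwards [h1, h.ev_mono hγ hδρ, h.ev_mono' hηζ (hζ.trans_le hm.le), hm.lt ζ hζ]
      with s h2 h3 h4 h5
    exact ⟨s γ, h3, s ζ, h4, h5, h2⟩)
  filter_upwards [hall, hm.lt δ hδ, h.ev_fd_comp hm hh0] with s h1 h2 h3
  exact ⟨s δ, h2, fun t => h0 (fun i => t (s i)), h3, h1⟩

theorem SingIn.up (h : IsExt κ ρ F) (hm : Rep h μ m) {Gs : Asg → Set (Set Asg)}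
    (hr : RepExt h μ G Gs) (hGs : ∀ᶠ s in h.F, IsExt (s κ) (m s) (Gs s))
    (hs : ∀ᶠ s in h.F, SingIn (m s) (Gs s)) : SingIn μ G := by
  classical
  -- choose the data
  have hP : FD ρ (fun (s : Asg) (y : Ord × (Asg → Ord → Ord)) => y.1 < m s ∧ FD (m s) y.2 ∧
      ∀ η < m s, ∃ γ < y.1, ∃ ζ, η ≤ ζ ∧ ζ < m s ∧ {t : Asg | y.2 t (t γ) = t ζ} ∈ Gs s) :=
    FD.map₂ (fun (M : Ord) (C : Set (Set Asg)) (y : Ord × (Asg → Ord → Ord)) =>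
      y.1 < M ∧ FD M y.2 ∧
      ∀ η < M, ∃ γ < y.1, ∃ ζ, η ≤ ζ ∧ ζ < M ∧ {t : Asg | y.2 t (t γ) = t ζ} ∈ C)
      hm.fd hr.fd
  obtain ⟨f, hf, hf2⟩ := h.ev_choose hP (hs.mono fun s hs' => by
    obtain ⟨δ, hδ, k, hk, H⟩ := hs'
    exact ⟨(δ, k), hδ, hk, H⟩)
  obtain ⟨δ, hδ, hδf⟩ := hm.seed (fun s => (f s).1) (hf.map Prod.fst)
    (hf2.mono fun s hs' => hs'.1)
  have hδρ : δ < ρ := hδ.trans_le hm.le
  obtain ⟨g, hg, hg2⟩ := h.lift' hm (fun s t x y => (f s).2 t x = y)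
    (hf.map fun (p : Ord × (Asg → Ord → Ord)) (t : Asg) (x y : Ord) => p.2 t x = y)
    (hf2.mono fun s hs' => FD.map (fun (k : Ord → Ord) (x y : Ord) => k x = y) hs'.2.1)
  set hst : Asg → Ord → Ord := fun u x =>
    if ∃ y, g u x y then sInf {y | g u x y} else κ with hhst
  have hstFD : FD μ hst :=
    hg.map fun (Q : Ord → Ord → Prop) x => if ∃ y, Q x y then sInf {y | Q x y} else κ
  refine ⟨δ, hδ, hst, hstFD, fun η hη => ?_⟩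
  have hηρ : η < ρ := hη.trans_le hm.le
  -- find ζ
  have hP1 : FD ρ (fun (s : Asg) (z : Ord) => ∃ γ < s δ, s η ≤ z ∧
      {t : Asg | (f s).2 t (t γ) = t z} ∈ Gs s) :=
    FD.map₃ (fun (p : Ord × Ord) (q : Ord × (Asg → Ord → Ord)) (C : Set (Set Asg)) (z : Ord) =>
      ∃ γ < p.1, p.2 ≤ z ∧ {t : Asg | q.2 t (t γ) = t z} ∈ C)
      (FD.map₂ Prod.mk (FD.coord hδρ) (FD.coord hηρ)) hf hr.fd
  obtain ⟨ζ, hζ, h1⟩ := h.ev_exists_lt hm hP1 (by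
    filter_upwards [hf2, hδf, hm.lt η hη] with s h1 h2 h3
    obtain ⟨γ, hγ, ζ, h4, h5, h6⟩ := h1.2.2 (s η) h3
    exact ⟨ζ, h5, γ, h2 ▸ hγ, h4, h6⟩)
  have hζρ : ζ < ρ := hζ.trans_le hm.le
  -- find γ
  have hP2 : FD ρ (fun (s : Asg) (z : Ord) => {t : Asg | (f s).2 t (t z) = t (s ζ)} ∈ Gs s) :=
    FD.map₃ (fun (w : Ord) (q : Ord × (Asg → Ord → Ord)) (C : Set (Set Asg)) (z : Ord) =>
      {t : Asg | q.2 t (t z) = t w} ∈ C) (FD.coord hζρ) hf hr.fd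
  obtain ⟨γ, hγ, h2⟩ := h.ev_exists_lt (h.rep_coord hδρ) hP2 (by
    filter_upwards [h1] with s h3
    obtain ⟨γ, hγ, -, h4⟩ := h3
    exact ⟨γ, hγ, h4⟩)
  have hγμ : γ < μ := hγ.trans hδ
  have hηζ : η ≤ ζ := h.le_of_ev hηρ (h1.mono fun s hs' => by
    obtain ⟨-, -, h4, -⟩ := hs'
    exact h4)
  refine ⟨γ, hγ, ζ, hηζ, hζ, ?_⟩
  have hXfd : FD μ (fun u : Asg => u ∈ {u : Asg | hst u (u γ) = u ζ}) :=
    FD.map₃ (fun (k : Ord → Ord) (x y : Ord) => k x = y) hstFD (FD.coord hγμ) (FD.coord hζ)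
  rw [hr.iff _ hXfd]
  filter_upwards [h2, hf2, hg2, hGs, h.ev_fd_push hm hXfd, hm.lt γ hγμ, hm.lt ζ hζ,
    h.ev_lt h.lt_len] with s h2 hf2 hg2 hGs hpush hγs hζs hκs
  have hY' : FD (m s) (fun t : Asg => t ∈ {t : Asg | (f s).2 t (t (s γ)) = t (s ζ)}) :=
    FD.map₃ (fun (k : Ord → Ord) (x y : Ord) => k x = y) hf2.2.1 (FD.coord hγs) (FD.coord hζs)
  rw [hGs.mem_iff_of_agree hpush hY' ?_]
  · exact h2
  intro t ht
  have hg3 : ∀ y < s κ, (g (fun i => t (s i)) (t (s γ)) y ↔ (f s).2 t (t (s γ)) = y) :=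
    fun y hy => hg2 t ht _ (ht _) y hy
  rw [mem_push, mem_ofPred_eq, mem_ofPred_eq]
  constructor
  · intro h5
    simp only [hhst] at h5
    split_ifs at h5 with h6
    · have h7 : g (fun i => t (s i)) (t (s γ)) (sInf {y | g (fun i => t (s i)) (t (s γ)) y}) :=
        csInf_mem h6
      rw [h5] at h7
      exact (hg3 _ (ht _)).1 h7
    · exact absurd h5 (ne_of_gt ((ht (s ζ)).trans hκs))
  · intro h5
    have h6 : g (fun i => t (s i)) (t (s γ)) (t (s ζ)) := (hg3 _ (ht _)).2 h5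
    simp only [hhst]
    rw [if_pos ⟨_, h6⟩]
    have h7 : g (fun i => t (s i)) (t (s γ)) (sInf {y | g (fun i => t (s i)) (t (s γ)) y}) :=
      csInf_mem (s := {y | g (fun i => t (s i)) (t (s γ)) y}) ⟨_, h6⟩
    have h8 : sInf {y | g (fun i => t (s i)) (t (s γ)) y} ≤ t (s ζ) := csInf_le' h6
    have h9 := (hg3 _ (h8.trans_lt (ht _))).1 h7
    exact h9.symm.trans h5

/-- good implies singular -/
theorem SingIn.cof_lt (hG : IsExt κ μ G) (hμ : (preBeth μ).ord = μ) (hs : SingIn μ G) :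
    μ.cof.ord < μ := by
  classical
  obtain ⟨δ, hδ, k, hk, H⟩ := hs
  by_contra hc
  have he : μ.cof.ord = μ := le_antisymm (Ordinal.ord_cof_le μ) (not_lt.1 hc)
  have hμ0 : 0 < μ := (zero_le).trans_lt hδ
  set g : Iio δ → Ord := fun γ =>
    if hex : ∃ ζ, ζ < μ ∧ {s : Asg | k s (s γ.1) = s ζ} ∈ G then hex.choose else 0 with hg
  have hg1 : ∀ γ, g γ < μ := by
    intro γ
    simp only [hg]
    split_ifs with h1
    · exact h1.choose_spec.1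
    · exact hμ0
  have hlt : (⨆ γ, g γ + 1) < μ := by
    refine Ordinal.lift_iSup_add_one_lt_of_lt_cof ?_ hg1
    rw [mk_Iio_ordinal, ← Ordinal.lift_cof, Cardinal.lift_id']
    refine Cardinal.lift_lt.2 ?_
    exact lt_ord.1 (by rwa [he])
  obtain ⟨γ, hγ, ζ, hηζ, hζ, hX⟩ := H _ hlt
  have hex : ∃ ζ, ζ < μ ∧ {s : Asg | k s (s γ) = s ζ} ∈ G := ⟨ζ, hζ, hX⟩
  have h5 : g ⟨γ, hγ⟩ < ⨆ γ, g γ + 1 := Ordinal.lt_iSup_add_one g ⟨γ, hγ⟩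
  have h6 : g ⟨γ, hγ⟩ = hex.choose := by
    simp only [hg]
    rw [dif_pos hex]
  have h7 : ζ = g ⟨γ, hγ⟩ := by
    rw [h6]
    refine hG.eq_of_ev hζ hex.choose_spec.1 ?_
    filter_upwards [hG.mem_F hX, hG.mem_F hex.choose_spec.2] with s hs1 hs2
    exact hs1.symm.trans hs2
  rw [← h7] at h5
  exact absurd h5 (not_lt.2 hηζ)

end Helper2.EX
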