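import Pool.Agent.Helper2.EX.Push

open Set Cardinal Filter

namespace Helper2.EX

variable {κ μ ρ : Ord} {F G : Set (Set Asg)} {m : Asg → Ord}

/-- transfer of finite sets of indices -/
theorem IsExt.ev_exists_finset (h : IsExt κ ρ F) (hm : Rep h μ m) {Q : Asg → Finset Ord → Prop}
    (hQ : FD ρ Q) (hex : ∀ᶠ s in h.F, ∃ a : Finset Ord, (∀ i ∈ a, i < m s) ∧ Q s a) :
    ∃ b : Finset Ord, (∀ i ∈ b, i < μ) ∧ ∀ᶠ s in h.F, ∀ a : Finset Ord,
      (∀ x, x ∈ a ↔ ∃ i ∈ b, x = s i) → Q s a := by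
  classical
  obtain ⟨A, hA1, hA2⟩ := h.ev_choose (P := fun s a => (∀ i ∈ a, i < m s) ∧ Q s a)
    (FD.map₂ (fun (b : Ord) (Q : Finset Ord → Prop) (a : Finset Ord) => (∀ i ∈ a, i < b) ∧ Q a)
      hm.fd hQ) hex
  -- the cardinality is constant
  have hcard : ∃ n : ℕ, ∀ᶠ s in h.F, (A s).card = n := by
    by_contra hc
    have h1 : ∀ n : ℕ, ∀ᶠ s in h.F, ¬ (A s).card = n := fun n =>
      (h.ev_not (hA1.map fun a => a.card = n)).2 fun hh => hc ⟨n, hh⟩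
    obtain ⟨s, hs⟩ := (eventually_countable_forall.2 h1).exists
    exact hs _ rfl
  obtain ⟨n, hn⟩ := hcard
  -- the elements
  have hel : ∀ k : ℕ, ∃ i : Ord, k < n → i < μ ∧
      ∀ᶠ s in h.F, ((A s).sort (· ≤ ·)).getD k 0 = s i := by
    intro k
    by_cases hk : k < n
    · obtain ⟨i, hi, h1⟩ := hm.seed (fun s => ((A s).sort (· ≤ ·)).getD k 0)
        (hA1.map fun a => (a.sort (· ≤ ·)).getD k 0) (by
          filter_upwards [hA2, hn] with s h2 h3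
          have hlen : k < ((A s).sort (· ≤ ·)).length := by
            rw [Finset.length_sort, h3]; exact hk
          rw [List.getD_eq_getElem _ _ hlen]
          refine h2.1 _ ?_
          have := List.getElem_mem hlen
          rwa [Finset.mem_sort] at this)
      exact ⟨i, fun _ => ⟨hi, h1⟩⟩
    · exact ⟨0, fun h => absurd h hk⟩
  choose i hi using hel
  refine ⟨(Finset.range n).image i, ?_, ?_⟩
  · intro j hj
    obtain ⟨k, hk, rfl⟩ := Finset.mem_image.1 hj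
    exact (hi k (Finset.mem_range.1 hk)).1
  · have hall : ∀ᶠ s in h.F, ∀ k : ℕ, k < n → ((A s).sort (· ≤ ·)).getD k 0 = s (i k) := by
      refine eventually_countable_forall.2 fun k => ?_
      by_cases hk : k < n
      · exact (hi k hk).2.mono fun s hs _ => hs
      · exact Eventually.of_forall fun s h => absurd h hk
    filter_upwards [hA2, hn, hall] with s h1 h2 h3 a ha
    have haA : a = A s := by
      ext x
      rw [ha x, ← Finset.mem_sort (· ≤ ·), List.mem_iff_getElem]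
      constructor
      · rintro ⟨j, hj, rfl⟩
        obtain ⟨k, hk, rfl⟩ := Finset.mem_image.1 hj
        have hk' := Finset.mem_range.1 hk
        have hlen : k < ((A s).sort (· ≤ ·)).length := by
          rw [Finset.length_sort, h2]; exact hk'
        refine ⟨k, hlen, ?_⟩
        rw [← h3 k hk', List.getD_eq_getElem _ _ hlen]
      · rintro ⟨k, hlen, hk⟩
        have hk' : k < n := by rwa [Finset.length_sort, h2] at hlen
        refine ⟨i k, Finset.mem_image_of_mem _ (Finset.mem_range.2 hk'), ?_⟩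
        rw [← h3 k hk', List.getD_eq_getElem _ _ hlen, hk]
    rw [haA]
    exact h1.2

/-- functions of the ultrapower on assignments below `s κ` come from functions in `V` -/
theorem IsExt.lift (h : IsExt κ ρ F) (b : Finset Ord) (hb : ∀ i ∈ b, i < ρ)
    (Y : Asg → Asg → Ord → Ord → Prop) (hY : FD ρ Y)
    (hsupp : ∀ᶠ s in h.F, ∀ t t' : Asg, (∀ i ∈ b, t (s i) = t' (s i)) → Y s t = Y s t') :
    ∃ f : Asg → Ord → Ord → Prop, (∀ u u' : Asg, (∀ i ∈ b, u i = u' i) → f u = f u') ∧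
      ∀ᶠ s in h.F, ∀ t : Asg, (∀ i, t i < s κ) → ∀ x < s κ, ∀ y < s κ,
        (f (fun i => t (s i)) x y ↔ Y s t x y) := by
  let f : Asg → Ord → Ord → Prop := fun u x y =>
    ∀ᶠ s in h.F, ∀ t : Asg, (∀ i ∈ b, t (s i) = u i) → Y s t x y
  have hf : ∀ u u' : Asg, (∀ i ∈ b, u i = u' i) → f u = f u' := by
    intro u u' huu
    funext x y
    have : ∀ (s t : Asg), (∀ i ∈ b, t (s i) = u i) ↔ (∀ i ∈ b, t (s i) = u' i) := fun s t =>
      ⟨fun h1 i hi => (h1 i hi).trans (huu i hi), fun h1 i hi => (h1 i hi).trans (huu i hi).symm⟩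
    simp only [f, this]
  have hfFD : FD ρ f := ⟨b, hb, hf⟩
  have hcomp : FD ρ (fun (s : Asg) (t : Asg) => f (fun i => t (s i))) := hfFD.comp_push
  have hκ : FD ρ (fun s : Asg => s κ) := FD.coord h.lt_len
  refine ⟨f, hf, ?_⟩
  by_contra hc
  rw [← h.ev_not (FD.map₃ (fun (k : Ord) (g : Asg → Ord → Ord → Prop)
    (Yv : Asg → Ord → Ord → Prop) => ∀ t : Asg, (∀ i, t i < k) → ∀ x < k, ∀ y < k,
      (g t x y ↔ Yv t x y)) hκ hcomp hY)] at hc
  obtain ⟨w, hw1, hw2⟩ := h.ev_choose (P := fun (s : Asg) (p : Asg × Ord × Ord) =>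
      (∀ i, p.1 i < s κ) ∧ p.2.1 < s κ ∧ p.2.2 < s κ ∧
        ¬ (f (fun i => p.1 (s i)) p.2.1 p.2.2 ↔ Y s p.1 p.2.1 p.2.2))
    (FD.map₃ (fun (k : Ord) (g : Asg → Ord → Ord → Prop)
      (Yv : Asg → Ord → Ord → Prop) (p : Asg × Ord × Ord) => (∀ i, p.1 i < k) ∧ p.2.1 < k ∧
        p.2.2 < k ∧ ¬ (g p.1 p.2.1 p.2.2 ↔ Yv p.1 p.2.1 p.2.2)) hκ hcomp hY) (by
      refine hc.mono fun s hs => ?_
      push Not at hs
      obtain ⟨t, ht, x, hx, y, hy, hne⟩ := hs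
      refine ⟨(t, x, y), ht, hx, hy, ?_⟩
      intro h1
      rcases hne with ⟨h2, h3⟩ | ⟨h2, h3⟩
      · exact h3 (h1.1 h2)
      · exact h2 (h1.2 h3))
  -- constants
  obtain ⟨x, -, hx⟩ := h.ev_const (f := fun s => (w s).2.1) (hw1.map fun p => p.2.1)
    (hw2.mono fun s hs => hs.2.1)
  obtain ⟨y, -, hy⟩ := h.ev_const (f := fun s => (w s).2.2) (hw1.map fun p => p.2.2)
    (hw2.mono fun s hs => hs.2.2.1)
  have hu : ∀ i : Ord, ∃ v : Ord, i ∈ b → ∀ᶠ s in h.F, (w s).1 (s i) = v := by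
    intro i
    by_cases hi : i ∈ b
    · obtain ⟨v, -, hv⟩ := h.ev_const (f := fun s => (w s).1 (s i))
        (FD.map₂ (fun (p : Asg × Ord × Ord) (j : Ord) => p.1 j) hw1 (FD.coord (hb i hi)))
        (hw2.mono fun s hs => hs.1 _)
      exact ⟨v, fun _ => hv⟩
    · exact ⟨0, fun h => absurd h hi⟩
  choose u hu using hu
  have hu' : ∀ᶠ s in h.F, ∀ i ∈ b, (w s).1 (s i) = u i :=
    (eventually_all_finset b).2 fun i hi => hu i hi
  have hval : ∀ᶠ s in h.F, ¬ (f u x y ↔ Y s (w s).1 x y) := by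
    filter_upwards [hw2, hx, hy, hu'] with s h1 h2 h3 h4
    have h5 := h1.2.2.2
    rw [hf (fun i => (w s).1 (s i)) u h4] at h5
    rwa [h2, h3] at h5
  rcases h.em (P := fun s => Y s (w s).1 x y)
    (FD.map₂ (fun (Yv : Asg → Ord → Ord → Prop) (p : Asg × Ord × Ord) => Yv p.1 x y) hY hw1)
    with h1 | h1
  · have h2 : f u x y := by
      change ∀ᶠ s in h.F, ∀ t : Asg, (∀ i ∈ b, t (s i) = u i) → Y s t x y
      filter_upwards [h1, hu', hsupp] with s h3 h4 h5 t ht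
      rw [h5 t (w s).1 fun i hi => (ht i hi).trans (h4 i hi).symm]
      exact h3
    obtain ⟨s, h3, h4⟩ := (h1.and hval).exists
    exact h4 ⟨fun _ => h3, fun _ => h2⟩
  · have h2 : ¬ f u x y := by
      intro h3
      obtain ⟨s, h4, h5, h6⟩ := ((h1.and (hu'.and h3))).exists
      exact h4 (h6 _ h5)
    obtain ⟨s, h3, h4⟩ := (h1.and hval).exists
    exact h4 ⟨fun h5 => absurd h5 h2, fun h5 => absurd h5 h3⟩

/-- the same with a finite support below `m s` which depends on `s` -/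
theorem IsExt.lift' (h : IsExt κ ρ F) (hm : Rep h μ m) (Y : Asg → Asg → Ord → Ord → Prop)
    (hY : FD ρ Y) (hfd : ∀ᶠ s in h.F, FD (m s) (Y s)) :
    ∃ f : Asg → Ord → Ord → Prop, FD μ f ∧
      ∀ᶠ s in h.F, ∀ t : Asg, (∀ i, t i < s κ) → ∀ x < s κ, ∀ y < s κ,
        (f (fun i => t (s i)) x y ↔ Y s t x y) := by
  classical
  obtain ⟨b, hb, h1⟩ := h.ev_exists_finset hm (Q := fun s a => ∀ t t' : Asg,
      (∀ i ∈ a, t i = t' i) → Y s t = Y s t')
    (hY.map fun (Yv : Asg → Ord → Ord → Prop) (a : Finset Ord) => ∀ t t' : Asg,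
      (∀ i ∈ a, t i = t' i) → Yv t = Yv t') hfd
  obtain ⟨f, h2, h3⟩ := h.lift b (fun i hi => (hb i hi).trans_le hm.le) Y hY (by
    filter_upwards [h1] with s hs t t' htt
    refine hs (b.image s) (fun x => ?_) t t' fun i hi => ?_
    · rw [Finset.mem_image]
      exact ⟨fun ⟨i, hi, e⟩ => ⟨i, hi, e.symm⟩, fun ⟨i, hi, e⟩ => ⟨i, hi, e.symm⟩⟩
    · obtain ⟨j, hj, rfl⟩ := Finset.mem_image.1 hi
      exact htt j hj)
  exact ⟨f, ⟨b, hb, h2⟩, h3⟩

/-- sets -/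
theorem IsExt.lift_set (h : IsExt κ ρ F) (hm : Rep h μ m) (Y : Asg → Set Asg)
    (hY : FD ρ Y) (hfd : ∀ᶠ s in h.F, FD (m s) (fun t => t ∈ Y s)) :
    ∃ X : Set Asg, FD μ (fun s => s ∈ X) ∧
      ∀ᶠ s in h.F, ∀ t : Asg, (∀ i, t i < s κ) → (t ∈ EX.push s X ↔ t ∈ Y s) := by
  obtain ⟨f, h1, h2⟩ := h.lift' hm (fun s t _ _ => t ∈ Y s)
    (hY.map fun (S : Set Asg) (t : Asg) (_ : Ord) (_ : Ord) => t ∈ S)
    (hfd.mono fun s hs => FD.map (fun (P : Prop) (_ : Ord) (_ : Ord) => P) hs)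
  refine ⟨{u | f u 0 0}, h1.map fun P => P 0 0, ?_⟩
  filter_upwards [h2, h.ev_lt_kappa (Ordinal.omega0_pos.trans h.omega_lt_kappa)] with s h3 h4 t ht
  exact h3 t ht 0 h4 0 h4

/-- the representing function is unique -/
theorem RepExt.unique (h : IsExt κ ρ F) (hm : Rep h μ m) {Gs Gs' : Asg → Set (Set Asg)}
    (hr : RepExt h μ G Gs) (hr' : RepExt h μ G Gs')
    (hGs : ∀ᶠ s in h.F, IsExt (s κ) (m s) (Gs s))
    (hGs' : ∀ᶠ s in h.F, IsExt (s κ) (m s) (Gs' s)) : ∀ᶠ s in h.F, Gs s = Gs' s := by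
  by_contra hc
  rw [← h.ev_not (FD.map₂ (fun (A B : Set (Set Asg)) => A = B) hr.fd hr'.fd)] at hc
  obtain ⟨Z, hZ1, hZ2⟩ := h.ev_choose (P := fun (s : Asg) (Z : Set Asg) =>
      ¬ (Z ∈ Gs s ↔ Z ∈ Gs' s))
    (FD.map₂ (fun (A B : Set (Set Asg)) (Z : Set Asg) => ¬ (Z ∈ A ↔ Z ∈ B)) hr.fd hr'.fd) (by
      refine hc.mono fun s hs => ?_
      by_contra h1
      push Not at h1
      exact hs (Set.ext fun Z => h1 Z))
  have hfd : ∀ᶠ s in h.F, FD (m s) (fun t => t ∈ Z s) := by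
    filter_upwards [hZ2, hGs, hGs'] with s h1 h2 h3
    by_cases h4 : Z s ∈ Gs s
    · exact h2.fd _ h4
    · by_cases h5 : Z s ∈ Gs' s
      · exact h3.fd _ h5
      · exact absurd ⟨fun h => absurd h h4, fun h => absurd h h5⟩ h1
  obtain ⟨X, hX1, hX2⟩ := h.lift_set hm Z hZ1 hfd
  have e1 : ∀ᶠ s in h.F, (EX.push s X ∈ Gs s ↔ Z s ∈ Gs s) := by
    filter_upwards [hfd, hX2, hGs, h.ev_fd_push hm hX1] with s h1 h2 h3 h4
    exact h3.mem_iff_of_agree h4 h1 h2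
  have e2 : ∀ᶠ s in h.F, (EX.push s X ∈ Gs' s ↔ Z s ∈ Gs' s) := by
    filter_upwards [hfd, hX2, hGs', h.ev_fd_push hm hX1] with s h1 h2 h3 h4
    exact h3.mem_iff_of_agree h4 h1 h2
  rcases h.em (P := fun s => Z s ∈ Gs s)
    (FD.map₂ (fun (A : Set (Set Asg)) (B : Set Asg) => B ∈ A) hr.fd hZ1) with h1 | h1
  · have h2 : X ∈ G := (hr.iff X hX1).2 ((e1.and h1).mono fun s hs => hs.1.2 hs.2)
    have h3 := (hr'.iff X hX1).1 h2
    obtain ⟨s, ⟨h4, h5⟩, ⟨h6, h7⟩⟩ := ((h1.and hZ2).and (e2.and h3)).exists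
    exact h5 ⟨fun _ => h6.1 h7, fun _ => h4⟩
  · have h2 : X ∈ G := (hr'.iff X hX1).2 (by
      filter_upwards [e2, h1, hZ2] with s h3 h4 h5
      refine h3.2 ?_
      by_contra h6
      exact h5 ⟨fun h => absurd h h4, fun h => absurd h h6⟩)
    have h3 := (hr.iff X hX1).1 h2
    obtain ⟨s, ⟨h4, h5⟩, h6⟩ := ((h1.and e1).and h3).exists
    exact h4 (h5.1 h6)

end Helper2.EX
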