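import Pool.Agent.Helper2.EX.Power
import Pool.Agent.Helper2.EX.Iter

open Set Cardinal Filter

namespace Helper2.EX

variable {κ μ : Ord} {E : Set (Set Asg)}

/-- if `μ` is regular in the ultrapower, it is inaccessible there -/
theorem rsl_of_bad (h : IsExt κ μ E) (hns : ¬ SingIn μ E) (hμ : (preBeth μ).ord = μ)
    {m : Asg → Ord} (hm : Rep h μ m) : ∀ᶠ s in h.F, RSL (m s) := by
  have hωκ := h.omega_lt_kappa
  have hωμ : Ordinal.omega0 < μ := hωκ.trans h.lt_len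
  obtain ⟨-, -, hpow⟩ := fix_props hωμ hμ
  have h1 : ∀ᶠ s in h.F, Ordinal.omega0 < m s := by
    filter_upwards [h.ev_self hωκ, hm.lt _ hωμ] with s h1 h2
    rwa [h1] at h2
  have h3 : ∀ᶠ s in h.F, ∀ x < m s, ((2 : Cardinal) ^ x.card).ord < m s := by
    refine h.ev_forall_lt hm (P := fun s x => ((2 : Cardinal) ^ x.card).ord < m s)
      (hm.fd.map fun (b : Ord) (x : Ord) => ((2 : Cardinal) ^ x.card).ord < b) fun η hη => ?_
    obtain ⟨θ, hθ, -, h4⟩ := h.power hη (hpow η hη)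
    filter_upwards [h4, hm.lt θ hθ] with s h5 h6
    exact h5.trans_lt h6
  have h2 : ∀ᶠ s in h.F, ∀ δ < m s, ∀ f : Ord → Ord,
      ∃ η < m s, ∀ γ < δ, f γ < m s → f γ < η := by
    refine h.ev_forall_lt hm
      (P := fun s δ => ∀ f : Ord → Ord, ∃ η < m s, ∀ γ < δ, f γ < m s → f γ < η)
      (hm.fd.map fun (b : Ord) (δ : Ord) =>
        ∀ f : Ord → Ord, ∃ η < b, ∀ γ < δ, f γ < b → f γ < η) fun δ hδ => ?_
    by_contra hc
    rw [← h.ev_not (FD.map₂ (fun (b : Ord) (δ : Ord) =>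
        ∀ f : Ord → Ord, ∃ η < b, ∀ γ < δ, f γ < b → f γ < η) hm.fd (FD.coord hδ))] at hc
    obtain ⟨g, hg, hg'⟩ := h.ev_choose
      (P := fun s (f : Ord → Ord) => ∀ η < m s, ∃ γ < s δ, f γ < m s ∧ η ≤ f γ)
      (FD.map₂ (fun (b : Ord) (d : Ord) (f : Ord → Ord) => ∀ η < b, ∃ γ < d, f γ < b ∧ η ≤ f γ)
        hm.fd (FD.coord hδ))
      (hc.mono fun s hs => by
        push Not at hs
        exact hs)
    refine hns ⟨δ, hδ, g, hg, fun η hη => ?_⟩
    obtain ⟨γ, hγ, h5⟩ := h.ev_exists_lt (h.rep_coord hδ)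
      (P := fun s x => g s x < m s ∧ s η ≤ g s x)
      (FD.map₃ (fun (G : Ord → Ord) (b e x : Ord) => G x < b ∧ e ≤ G x) hg hm.fd (FD.coord hη))
      ((hg'.and (hm.lt η hη)).mono fun s hs => hs.1 _ hs.2)
    have hγμ : γ < μ := hγ.trans hδ
    have hfd : FD μ (fun s : Asg => g s (s γ)) :=
      FD.map₂ (fun (G : Ord → Ord) x => G x) hg (FD.coord hγμ)
    obtain ⟨ζ, hζ, h6⟩ := hm.seed (fun s => g s (s γ)) hfd (h5.mono fun s hs => hs.1)
    refine ⟨γ, hγ, ζ, ?_, hζ,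
      (h.ev_iff (FD.map₂ (fun x y => x = y) hfd (FD.coord hζ))).1 h6⟩
    exact h.le_of_ev hη ((h5.and h6).mono fun s hs => hs.1.2.trans hs.2.le)
  filter_upwards [h1, h2, h3] with s a b c
  exact ⟨a, b, c⟩

end Helper2.EX
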