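import Pool.Agent.Helper2.EX.SingMono
import Pool.Agent.Helper2.EX.Restr
import Pool.Agent.Helper2.EX.ClosureV
import Pool.Agent.Helper2.EX.RslUlt
import Pool.Agent.Helper2.EX.ClosureUlt

open Set Cardinal Filter

namespace Helper2.EX

variable {κ μ ν : Ord} {E F : Set (Set Asg)}

/-- a bad witness exists below an inaccessible -/
theorem exists_bad (h : IsWitness κ ν E) (hν : RSL ν) :
    ∃ μ < ν, IsSingFix κ μ ∧ ∃ E', IsBad κ μ E' := by
  obtain ⟨ξ, h1, h2, h3, h4, h5, h6⟩ := exists_closed_of_rsl h.1 hν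
  have h7 : ξ + 1 < ν := by
    obtain ⟨η, h8, h9⟩ := hν.reg 1 (Ordinal.one_lt_omega0.trans hν.omega) fun _ => ξ
    exact (Order.add_one_le_iff.2 (h9 0 zero_lt_one h2)).trans_lt h8
  exact ⟨ξ, h2, h3, restr ξ E, h.restr h1 h2 h5, not_singIn_restr h.1 h1 h7 h4 h6⟩

/-- let `μ` be the least one with a bad witness; then every witness `F` with some witness
`E ∈ Ult(V, F)` is good -/
theorem good_of_mit (hμ : IsSingFix κ μ) (hmin : ∀ ξ < μ, IsSingFix κ ξ → ∀ E', ¬ IsBad κ ξ E')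
    (hE : IsWitness κ μ E) (hF : IsWitness κ μ F) (hm : Mit κ μ E F) : SingIn μ F := by
  by_contra hns
  obtain ⟨h1, h2, h3⟩ := fix_props (hE.1.omega_lt_kappa.trans hμ.1) hμ.2.2
  obtain ⟨m, hm1, -⟩ := hF.1.exists_rep h2
  obtain ⟨ξ, a1, a2, a3, a4, a5, a6⟩ :=
    exists_closed_of_ult hE.1 hF hm1 (rsl_of_bad hF.1 hns hμ.2.2 hm1) hm
  exact hmin ξ a2 a3 _ ⟨hE.restr a1 a2 a5, not_singIn_restr hE.1 a1 (h2 _ a2) a4 a6⟩

end Helper2.EX
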