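import Pool.Agent.Helper2.EX.Up
import Pool.Agent.Helper2.EX.Down
import Pool.Agent.Helper2.EX.Good
import Pool.Agent.Helper2.EX.BethUp

open Set Cardinal Filter

namespace Helper2.EX

/-- exactly two (κ, μ)-extenders witness that `κ` is `μ`-strong, one is bad, the other good -/
def ExactlyTwo (κ μ : Ord) : Prop :=
  ∃ E₀ E₁, E₀ ≠ E₁ ∧ IsBad κ μ E₀ ∧ IsGood κ μ E₁ ∧ ∀ G, IsWitness κ μ G → G = E₀ ∨ G = E₁

/-- the same in `Ult(V, F)` -/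
def ExactlyTwoIn (κ μ : Ord) (F : Set (Set Asg)) : Prop :=
  ∃ E₀ E₁, E₀ ≠ E₁ ∧ IsBad κ μ E₀ ∧ IsGood κ μ E₁ ∧ Mit κ μ E₀ F ∧ Mit κ μ E₁ F ∧
    ∀ G, IsWitness κ μ G → Mit κ μ G F → G = E₀ ∨ G = E₁

variable {κ μ : Ord} {F : Set (Set Asg)}

/-- reflection -/
theorem exists_exactlyTwo (hF : IsWitness κ μ F) (hμ : IsSingFix κ μ) (h : ExactlyTwoIn κ μ F) :
    ∃ α β, α < κ ∧ β ≤ κ ∧ IsSingFix α β ∧ ExactlyTwo α β := by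
  obtain ⟨E₀, E₁, hne, hb, hg, ⟨H₀, hH₀, hi₀⟩, ⟨H₁, hH₁, hi₁⟩, hall⟩ := h
  obtain ⟨hcard, hlim, hpow⟩ := fix_props (hF.1.omega_lt_kappa.trans hμ.1) hμ.2.2
  obtain ⟨m, hm, hmκ⟩ := hF.1.exists_rep hlim
  have conv : ∀ (H : Asg → Set (Set Asg)), FD μ H → ∀ (E : Set (Set Asg)),
      (∀ X : Set Asg, FD μ (fun s => s ∈ X) → (X ∈ E ↔ {s | tr κ s X ∈ H s} ∈ F)) →
      ∀ X : Set Asg, FD μ (fun s => s ∈ X) → (X ∈ E ↔ ∀ᶠ s in hF.1.F, tr κ s X ∈ H s) := by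
    intro H hH E hi X hX
    rw [hi X hX, hF.1.ev_iff (FD.map₂ (fun (a : Set Asg) (b : Set (Set Asg)) => a ∈ b)
      (FD.tr hμ.1 hX) hH)]
  have hi₀' := conv H₀ hH₀ E₀ hi₀
  have hi₁' := conv H₁ hH₁ E₁ hi₁
  have r₀ := repExt_cap hF.1 hm hμ.1 hb.1.1.fd hH₀ hi₀'
  have r₁ := repExt_cap hF.1 hm hμ.1 hg.1.1.fd hH₁ hi₁'
  have w₀ := IsWitness.down hF.1 hm hμ.1 hb.1 hH₀ hi₀'
  have w₁ := IsWitness.down hF.1 hm hμ.1 hg.1 hH₁ hi₁'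
  set G₀ : Asg → Set (Set Asg) := fun s => cap (s κ) (m s) (H₀ s) with hG₀
  set G₁ : Asg → Set (Set Asg) := fun s => cap (s κ) (m s) (H₁ s) with hG₁
  have g₁ := SingIn.down hF.1 hm r₁ hg.2
  have b₀ : ∀ᶠ s in hF.1.F, ¬ SingIn (m s) (G₀ s) :=
    (hF.1.em (FD.map₂ SingIn hm.fd r₀.fd)).resolve_left fun hc =>
      hb.2 (SingIn.up hF.1 hm r₀ (w₀.mono fun s hs => hs.1) hc)
  have ne : ∀ᶠ s in hF.1.F, ¬ (G₀ s = G₁ s) := by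
    refine (hF.1.em (FD.map₂ (· = ·) r₀.fd r₁.fd)).resolve_left fun hc => hne ?_
    have key : ∀ X : Set Asg, FD μ (fun s => s ∈ X) → (X ∈ E₀ ↔ X ∈ E₁) := by
      intro X hX
      rw [r₀.iff X hX, r₁.iff X hX]
      exact eventually_congr (hc.mono fun s hs => by rw [hs])
    ext X
    exact ⟨fun hX => (key X (r₀.fdG X hX)).1 hX, fun hX => (key X (r₁.fdG X hX)).2 hX⟩
  have hall' : ∀ᶠ s in hF.1.F, ∀ G, IsWitness (s κ) (m s) G → G = G₀ s ∨ G = G₁ s := by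
    have hfd : FD μ (fun s : Asg => ∀ G, IsWitness (s κ) (m s) G → G = G₀ s ∨ G = G₁ s) :=
      FD.map₂ (fun (p : Ord × Ord) (q : Set (Set Asg) × Set (Set Asg)) =>
        ∀ G, IsWitness p.1 p.2 G → G = q.1 ∨ G = q.2)
        (FD.map₂ Prod.mk (FD.coord hμ.1) hm.fd) (FD.map₂ Prod.mk r₀.fd r₁.fd)
    refine (hF.1.em hfd).resolve_right fun hc => ?_
    obtain ⟨Gs, hGs, hw⟩ := hF.1.ev_choose
      (P := fun s G => IsWitness (s κ) (m s) G ∧ G ≠ G₀ s ∧ G ≠ G₁ s)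
      (FD.map₂ (fun (p : Ord × Ord) (q : Set (Set Asg) × Set (Set Asg)) (G : Set (Set Asg)) =>
        IsWitness p.1 p.2 G ∧ G ≠ q.1 ∧ G ≠ q.2)
        (FD.map₂ Prod.mk (FD.coord hμ.1) hm.fd) (FD.map₂ Prod.mk r₀.fd r₁.fd))
      (hc.mono fun s hs => by push Not at hs; exact hs)
    have hw' : ∀ᶠ s in hF.1.F, IsWitness (s κ) (m s) (Gs s) := hw.mono fun s hs => hs.1
    have hw'' : ∀ᶠ s in hF.1.F, IsExt (s κ) (m s) (Gs s) := hw'.mono fun s hs => hs.1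
    have hG := IsWitness.up hF hm hμ.1 hGs hw'
    have hM := mit_up hF.1 hm hGs hw''
    have rG := repExt_up (μ := μ) hF.1 hGs
    rcases hall _ hG hM with he | he
    · rw [he] at rG
      obtain ⟨s, h1, h2⟩ := ((RepExt.unique hF.1 hm rG r₀ hw''
        (w₀.mono fun s hs => hs.1)).and hw).exists
      exact h2.2.1 h1
    · rw [he] at rG
      obtain ⟨s, h1, h2⟩ := ((RepExt.unique hF.1 hm rG r₁ hw''
        (w₁.mono fun s hs => hs.1)).and hw).exists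
      exact h2.2.2 h1
  obtain ⟨s, ⟨⟨⟨⟨⟨⟨⟨h1, h2⟩, h3⟩, h4⟩, h5⟩, h6⟩, h7⟩, h8⟩, h9⟩ :=
    ((((((((w₀.and w₁).and g₁).and b₀).and ne).and hall').and
      (ev_preBeth_eq hF.1 hμ.1 hμ.2.2 hm)).and hmκ).and (hF.1.ev_lt hμ.1)).exists
  exact ⟨s κ, m s, h9, h8, ⟨h1.1.lt_len, SingIn.cof_lt h2.1 h7 h3, h7⟩,
    G₀ s, G₁ s, h5, ⟨h1, h4⟩, ⟨h2, h3⟩, h6⟩

end Helper2.EX
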