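import Pool.Agent.Helper2.EX.Main1
import Pool.Agent.Helper2.EX.Main2

open Set Cardinal Filter

namespace Helper2.EX

/-- the Mitchell order is a (strict) well-ordering of the witnesses -/
structure MitWO (κ μ : Ord) : Prop where
  irrefl : ∀ E, IsWitness κ μ E → ¬ Mit κ μ E E
  total : ∀ E F, IsWitness κ μ E → IsWitness κ μ F → E ≠ F → Mit κ μ E F ∨ Mit κ μ F E
  wf : ∀ S : Set (Set (Set Asg)), S.Nonempty → (∀ E ∈ S, IsWitness κ μ E) →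
    ∃ E ∈ S, ∀ F ∈ S, ¬ Mit κ μ F E

/-- every witness belongs to the ultrapower by another one -/
def NoLast (κ μ : Ord) : Prop := ∀ G, IsWitness κ μ G → ∃ F, IsWitness κ μ F ∧ Mit κ μ G F

variable {κ μ ν : Ord} {E F : Set (Set Asg)}

theorem exactlyTwoIn_of_least (hμ : IsSingFix κ μ)
    (hmin : ∀ ξ < μ, IsSingFix κ ξ → ∀ E', ¬ IsBad κ ξ E') (hbad : ∃ E', IsBad κ μ E')
    (hwo : MitWO κ μ) (hlast : NoLast κ μ) :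
    ∃ F, IsWitness κ μ F ∧ ExactlyTwoIn κ μ F := by
  obtain ⟨B, hB⟩ := hbad
  -- the first witness
  obtain ⟨E₀, hE₀, hm₀⟩ := hwo.wf {E | IsWitness κ μ E} ⟨B, hB.1⟩ fun _ h => h
  have hE₀bad : IsBad κ μ E₀ := by
    by_cases he : E₀ = B
    · rw [he]; exact hB
    · refine ⟨hE₀, fun hs => hB.2 ?_⟩
      rcases hwo.total E₀ B hE₀ hB.1 he with h1 | h1
      · exact SingIn.of_mit hE₀.1 hB.1.1 h1 hs
      · exact absurd h1 (hm₀ B hB.1)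
  -- the second witness
  obtain ⟨F₀, hF₀, hF₀'⟩ := hlast E₀ hE₀
  have hF₀ne : F₀ ≠ E₀ := fun h => hwo.irrefl E₀ hE₀ (h ▸ hF₀')
  obtain ⟨E₁, ⟨hE₁, hne₁⟩, hm₁⟩ := hwo.wf {E | IsWitness κ μ E ∧ E ≠ E₀} ⟨F₀, hF₀, hF₀ne⟩
    fun _ h => h.1
  have h01 : Mit κ μ E₀ E₁ := (hwo.total E₀ E₁ hE₀ hE₁ (Ne.symm hne₁)).resolve_right
    (hm₀ E₁ hE₁)
  have hE₁good : IsGood κ μ E₁ := ⟨hE₁, good_of_mit hμ hmin hE₀ hE₁ h01⟩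
  -- the third witness
  obtain ⟨F₁, hF₁, hF₁'⟩ := hlast E₁ hE₁
  have hF₁ne : F₁ ≠ E₁ := fun h => hwo.irrefl E₁ hE₁ (h ▸ hF₁')
  have hF₁ne' : F₁ ≠ E₀ := fun h => hm₀ E₁ hE₁ (h ▸ hF₁')
  obtain ⟨F, ⟨hF, hneF, hneF'⟩, hmF⟩ := hwo.wf {E | IsWitness κ μ E ∧ E ≠ E₀ ∧ E ≠ E₁}
    ⟨F₁, hF₁, hF₁ne', hF₁ne⟩ fun _ h => h.1
  refine ⟨F, hF, E₀, E₁, Ne.symm hne₁, hE₀bad, hE₁good, ?_, ?_, fun G hG hGF => ?_⟩
  · exact (hwo.total E₀ F hE₀ hF (Ne.symm hneF)).resolve_right (hm₀ F hF)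
  · exact (hwo.total E₁ F hE₁ hF (Ne.symm hneF')).resolve_right (hm₁ F ⟨hF, hneF⟩)
  · by_contra hc
    push Not at hc
    exact hmF G ⟨hG, hc⟩ hGF

/-- the least `μ` with a bad witness -/
theorem exists_least_bad (h : IsWitness κ ν E) (hν : RSL ν) :
    ∃ μ < ν, IsSingFix κ μ ∧ (∀ ξ < μ, IsSingFix κ ξ → ∀ E', ¬ IsBad κ ξ E') ∧
      ∃ E', IsBad κ μ E' := by
  obtain ⟨μ₀, h1, h2, h3⟩ := exists_bad h hν
  let S : Set Ord := {μ | IsSingFix κ μ ∧ ∃ E', IsBad κ μ E'}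
  have hS : S.Nonempty := ⟨μ₀, h2, h3⟩
  obtain ⟨μ, hμ, hmin⟩ := (wellFounded_lt (α := Ord)).has_min S hS
  refine ⟨μ, ?_, hμ.1, fun ξ hξ hf E' hb => hmin ξ ⟨hf, E', hb⟩ hξ, hμ.2⟩
  exact (not_lt.1 (hmin μ₀ ⟨h2, h3⟩)).trans_lt h1

end Helper2.EX
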