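import Pool.Agent.Helper2.EX.Power

open Set Cardinal Filter

namespace Helper2.EX

variable {κ ν ρ : Ord} {F : Set (Set Asg)}

theorem RSL.pow_lt (hν : RSL ν) {η : Ord} (hη : η < ν) : (2 : Cardinal) ^ η.card < ν.card := by
  have h1 := hν.pow _ (hν.pow η hη)
  rw [card_ord] at h1
  have h2 := Ordinal.card_le_card h1.le
  rw [card_ord] at h2
  exact (Cardinal.cantor _).trans_le h2

theorem RSL.add_one_lt (hν : RSL ν) {η : Ord} (hη : η < ν) : η + 1 < ν := by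
  obtain ⟨x, h8, h9⟩ := hν.reg 1 (Ordinal.one_lt_omega0.trans hν.omega) fun _ => η
  exact (Order.add_one_le_iff.2 (h9 0 zero_lt_one hη)).trans_lt h8

/-- bounded functions are bounded in the ultrapower -/
private theorem ev_reg (h : IsExt κ ρ F) (hνρ : ν < ρ) (hν : RSL ν) {δ : Ord} (hδ : δ < ν) :
    ∀ᶠ s in h.F, ∀ g : Ord → Ord, ∃ η < s ν, ∀ γ < s δ, g γ < s ν → g γ < η := by
  classical
  have hδρ : δ < ρ := hδ.trans hνρ
  rcases h.em (P := fun s => ∀ g : Ord → Ord, ∃ η < s ν, ∀ γ < s δ, g γ < s ν → g γ < η)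
    (FD.map₂ (fun (a b : Ord) => ∀ g : Ord → Ord, ∃ η < a, ∀ γ < b, g γ < a → g γ < η)
      (FD.coord hνρ) (FD.coord hδρ)) with h1 | h1
  · exact h1
  · exfalso
    obtain ⟨g, hg1, hg2⟩ := h.ev_choose
      (P := fun (s : Asg) (g : Ord → Ord) => ∀ η < s ν, ∃ γ < s δ, g γ < s ν ∧ η ≤ g γ)
      (FD.map₂ (fun (a b : Ord) (g : Ord → Ord) => ∀ η < a, ∃ γ < b, g γ < a ∧ η ≤ g γ)
        (FD.coord hνρ) (FD.coord hδρ)) (by
        refine h1.mono fun s hs => ?_
        push Not at hs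
        exact hs)
    obtain ⟨η, hη, h2⟩ := hν.reg δ hδ fun γ =>
      if hz : ∃ z < ν, ∀ᶠ s in h.F, g s (s γ) = s z then hz.choose else ν
    have hηρ : η < ρ := hη.trans hνρ
    obtain ⟨γ, hγ, h3⟩ := h.ev_exists_lt (h.rep_coord hδρ)
      (P := fun (s : Asg) (x : Ord) => g s x < s ν ∧ s η ≤ g s x)
      (FD.map₃ (fun (f : Ord → Ord) (a b : Ord) (x : Ord) => f x < a ∧ b ≤ f x)
        hg1 (FD.coord hνρ) (FD.coord hηρ)) (by
        filter_upwards [hg2, h.ev_mono hη hνρ] with s h4 h5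
        exact h4 (s η) h5)
    have hz : ∃ z < ν, ∀ᶠ s in h.F, g s (s γ) = s z :=
      h.ev_normal (FD.map₂ (fun (f : Ord → Ord) (a : Ord) => f a) hg1
        (FD.coord (hγ.trans hδρ))) hνρ (h3.mono fun s hs => hs.1)
    have h4 := h2 γ hγ
    simp only [dif_pos hz] at h4
    have h5 := hz.choose_spec
    have h6 := h4 h5.1
    obtain ⟨s, h7, h8, h9⟩ := (h3.and (h5.2.and (h.ev_mono h6 hηρ))).exists
    rw [h8] at h7
    exact absurd h7.2 (not_le.2 h9)

/-- an inaccessible cardinal is inaccessible in the ultrapower -/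
theorem ev_rsl (h : IsExt κ ρ F) (hκ : κ < ν) (hνρ : ν < ρ) (hν : RSL ν) :
    ∀ᶠ s in h.F, RSL (s ν) := by
  have hreg : ∀ᶠ s in h.F, ∀ δ < s ν, ∀ g : Ord → Ord, ∃ η < s ν, ∀ γ < δ,
      g γ < s ν → g γ < η :=
    h.ev_forall_lt (h.rep_coord hνρ)
      (P := fun (s : Asg) (δ : Ord) => ∀ g : Ord → Ord, ∃ η < s ν, ∀ γ < δ,
        g γ < s ν → g γ < η)
      ((FD.coord hνρ).map fun (a : Ord) (δ : Ord) => ∀ g : Ord → Ord, ∃ η < a, ∀ γ < δ,
        g γ < a → g γ < η)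
      fun δ hδ => ev_reg h hνρ hν hδ
  have hpow : ∀ᶠ s in h.F, ∀ η < s ν, ((2 : Cardinal) ^ (η : Ord).card).ord < s ν :=
    h.ev_forall_lt (h.rep_coord hνρ)
      (P := fun (s : Asg) (η : Ord) => ((2 : Cardinal) ^ η.card).ord < s ν)
      ((FD.coord hνρ).map fun (a : Ord) (η : Ord) => ((2 : Cardinal) ^ η.card).ord < a)
      fun η hη => by
        have h1 : (2 : Cardinal) ^ η.card < ν.card := hν.pow_lt hη
        obtain ⟨θ, hθ, h2, h3⟩ := h.power (hη.trans hνρ)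
          (h1.trans_le (Ordinal.card_le_card hνρ.le))
        have hθν : θ < ν := by
          by_contra hc
          exact absurd (h2.trans_lt h1) (not_lt.2 (Ordinal.card_le_card (not_lt.1 hc)))
        filter_upwards [h3, h.ev_mono hθν hνρ] with s h4 h5
        exact h4.trans_lt h5
  filter_upwards [hreg, hpow, h.ev_lt_kappa h.omega_lt_kappa, h.ev_mono hκ hνρ]
    with s h1 h2 h3 h4
  exact ⟨h3.trans h4, h1, h2⟩

end Helper2.EX
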