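import Pool.Agent.Helper2.EX.Main3
import Pool.Agent.Helper2.EX.Capture
import Pool.Agent.Helper2.EX.RslDown

open Set Cardinal Filter

namespace Helper2.EX

/-- any two (κ, μ)-witnesses are comparable in the Mitchell order -/
def MitLinear (κ μ : Ord) : Prop :=
  ∀ E F, IsWitness κ μ E → IsWitness κ μ F → E ≠ F → Mit κ μ E F ∨ Mit κ μ F E

variable {κ μ ν ρ : Ord} {E F : Set (Set Asg)}

/-- the critical point is a cardinal -/
theorem IsExt.kappa_card (h : IsExt κ μ E) : κ.card.ord = κ := by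
  by_contra hc
  have h1 : κ.card.ord < κ := lt_of_le_of_ne (ord_card_le κ) hc
  set δ : Ord := κ.card.ord with hδ
  have h2 : δ.card = κ.card := by rw [hδ, card_ord]
  have h3 : #(Iio δ) = #(Iio κ) := by
    rw [Ordinal.mk_Iio_ordinal, Ordinal.mk_Iio_ordinal, h2]
  obtain ⟨g⟩ := Cardinal.eq.1 h3
  classical
  have h4 : ∀ᶠ s in h.F, ∀ j < δ, ∀ hj : j < δ, s κ ≠ (g ⟨j, hj⟩ : Ord) := by
    refine h.ev_all {κ} (by simpa using h.lt_len) h1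
      (fun j s => ∀ hj : j < δ, s κ ≠ (g ⟨j, hj⟩ : Ord)) ?_ fun j hj => ?_
    · intro j _ s t hst
      rw [hst κ (by simp)]
    · refine (h.ev_lt_kappa (g ⟨j, hj⟩).2).mono fun s hs _ => ?_
      exact ne_of_gt hs
  obtain ⟨s, h5, h6⟩ := (h4.and (h.ev_lt h.lt_len)).exists
  have h7 := (g.symm ⟨s κ, h6⟩).2
  refine h5 _ h7 h7 ?_
  simp

theorem mitWO_of_linear (hlim : ∀ i < μ, i + 1 < μ) (h : MitLinear κ μ) : MitWO κ μ := by
  refine ⟨fun E hE hM => no_chain κ μ (fun _ => E) hlim (fun _ => hE.1) fun _ => hM, h,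
    fun S hS hw => ?_⟩
  by_contra hc
  push Not at hc
  obtain ⟨E₀, hE₀⟩ := hS
  choose f hf1 hf2 using hc
  let g : ℕ → {E // E ∈ S} := fun n => Nat.rec ⟨E₀, hE₀⟩ (fun _ x => ⟨f x.1 x.2, hf1 x.1 x.2⟩) n
  exact no_chain κ μ (fun n => (g n).1) hlim (fun n => (hw _ (g n).2).1)
    fun n => hf2 (g n).1 (g n).2

/-- below a `ρ`-strong cardinal (with an inaccessible `ν < ρ`) there is a pair with a bad
witness, minimal, such that every witness belongs to the ultrapower by another one -/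
theorem exists_pair (hκ : κ < ν) (hνρ : ν < ρ) (hν : RSL ν)
    (hρ : ∀ η < ρ, (2 : Cardinal) ^ η.card < ρ.card) (hlim : ∀ i < ρ, i + 1 < ρ)
    (hF : IsWitness κ ρ F) :
    ∃ α β, α < κ ∧ β < κ ∧ IsSingFix α β ∧ (∀ ξ < β, IsSingFix α ξ → ∀ E', ¬ IsBad α ξ E') ∧
      (∃ E', IsBad α β E') ∧ NoLast α β := by
  have hrν : IsWitness κ ν (restr ν F) := hF.restr hκ hνρ fun η hη => hν.pow_lt hη
  have hm : Rep hF.1 ν (fun s => s ν) := hF.1.rep_coord hνρ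
  obtain ⟨H, hH, hHiff⟩ := exists_repr hF (hρ _ hνρ) hνρ hκ hrν.1
  have wE := IsWitness.down hF.1 hm hκ hrν hH hHiff
  obtain ⟨s, ⟨⟨⟨h1, h2⟩, h3⟩, h4⟩, h5⟩ :=
    ((((wE.and (ev_rsl hF.1 hκ hνρ hν)).and (capture_ev hF hρ hlim hνρ)).and
      (hF.1.ev_lt hF.1.lt_len)).and (hF.1.ev_lt hνρ)).exists
  obtain ⟨β, hβν, hβ, hmin, hbad⟩ := exists_least_bad h1 h2
  refine ⟨s κ, β, h4, hβν.trans h5, hβ, hmin, hbad, fun G hG => ?_⟩
  by_contra hc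
  exact h3 β hβν.le G ⟨hβ, hG, hc⟩

/-- Main theorem -/
theorem exists_exactlyTwo_of_strong (hκ : κ < ν) (hνρ : ν < ρ) (hν : RSL ν)
    (hρ : ∀ η < ρ, (2 : Cardinal) ^ η.card < ρ.card) (hlim : ∀ i < ρ, i + 1 < ρ)
    (hF : IsWitness κ ρ F) (hlin : ∀ α β, β < κ → IsSingFix α β → MitLinear α β) :
    ∃ α β, α < κ ∧ β < κ ∧ IsSingFix α β ∧ ExactlyTwo α β := by
  obtain ⟨α, β, h1, h2, hβ, hmin, hbad, hlast⟩ := exists_pair hκ hνρ hν hρ hlim hF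
  obtain ⟨B, hB⟩ := hbad
  have hlimβ := (fix_props (hB.1.1.omega_lt_kappa.trans hβ.1) hβ.2.2).2.1
  have hwo : MitWO α β := mitWO_of_linear hlimβ (hlin _ _ h2 hβ)
  obtain ⟨F', hF', hex⟩ := exactlyTwoIn_of_least hβ hmin ⟨B, hB⟩ hwo hlast
  obtain ⟨α', β', a1, a2, a3, a4⟩ := exists_exactlyTwo hF' hβ hex
  exact ⟨α', β', a1.trans h1, a2.trans_lt h1, a3, a4⟩

end Helper2.EX
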