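import Pool.Agent.Helper2.EX.Basic

open Set Cardinal Filter

namespace Helper2.EX

variable {κ μ η : Ord} {E : Set (Set Asg)}

theorem exists_en (α : Ord) : ∃ e : Ord → Set Ord, (∀ z, e z ⊆ Iio α) ∧
    (∀ z < ((2 : Cardinal) ^ α.card).ord, ∀ z' < ((2 : Cardinal) ^ α.card).ord,
      e z = e z' → z = z') ∧
    ∀ y ⊆ Iio α, ∃ z < ((2 : Cardinal) ^ α.card).ord, e z = y := by
  classical
  have hc : #(Iio ((2 : Cardinal) ^ α.card).ord) = #(𝒫 (Iio α)) := by
    rw [Cardinal.mk_Iio_ordinal, card_ord, mk_powerset, Cardinal.mk_Iio_ordinal, lift_power,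
      lift_two]
  obtain ⟨e⟩ := Cardinal.eq.1 hc
  refine ⟨fun z => if h : z < ((2 : Cardinal) ^ α.card).ord then (e ⟨z, h⟩).1 else ∅,
    fun z => ?_, fun z hz z' hz' h => ?_, fun y hy => ?_⟩
  · dsimp only
    split_ifs with h
    · exact (e ⟨z, h⟩).2
    · exact empty_subset _
  · simp only [dif_pos hz, dif_pos hz'] at h
    have h1 := e.injective (Subtype.ext h)
    exact congrArg Subtype.val h1
  · refine ⟨(e.symm ⟨y, hy⟩).1, (e.symm ⟨y, hy⟩).2, ?_⟩
    have h1 : (e.symm ⟨y, hy⟩).1 < ((2 : Cardinal) ^ α.card).ord := (e.symm ⟨y, hy⟩).2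
    simp only [dif_pos h1, Subtype.coe_eta, Equiv.apply_symm_apply]

/-- enumeration of the subsets of `α` -/
noncomputable def en (α : Ord) : Ord → Set Ord := (exists_en α).choose

theorem en_sub (α z : Ord) : en α z ⊆ Iio α := (exists_en α).choose_spec.1 z

theorem en_inj {α z z' : Ord} (hz : z < ((2 : Cardinal) ^ α.card).ord)
    (hz' : z' < ((2 : Cardinal) ^ α.card).ord) (h : en α z = en α z') : z = z' :=
  (exists_en α).choose_spec.2.1 z hz z' hz' h

theorem en_surj {α : Ord} {y : Set Ord} (hy : y ⊆ Iio α) :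
    ∃ z < ((2 : Cardinal) ^ α.card).ord, en α z = y :=
  (exists_en α).choose_spec.2.2 y hy

/-- the functions `s ↦ s δ` with values below the power of `s η` are determined by a subset
of `η` -/
private theorem power_inj (h : IsExt κ μ E) (hη : η < μ) {δ δ' : Ord} (hδ : δ < μ) (hδ' : δ' < μ)
    (h1 : ∀ᶠ s in h.F, s δ < ((2 : Cardinal) ^ (s η).card).ord)
    (h2 : ∀ᶠ s in h.F, s δ' < ((2 : Cardinal) ^ (s η).card).ord)
    (h3 : ∀ b < η, (∀ᶠ s in h.F, s b ∈ en (s η) (s δ)) ↔ ∀ᶠ s in h.F, s b ∈ en (s η) (s δ')) :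
    δ = δ' := by
  refine h.eq_of_ev hδ hδ' ?_
  rcases h.em (P := fun s => en (s η) (s δ) = en (s η) (s δ'))
    (FD.map₃ (fun a b c => en a b = en a c) (FD.coord hη) (FD.coord hδ) (FD.coord hδ'))
    with h4 | h4
  · filter_upwards [h1, h2, h4] with s h5 h6 h7
    exact en_inj h5 h6 h7
  · exfalso
    obtain ⟨b, hb, h5⟩ := h.ev_exists_lt (h.rep_coord hη)
      (P := fun s x => ¬ (x ∈ en (s η) (s δ) ↔ x ∈ en (s η) (s δ')))
      (FD.map₃ (fun (a b c : Ord) (x : Ord) => ¬ (x ∈ en a b ↔ x ∈ en a c))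
        (FD.coord hη) (FD.coord hδ) (FD.coord hδ'))
      (h4.mono fun s hs => by
        by_contra hc
        push Not at hc
        apply hs
        ext x
        by_cases hx : x < s η
        · exact hc x hx
        · exact ⟨fun hx' => absurd (en_sub _ _ hx') hx, fun hx' => absurd (en_sub _ _ hx') hx⟩)
    have hbμ : b < μ := hb.trans hη
    by_cases h6 : ∀ᶠ s in h.F, s b ∈ en (s η) (s δ)
    · obtain ⟨s, h7, h8, h9⟩ := (h5.and (h6.and ((h3 b hb).1 h6))).exists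
      exact h7 ⟨fun _ => h9, fun _ => h8⟩
    · have h6' : ¬ ∀ᶠ s in h.F, s b ∈ en (s η) (s δ') := fun hc => h6 ((h3 b hb).2 hc)
      rw [← h.ev_not (FD.map₃ (fun (a b c : Ord) => c ∈ en a b)
        (FD.coord hη) (FD.coord hδ) (FD.coord hbμ))] at h6
      rw [← h.ev_not (FD.map₃ (fun (a b c : Ord) => c ∈ en a b)
        (FD.coord hη) (FD.coord hδ') (FD.coord hbμ))] at h6'
      obtain ⟨s, h7, h8, h9⟩ := (h5.and (h6.and h6')).exists
      exact h7 ⟨fun hx => absurd hx h8, fun hx => absurd hx h9⟩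

/-- the power of `η` in the ultrapower is not larger than in `V` -/
theorem IsExt.power (h : IsExt κ μ E) (hη : η < μ) (hc : (2 : Cardinal) ^ η.card < μ.card) :
    ∃ θ < μ, θ.card ≤ (2 : Cardinal) ^ η.card ∧
      ∀ᶠ s in h.F, ((2 : Cardinal) ^ (s η).card).ord ≤ s θ := by
  classical
  set S : Set Ord := {δ | δ < μ ∧ ∀ᶠ s in h.F, s δ < ((2 : Cardinal) ^ (s η).card).ord} with hS
  have hcard : #S ≤ lift.{1} ((2 : Cardinal) ^ η.card) := by
    have e1 : lift.{1} ((2 : Cardinal.{0}) ^ η.card) = #(𝒫 (Iio η)) := by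
      rw [mk_powerset, Cardinal.mk_Iio_ordinal, lift_power, lift_two]
    rw [e1]
    refine mk_le_of_injective (f := fun δ : S =>
      (⟨{b | b < η ∧ ∀ᶠ s in h.F, s b ∈ en (s η) (s δ.1)}, fun b hb => hb.1⟩ :
        𝒫 (Iio η))) ?_
    rintro ⟨δ, hδ, h1⟩ ⟨δ', hδ', h2⟩ h3
    have h4 : {b | b < η ∧ ∀ᶠ s in h.F, s b ∈ en (s η) (s δ)} =
        {b | b < η ∧ ∀ᶠ s in h.F, s b ∈ en (s η) (s δ')} := congrArg Subtype.val h3
    refine Subtype.ext (power_inj h hη hδ hδ' h1 h2 fun b hb => ?_)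
    have h5 := Set.ext_iff.1 h4 b
    exact ⟨fun h6 => (h5.1 ⟨hb, h6⟩).2, fun h6 => (h5.2 ⟨hb, h6⟩).2⟩
  have hex : ∃ θ, θ < μ ∧ θ ∉ S := by
    by_contra hcon
    push Not at hcon
    have h1 : #(Iio μ) ≤ #S := mk_le_mk_of_subset fun δ hδ => hcon δ hδ
    rw [Cardinal.mk_Iio_ordinal] at h1
    have h2 := h1.trans hcard
    rw [Cardinal.lift_le] at h2
    exact absurd hc (not_lt.2 h2)
  obtain ⟨θ, ⟨hθ, hθS⟩, hmin⟩ := WellFounded.has_min (r := ((· < ·) : Ord → Ord → Prop))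
    Ordinal.lt_wf {θ | θ < μ ∧ θ ∉ S} hex
  refine ⟨θ, hθ, ?_, ?_⟩
  · have h1 : #(Iio θ) ≤ #S := mk_le_mk_of_subset fun δ hδ => by
      by_contra hc'
      exact hmin δ ⟨lt_trans hδ hθ, hc'⟩ hδ
    rw [Cardinal.mk_Iio_ordinal] at h1
    have h2 := h1.trans hcard
    rwa [Cardinal.lift_le] at h2
  · rcases h.em (P := fun s => s θ < ((2 : Cardinal) ^ (s η).card).ord)
      (FD.map₂ (fun a b => a < ((2 : Cardinal) ^ (b : Ord).card).ord)
        (FD.coord hθ) (FD.coord hη)) with h4 | h4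
    · exact absurd ⟨hθ, h4⟩ hθS
    · exact h4.mono fun s hs => not_lt.1 hs

end Helper2.EX
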