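import Pool.Agent.Helper2.EX.Basic

open Set Cardinal Filter

namespace Helper2.EX

variable {κ μ : Ord} {E F : Set (Set Asg)}

/-- if `E` belongs to `Ult(V, F)` and `μ` is singular in `Ult(V, E)`, then `μ` is singular in
`Ult(V, F)` -/
theorem SingIn.of_mit (hE : IsExt κ μ E) (hF : IsExt κ μ F) (hm : Mit κ μ E F)
    (hs : SingIn μ E) : SingIn μ F := by
  obtain ⟨H, hH, hmit⟩ := hm
  obtain ⟨δ, hδ, h, hh, hcof⟩ := hs
  let Z : Asg → Ord → Set Ord := fun s g =>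
    {z | {t : Asg | (∀ i, t i < s κ) ∧ h (fun i => t (s i)) (t g) = t z} ∈ H s}
  have hZ : FD μ Z := by
    obtain ⟨a, ha1, ha2⟩ := hh
    obtain ⟨b, hb1, hb2⟩ := hH
    refine ⟨insert κ (a ∪ b), fun i hi => ?_, fun s t hst => ?_⟩
    · rcases Finset.mem_insert.1 hi with rfl | hi
      · exact hF.lt_len
      rcases Finset.mem_union.1 hi with hi | hi
      exacts [ha1 i hi, hb1 i hi]
    · have e1 : s κ = t κ := hst κ (Finset.mem_insert_self _ _)
      have e2 : H s = H t := hb2 s t fun i hi =>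
        hst i (Finset.mem_insert_of_mem (Finset.mem_union_right _ hi))
      have e3 : ∀ u : Asg, h (fun i => u (s i)) = h (fun i => u (t i)) := fun u =>
        ha2 _ _ fun i hi => by
          rw [hst i (Finset.mem_insert_of_mem (Finset.mem_union_left _ hi))]
      funext g
      ext z
      simp only [Z, mem_ofPred_eq, e1, e2, e3]
  refine ⟨δ, hδ, fun s g => sInf (Z s g), hZ.map fun (Q : Ord → Set Ord) g => sInf (Q g), ?_⟩
  intro η hη
  obtain ⟨γ, hγ, ζ, hηζ, hζ, hX⟩ := hcof η hη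
  refine ⟨γ, hγ, ζ, hηζ, hζ, ?_⟩
  have hγμ : γ < μ := hγ.trans hδ
  -- the representing set of an equation
  have key : ∀ ζ' < μ, ({s : Asg | h s (s γ) = s ζ'} ∈ E ↔ ∀ᶠ s in hF.F, s ζ' ∈ Z s (s γ)) := by
    intro ζ' hζ'
    have hfd : FD μ (fun s : Asg => s ∈ {s : Asg | h s (s γ) = s ζ'}) :=
      FD.map₃ (fun (k : Ord → Ord) (x y : Ord) => k x = y) hh (FD.coord hγμ) (FD.coord hζ')
    rw [hmit _ hfd]
    have hfd2 : FD μ (fun s : Asg => tr κ s {s : Asg | h s (s γ) = s ζ'} ∈ H s) :=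
      FD.map₂ (fun (A : Set Asg) (B : Set (Set Asg)) => A ∈ B) (FD.tr hF.lt_len hfd) hH
    exact (hF.ev_iff hfd2).symm
  have h1 : ∀ᶠ s in hF.F, s ζ ∈ Z s (s γ) := (key ζ hζ).1 hX
  have hfdI : FD μ (fun s : Asg => sInf (Z s (s γ))) :=
    FD.map₂ (fun (Q : Ord → Set Ord) (x : Ord) => sInf (Q x)) hZ (FD.coord hγμ)
  have h2 : ∃ ζ' < μ, ∀ᶠ s in hF.F, sInf (Z s (s γ)) = s ζ' := by
    rcases hF.em (P := fun s => sInf (Z s (s γ)) < s ζ)
      (FD.map₂ (· < ·) hfdI (FD.coord hζ)) with h3 | h3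
    · obtain ⟨j, hj, h4⟩ := hF.ev_normal hfdI hζ h3
      exact ⟨j, hj.trans hζ, h4⟩
    · refine ⟨ζ, hζ, ?_⟩
      filter_upwards [h1, h3] with s hs1 hs3
      exact le_antisymm (csInf_le' hs1) (not_lt.1 hs3)
  obtain ⟨ζ', hζ', h5⟩ := h2
  have h6 : ∀ᶠ s in hF.F, s ζ' ∈ Z s (s γ) := by
    filter_upwards [h1, h5] with s hs1 hs5
    rw [← hs5]
    exact csInf_mem ⟨_, hs1⟩
  have h7 : {s : Asg | h s (s γ) = s ζ'} ∈ E := (key ζ' hζ').2 h6
  have h8 : ζ = ζ' := by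
    refine hE.eq_of_ev hζ hζ' ?_
    filter_upwards [hE.mem_F hX, hE.mem_F h7] with s hs1 hs2
    exact hs1.symm.trans hs2
  rw [← h8] at h5
  exact (hF.ev_iff (FD.map₂ (fun (x y : Ord) => x = y) hfdI (FD.coord hζ))).1 h5

end Helper2.EX
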