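import Pool.Agent.Helper2.EX.Down

/-!
# The Mitchell order is transitive and well-founded
-/

open Set Cardinal Filter

namespace Helper2.EX

variable {κ μ ρ : Ord} {F G E : Set (Set Asg)} {m : Asg → Ord}

theorem Mit.trans {E₀ E₁ E₂ : Set (Set Asg)} (hκ : κ < μ) (h1 : Mit κ μ E₀ E₁)
    (h2 : Mit κ μ E₁ E₂) : Mit κ μ E₀ E₂ := by
  obtain ⟨H1, f1, g1⟩ := h1
  obtain ⟨H2, f2, g2⟩ := h2
  refine ⟨fun s => {Z | {t | (∀ i, t i < s κ) ∧ tr (s κ) t Z ∈ H1 (fun i => t (s i))} ∈ H2 s},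
    ?_, fun X hX => ?_⟩
  · exact FD.map₃ (fun (k : Ord) (A : Asg → Set (Set Asg)) (B : Set (Set Asg)) =>
      ({Z | {t | (∀ i, t i < k) ∧ tr k t Z ∈ A t} ∈ B} : Set (Set Asg)))
      (FD.coord hκ) (FD.comp_push f1) f2
  · have hY : FD μ (fun s => s ∈ {u | tr κ u X ∈ H1 u}) :=
      FD.map₂ (fun (a : Set Asg) (b : Set (Set Asg)) => a ∈ b) (FD.tr hκ hX) f1
    rw [g1 X hX, g2 _ hY]
    have key : ∀ s : Asg, tr κ s {u | tr κ u X ∈ H1 u} =
        {t | (∀ i, t i < s κ) ∧ tr (s κ) t (tr κ s X) ∈ H1 (fun i => t (s i))} := by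
      intro s
      ext t
      refine and_congr_right fun ht => ?_
      have e : tr κ (fun i => t (s i)) X = tr (s κ) t (tr κ s X) := by
        ext t'
        refine and_congr_right fun ht' => ?_
        exact ⟨fun h => ⟨fun i => (ht' _).trans (ht _), h⟩, fun h => h.2⟩
      change tr κ (fun i => t (s i)) X ∈ H1 (fun i => t (s i)) ↔ _
      rw [e]
    have e2 : {s | tr κ s {u | tr κ u X ∈ H1 u} ∈ H2 s} =
        {s | tr κ s X ∈ {Z | {t | (∀ i, t i < s κ) ∧ tr (s κ) t Z ∈ H1 (fun i => t (s i))} ∈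
          H2 s}} := by
      ext s
      change tr κ s {u | tr κ u X ∈ H1 u} ∈ H2 s ↔
        {t | (∀ i, t i < s κ) ∧ tr (s κ) t (tr κ s X) ∈ H1 (fun i => t (s i))} ∈ H2 s
      rw [key s]
    rw [e2]

/-- transfer of the Mitchell order -/
theorem Mit.down (h : IsExt κ ρ F) (hm : Rep h μ m) (hκ : κ < μ) {Es Gs : Asg → Set (Set Asg)}
    (rE : RepExt h μ E Es) (rG : RepExt h μ G Gs)
    (hEs : ∀ᶠ s in h.F, IsExt (s κ) (m s) (Es s)) (hGs : ∀ᶠ s in h.F, IsExt (s κ) (m s) (Gs s))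
    (hM : Mit κ μ G E) : ∀ᶠ s in h.F, Mit (s κ) (m s) (Gs s) (Es s) := by
  obtain ⟨H', hH1, hH2⟩ := hM
  have hκρ : κ < ρ := h.lt_len
  have hHs : FD ρ (fun (s : Asg) (t : Asg) => H' (fun i => t (s i))) :=
    (FD.comp_push hH1).mono hm.le
  have hHfd := h.ev_fd_comp hm hH1
  -- the property
  have hP : FD ρ (fun s => ∀ Y : Set Asg, FD (m s) (fun t => t ∈ Y) →
      (Y ∈ Gs s ↔ {t | tr (s κ) t Y ∈ H' (fun i => t (s i))} ∈ Es s)) :=
    FD.map₂ (fun (p : Ord × Ord × (Asg → Set (Set Asg))) (q : Set (Set Asg) × Set (Set Asg)) =>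
      ∀ Y : Set Asg, FD p.1 (fun t => t ∈ Y) → (Y ∈ q.1 ↔ {t | tr p.2.1 t Y ∈ p.2.2 t} ∈ q.2))
      (FD.map₂ Prod.mk hm.fd (FD.map₂ Prod.mk (FD.coord hκρ) hHs)) (FD.map₂ Prod.mk rG.fd rE.fd)
  rcases h.em hP with h1 | h1
  · filter_upwards [h1, hHfd] with s h2 h3
    exact ⟨fun t => H' (fun i => t (s i)), h3, h2⟩
  exfalso
  obtain ⟨Y, hY1, hY2⟩ := h.ev_choose (P := fun (s : Asg) (Y : Set Asg) =>
      FD (m s) (fun t => t ∈ Y) ∧
        ¬ (Y ∈ Gs s ↔ {t | tr (s κ) t Y ∈ H' (fun i => t (s i))} ∈ Es s))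
    (FD.map₂ (fun (p : Ord × Ord × (Asg → Set (Set Asg))) (q : Set (Set Asg) × Set (Set Asg))
      (Y : Set Asg) => FD p.1 (fun t => t ∈ Y) ∧
        ¬ (Y ∈ q.1 ↔ {t | tr p.2.1 t Y ∈ p.2.2 t} ∈ q.2))
      (FD.map₂ Prod.mk hm.fd (FD.map₂ Prod.mk (FD.coord hκρ) hHs))
      (FD.map₂ Prod.mk rG.fd rE.fd)) (by
        refine h1.mono fun s hs => ?_
        by_contra hc
        apply hs
        intro Y hY
        by_contra hne
        exact hc ⟨Y, hY, hne⟩)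
  obtain ⟨X, hX1, hX2⟩ := h.lift_set hm Y hY1 (hY2.mono fun s hs => hs.1)
  have hZ : FD μ (fun s => s ∈ {u | tr κ u X ∈ H' u}) :=
    FD.map₂ (fun (a : Set Asg) (b : Set (Set Asg)) => a ∈ b) (FD.tr hκ hX1) hH1
  have e1 : ∀ᶠ s in h.F, (EX.push s X ∈ Gs s ↔ Y s ∈ Gs s) := by
    filter_upwards [hY2, hX2, hGs, h.ev_fd_push hm hX1] with s h2 h3 h4 h5
    exact h4.mem_iff_of_agree h5 h2.1 h3
  have e2 : ∀ᶠ s in h.F, (EX.push s {u | tr κ u X ∈ H' u} ∈ Es s ↔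
      {t | tr (s κ) t (Y s) ∈ H' (fun i => t (s i))} ∈ Es s) := by
    filter_upwards [hY2, hX2, hEs, h.ev_fd_push hm hZ, hHfd, hm.lt κ hκ] with s h2 h3 h4 h5 h6 h7
    refine h4.mem_iff_of_agree h5 ?_ fun t ht => ?_
    · exact FD.map₂ (fun (a : Set Asg) (b : Set (Set Asg)) => a ∈ b) (FD.tr h7 h2.1) h6
    · have e : tr κ (fun i => t (s i)) X = tr (s κ) t (Y s) := by
        ext t'
        refine and_congr_right fun ht' => ?_
        exact h3 (fun i => t' (t i)) fun i => (ht' _).trans (ht _)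
      change tr κ (fun i => t (s i)) X ∈ H' (fun i => t (s i)) ↔
        tr (s κ) t (Y s) ∈ H' (fun i => t (s i))
      rw [e]
  have hA : FD ρ (fun s => EX.push s X ∈ Gs s) :=
    FD.map₂ (fun (a : Set Asg) (b : Set (Set Asg)) => a ∈ b) (hX1.push.mono hm.le) rG.fd
  have hB : FD ρ (fun s => EX.push s {u | tr κ u X ∈ H' u} ∈ Es s) :=
    FD.map₂ (fun (a : Set Asg) (b : Set (Set Asg)) => a ∈ b) (hZ.push.mono hm.le) rE.fd
  have hiff : (∀ᶠ s in h.F, EX.push s X ∈ Gs s) ↔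
      ∀ᶠ s in h.F, EX.push s {u | tr κ u X ∈ H' u} ∈ Es s := by
    rw [← rG.iff X hX1, ← rE.iff _ hZ]
    exact hH2 X hX1
  rcases h.em hA with h2 | h2
  · have h3 := hiff.1 h2
    obtain ⟨s, ⟨⟨⟨h4, h5⟩, h6⟩, h7⟩, h8⟩ := ((((h2.and h3).and e1).and e2).and hY2).exists
    exact h8.2 ⟨fun _ => h7.1 h5, fun _ => h6.1 h4⟩
  · have h3 : ∀ᶠ s in h.F, ¬ (EX.push s {u | tr κ u X ∈ H' u} ∈ Es s) := by
      rw [h.ev_not hB, ← hiff, ← h.ev_not hA]
      exact h2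
    obtain ⟨s, ⟨⟨⟨h4, h5⟩, h6⟩, h7⟩, h8⟩ := ((((h2.and h3).and e1).and e2).and hY2).exists
    exact h8.2 ⟨fun h9 => absurd (h6.2 h9) h4, fun h9 => absurd (h7.2 h9) h5⟩

theorem no_chain : ∀ (κ μ : Ord) (E : ℕ → Set (Set Asg)), (∀ i < μ, i + 1 < μ) →
    (∀ n, IsExt κ μ (E n)) → (∀ n, Mit κ μ (E (n + 1)) (E n)) → False := by
  intro κ
  induction κ using WellFoundedLT.induction with
  | ind κ ih =>
    intro μ E hμ hE hM
    have h := hE 0
    have hκ : κ < μ := h.lt_len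
    obtain ⟨m, hm, -⟩ := h.exists_rep hμ
    have hM0 : ∀ n, Mit κ μ (E (n + 1)) (E 0) := by
      intro n
      induction n with
      | zero => exact hM 0
      | succ n ihn => exact (hM (n + 1)).trans hκ ihn
    choose H hH1 hH2 using hM0
    have hiff : ∀ n, ∀ X : Set Asg, FD μ (fun s => s ∈ X) →
        (X ∈ E (n + 1) ↔ ∀ᶠ s in h.F, tr κ s X ∈ H n s) := by
      intro n X hX
      rw [h.ev_iff (FD.map₂ (fun (a : Set Asg) (b : Set (Set Asg)) => a ∈ b)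
        (FD.tr hκ hX) (hH1 n))]
      exact hH2 n X hX
    have hr : ∀ n, RepExt h μ (E (n + 1)) (fun s => cap (s κ) (m s) (H n s)) := fun n =>
      repExt_cap h hm hκ (fun X hX => (hE (n + 1)).fd X hX) (hH1 n) (hiff n)
    have hd : ∀ n, ∀ᶠ s in h.F, IsExt (s κ) (m s) (cap (s κ) (m s) (H n s)) := fun n =>
      h.down hm hκ (hE (n + 1)) (hH1 n) (hiff n)
    have hMd : ∀ n, ∀ᶠ s in h.F, Mit (s κ) (m s) (cap (s κ) (m s) (H (n + 1) s))
        (cap (s κ) (m s) (H n s)) := fun n =>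
      Mit.down h hm hκ (hr n) (hr (n + 1)) (hd n) (hd (n + 1)) (hM (n + 1))
    have hadd : ∀ᶠ s in h.F, ∀ x < m s, x + 1 < m s := by
      refine h.ev_forall_lt hm (P := fun s x => x + 1 < m s)
        (hm.fd.map fun (b : Ord) (x : Ord) => x + 1 < b) fun i hi => ?_
      filter_upwards [h.ev_add_one (hμ i hi), hm.lt (i + 1) (hμ i hi)] with s h1 h2
      rwa [h1] at h2
    obtain ⟨s, ⟨⟨h1, h2⟩, h3⟩, h4⟩ := ((((eventually_countable_forall.2 hd).and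
      (eventually_countable_forall.2 hMd)).and hadd).and (h.ev_lt hκ)).exists
    exact ih (s κ) h4 (m s) (fun n => cap (s κ) (m s) (H n s)) h3 h1 h2

end Helper2.EX
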